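import Pool.Agent.U66.UP.Main

set_option autoImplicit false
set_option linter.unusedSectionVars false

/-! Amalgamation below and above a measurable cardinal. -/

namespace Pool.Agent.U66.UP

open Cardinal FirstOrder FirstOrder.Language
open Pool.Agent.H288R4.LS (AEC)

universe u

/-- `χ` is a measurable cardinal: uncountable, with a nonprincipal `χ`-complete ultrafilter. -/
def Measurable (χ : Cardinal.{u}) : Prop :=
  ℵ₀ < χ ∧ ∃ (I : Type u) (U : Ultrafilter I), #I = χ ∧ (∀ i, {i} ∉ U) ∧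
    ∀ (J : Type u) (A : J → Set I), #J < χ → (∀ j, A j ∈ U) → (⋂ j, A j) ∈ U

variable {L : FirstOrder.Language.{u, u}}

/-- amalgamation in `lam`, the amalgam is any member of `K` -/
def WAP (K : AEC L) (lam : Cardinal.{u}) : Prop :=
  ∀ (M₀ M₁ M₂ : Type u) [L.Structure M₀] [L.Structure M₁] [L.Structure M₂] (f₁ : M₀ ↪[L] M₁)
    (f₂ : M₀ ↪[L] M₂), K.emb f₁ → K.emb f₂ → #M₀ = lam → #M₁ = lam → #M₂ = lam →
    ∃ (N : Type u) (_ : L.Structure N) (g₁ : M₁ ↪[L] N) (g₂ : M₂ ↪[L] N),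
      K.emb g₁ ∧ K.emb g₂ ∧ ∀ x, g₁ (f₁ x) = g₂ (f₂ x)

/-- amalgamation in `lam`, the amalgam is a member of `K` of cardinality `lam` -/
def AP (K : AEC L) (lam : Cardinal.{u}) : Prop :=
  ∀ (M₀ M₁ M₂ : Type u) [L.Structure M₀] [L.Structure M₁] [L.Structure M₂] (f₁ : M₀ ↪[L] M₁)
    (f₂ : M₀ ↪[L] M₂), K.emb f₁ → K.emb f₂ → #M₀ = lam → #M₁ = lam → #M₂ = lam →
    ∃ (N : Type u) (_ : L.Structure N) (g₁ : M₁ ↪[L] N) (g₂ : M₂ ↪[L] N),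
      #N = lam ∧ K.emb g₁ ∧ K.emb g₂ ∧ ∀ x, g₁ (f₁ x) = g₂ (f₂ x)

variable {K : AEC L}

theorem AP.wap {lam : Cardinal.{u}} (h : AP K lam) : WAP K lam := by
  intro M₀ M₁ M₂ _ _ _ f₁ f₂ h1 h2 c0 c1 c2
  obtain ⟨N, iN, g₁, g₂, -, h3, h4, h5⟩ := h M₀ M₁ M₂ f₁ f₂ h1 h2 c0 c1 c2
  exact ⟨N, iN, g₁, g₂, h3, h4, h5⟩

theorem emb_cod {M N : Type u} [L.Structure M] [L.Structure N] {A : L.Substructure N}
    (hA : K.emb A.subtype) (f : M ↪[L] N) (hf : K.emb f) (h : ∀ x, f x ∈ A) :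
    K.emb (f.codRestrict A h) := by
  refine K.coherence A.subtype _ hA ?_
  have : A.subtype.comp (f.codRestrict A h) = f := by ext x; rfl
  rw [this]; exact hf

theorem wap_ap {κ lam : Cardinal.{u}} (hκ : K.LSat κ) (hl : κ ≤ lam) (h : WAP K lam) :
    AP K lam := by
  intro M₀ M₁ M₂ _ _ _ f₁ f₂ h1 h2 c0 c1 c2
  obtain ⟨N, iN, g₁, g₂, h3, h4, h5⟩ := h M₀ M₁ M₂ f₁ f₂ h1 h2 c0 c1 c2
  have h0 : ℵ₀ ≤ lam := hκ.1.trans hl
  obtain ⟨A, hA1, hA2, hA3⟩ := hκ.2.2 N (K.emb_mem _ h3).2 (Set.range g₁ ∪ Set.range g₂)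
  have hc : #(Set.range g₁ ∪ Set.range g₂ : Set N) ≤ lam := by
    refine (Cardinal.mk_union_le _ _).trans (Cardinal.add_le_of_le h0 ?_ ?_)
    · exact Cardinal.mk_range_le.trans c1.le
    · exact Cardinal.mk_range_le.trans c2.le
  have m1 : ∀ x, g₁ x ∈ A := fun x => hA1 (Or.inl ⟨x, rfl⟩)
  have m2 : ∀ x, g₂ x ∈ A := fun x => hA1 (Or.inr ⟨x, rfl⟩)
  refine ⟨A, inferInstance, g₁.codRestrict A m1, g₂.codRestrict A m2, ?_, emb_cod hA2 _ h3 m1,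
    emb_cod hA2 _ h4 m2, fun x => Subtype.ext (h5 x)⟩
  apply le_antisymm
  · exact hA3.trans (Cardinal.add_le_of_le h0 hc hl)
  · rw [← c1]
    exact Cardinal.mk_le_of_injective (g₁.codRestrict A m1).injective

theorem transfer {κ χ ν lam : Cardinal.{u}} (hκ : K.LSat κ) (hχ : Measurable χ) (h1 : κ < χ)
    (h2 : χ ≤ ν) (h3 : ν ≤ lam) (h : WAP K lam) : WAP K ν := by
  classical
  obtain ⟨hχ0, I, U, hI, hU0, hU1⟩ := hχ
  have hU : Cpl U κ := fun J hJ A hA => hU1 J A (hJ.trans_lt h1) hA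
  have hIne : Nonempty I := by
    rw [← Cardinal.mk_ne_zero_iff, hI]
    exact (Cardinal.aleph0_pos.trans hχ0).ne'
  intro M₀ M₁ M₂ _ _ _ f₁ f₂ hf₁ hf₂ c0 c1 c2
  obtain ⟨Λ, hΛ⟩ : ∃ Λ : Type u, #Λ = lam := ⟨lam.out, Cardinal.mk_out lam⟩
  letI : LinearOrder Λ := linearOrderOfSTO WellOrderingRel
  have hν0 : ℵ₀ ≤ ν := hχ0.le.trans h2
  have hl0 : ℵ₀ ≤ lam := hν0.trans h3
  have hκl : κ ≤ lam := h1.le.trans (h2.trans h3)
  obtain ⟨m₀⟩ : Nonempty M₀ := by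
    rw [← Cardinal.mk_ne_zero_iff, c0]
    exact (Cardinal.aleph0_pos.trans_le hν0).ne'
  have hM0 := (K.emb_mem _ hf₁).1
  have hd0 : K.emb (dg (L := L) U Λ M₀) := emb_dg U hκ hU hM0 m₀
  have hd1 : K.emb (dg (L := L) U Λ M₁) := emb_dg U hκ hU (K.emb_mem _ hf₁).2 (f₁ m₀)
  have hd2 : K.emb (dg (L := L) U Λ M₂) := emb_dg U hκ hU (K.emb_mem _ hf₂).2 (f₂ m₀)
  have hF1 : K.emb (pmap (Λ := Λ) U f₁) := emb_pmap U hκ hU f₁ hf₁ m₀
  have hF2 : K.emb (pmap (Λ := Λ) U f₂) := emb_pmap U hκ hU f₂ hf₂ m₀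
  have hbig : lam ≤ #(Pw U Λ M₀) := by
    rw [← hΛ]
    exact card_pw U hU0 (by rw [hI, c0]; exact h2)
  obtain ⟨S, hS⟩ := Cardinal.le_mk_iff_exists_set.1 hbig
  have hcard : ∀ {P Q R : Type u} (p : P → R) (q : Q → R), #P ≤ lam → #Q ≤ lam →
      #(Set.range p ∪ Set.range q : Set R) ≤ lam := fun p q hp hq =>
    (Cardinal.mk_union_le _ _).trans (Cardinal.add_le_of_le hl0
      (Cardinal.mk_range_le.trans hp) (Cardinal.mk_range_le.trans hq))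
  obtain ⟨A0, a1, a2, a3⟩ := hκ.2.2 _ (K.emb_mem _ hd0).2
    (Set.range (Subtype.val : S → Pw U Λ M₀) ∪ Set.range (dg (L := L) U Λ M₀))
  have a3' : #A0 = lam := by
    apply le_antisymm
    · exact a3.trans (Cardinal.add_le_of_le hl0 (hcard _ _ hS.le (c0.trans_le h3)) hκl)
    · rw [← hS]
      refine Cardinal.mk_le_mk_of_subset fun x hx => a1 (Or.inl ⟨⟨x, hx⟩, rfl⟩)
  have side : ∀ (M : Type u) [L.Structure M] (f : M₀ ↪[L] M), K.emb f → #M = ν →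
      K.emb (dg (L := L) U Λ M) → K.emb (pmap (Λ := Λ) U f) →
      ∃ (A : L.Substructure (Pw U Λ M)) (hA : ∀ x : A0, pmap (Λ := Λ) U f x.1 ∈ A)
        (hA' : ∀ x, dg (L := L) U Λ M x ∈ A),
        K.emb (((pmap (Λ := Λ) U f).comp A0.subtype).codRestrict A hA) ∧
        K.emb ((dg (L := L) U Λ M).codRestrict A hA') ∧ #A = lam := by
    intro M _ f hf hM hd hF
    obtain ⟨A, b1, b2, b3⟩ := hκ.2.2 _ (K.emb_mem _ hd).2
      (Set.range ((pmap (Λ := Λ) U f).comp A0.subtype) ∪ Set.range (dg (L := L) U Λ M))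
    have hA : ∀ x : A0, pmap (Λ := Λ) U f x.1 ∈ A := fun x => b1 (Or.inl ⟨x, rfl⟩)
    have hA' : ∀ x, dg (L := L) U Λ M x ∈ A := fun x => b1 (Or.inr ⟨x, rfl⟩)
    refine ⟨A, hA, hA', emb_cod b2 _ (K.emb_comp _ _ hF a2) hA, emb_cod b2 _ hd hA', ?_⟩
    apply le_antisymm
    · exact b3.trans (Cardinal.add_le_of_le hl0 (hcard _ _ a3'.le (hM.trans_le h3)) hκl)
    · rw [← a3']
      exact Cardinal.mk_le_of_injective
        (((pmap (Λ := Λ) U f).comp A0.subtype).codRestrict A hA).injective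
  obtain ⟨A1, b1, b2, b3, b4, b5⟩ := side M₁ f₁ hf₁ c1 hd1 hF1
  obtain ⟨A2, e1, e2, e3, e4, e5⟩ := side M₂ f₂ hf₂ c2 hd2 hF2
  obtain ⟨N, iN, g₁, g₂, k1, k2, k3⟩ := h A0 A1 A2 _ _ b3 e3 a3' b5 e5
  refine ⟨N, iN, g₁.comp _, g₂.comp _, K.emb_comp _ _ k1 b4, K.emb_comp _ _ k2 e4, fun x => ?_⟩
  have ha0 : dg (L := L) U Λ M₀ x ∈ A0 := a1 (Or.inr ⟨x, rfl⟩)
  have k4 := k3 ⟨dg (L := L) U Λ M₀ x, ha0⟩
  have q1 : (((pmap (Λ := Λ) U f₁).comp A0.subtype).codRestrict A1 b1)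
      ⟨dg (L := L) U Λ M₀ x, ha0⟩ = (dg (L := L) U Λ M₁).codRestrict A1 b2 (f₁ x) :=
    Subtype.ext (pmap_dg U f₁ x)
  have q2 : (((pmap (Λ := Λ) U f₂).comp A0.subtype).codRestrict A2 e1)
      ⟨dg (L := L) U Λ M₀ x, ha0⟩ = (dg (L := L) U Λ M₂).codRestrict A2 e2 (f₂ x) :=
    Subtype.ext (pmap_dg U f₂ x)
  rw [q1, q2] at k4
  exact k4

/-- every failure of amalgamation above a measurable cardinal goes up -/
theorem ap_down {κ χ ν lam : Cardinal.{u}} (hκ : K.LSat κ) (hχ : Measurable χ) (h1 : κ < χ)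
    (h2 : χ ≤ ν) (h3 : ν ≤ lam) (h : AP K lam) : AP K ν :=
  wap_ap hκ (h1.le.trans h2) (transfer hκ hχ h1 h2 h3 h.wap)

end Pool.Agent.U66.UP
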