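import Pool.Agent.U66.UP.Th

set_option autoImplicit false
set_option linter.unusedSectionVars false

/-! Cardinalities and supports in limit ultrapowers. -/

namespace Pool.Agent.U66.UP

open Cardinal FirstOrder FirstOrder.Language
open Pool.Agent.H288R4.LS (AEC)

universe u

variable {L : FirstOrder.Language.{u, u}} {Λ I : Type u} [LinearOrder Λ] [Nonempty I]
  (U : Ultrafilter I)

theorem card_fs {M : Type u} (hI : ℵ₀ ≤ #I) (hM : ℵ₀ ≤ #M) :
    #(FS Λ I M) ≤ max ℵ₀ #Λ * #M ^ #I := by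
  classical
  obtain ⟨i₀⟩ := ‹Nonempty I›
  let ex : (s : Finset Λ) → ({a // a ∈ s} → I) → (Λ → I) := fun s y a =>
    if h : a ∈ s then y ⟨a, h⟩ else i₀
  choose sp hsp using fun f : FS Λ I M => f.2
  let F : FS Λ I M → Σ s : Finset Λ, ({a // a ∈ s} → I) → M := fun f =>
    ⟨sp f, fun y => f.1 (ex (sp f) y)⟩
  have hF : Function.Injective F := by
    have key : ∀ (f : FS Λ I M) (s : Finset Λ), Sp s f.1 → ∀ x : Λ → I,
        f.1 x = f.1 (ex s fun a => x a.1) := fun f s hs x =>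
      hs _ _ fun a ha => by simp only [ex, dif_pos ha]
    have key2 : ∀ (s t : Finset Λ) (p : ({a // a ∈ s} → I) → M) (q : ({a // a ∈ t} → I) → M),
        (⟨s, p⟩ : Σ s : Finset Λ, ({a // a ∈ s} → I) → M) = ⟨t, q⟩ →
        ∀ x : Λ → I, p (fun a => x a.1) = q fun a => x a.1 := by
      intro s t p q h x
      cases h
      rfl
    intro f g h
    apply Subtype.ext
    funext x
    rw [key f _ (hsp f) x, key g _ (hsp g) x]
    exact key2 _ _ _ _ h x
  refine (Cardinal.mk_le_of_injective hF).trans ?_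
  rw [Cardinal.mk_sigma]
  have h1 : ∀ s : Finset Λ, #(({a // a ∈ s} → I) → M) ≤ #M ^ #I := by
    intro s
    rw [← Cardinal.power_def, ← Cardinal.power_def]
    refine Cardinal.power_le_power_left (Cardinal.aleph0_pos.trans_le hM).ne' ?_
    rw [Cardinal.mk_coe_finset]
    exact Cardinal.power_nat_le hI
  refine (Cardinal.sum_le_sum _ _ h1).trans ?_
  rw [Cardinal.sum_const']
  refine mul_le_mul' ?_ le_rfl
  refine (Cardinal.mk_le_of_surjective (f := (List.toFinset : List Λ → Finset Λ)) ?_).trans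
    (Cardinal.mk_list_le_max Λ)
  intro s
  exact ⟨s.toList, s.toList_toFinset⟩

theorem card_pw_le {M : Type u} (hI : ℵ₀ ≤ #I) (hM : ℵ₀ ≤ #M) :
    #(Pw U Λ M) ≤ max ℵ₀ #Λ * #M ^ #I :=
  (Cardinal.mk_le_of_surjective (f := mk U) (mk_surj U)).trans (card_fs hI hM)

variable {M : Type u} [L.Structure M]

theorem range_jj {Γ : Set Λ} (hΓ : IsUpperSet Γ) (q : Pw U Λ M) :
    q ∈ Set.range (jj (L := L) U hΓ M) ↔ ∃ f : FS Λ I M, mk U f = q ∧
      ∃ s : Finset Λ, (∀ a ∈ s, a ∈ Γ) ∧ Sp s f.1 := by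
  classical
  constructor
  · rintro ⟨r, rfl⟩
    obtain ⟨g, rfl⟩ := mk_surj U r
    refine ⟨up g, (jj_mk U hΓ g).symm, ?_⟩
    obtain ⟨s, hs⟩ := g.2
    refine ⟨s.image Subtype.val, ?_, fun x y hxy => hs _ _ fun a ha =>
      hxy a.1 (Finset.mem_image_of_mem _ ha)⟩
    intro a ha
    obtain ⟨b, -, rfl⟩ := Finset.mem_image.1 ha
    exact b.2
  · rintro ⟨f, rfl, s, h1, h2⟩
    obtain ⟨x₁⟩ : Nonempty (↥Γᶜ → I) := inferInstance
    refine ⟨mk U (sec f x₁), ?_⟩
    rw [jj_mk]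
    congr 1
    apply Subtype.ext
    funext x
    change f.1 (glue x₁ fun a : ↥Γ => x a.1) = f.1 x
    refine h2 _ _ fun a ha => ?_
    exact glue_mem x₁ (fun a : ↥Γ => x a.1) ⟨a, h1 a ha⟩

end Pool.Agent.U66.UP
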