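import Pool.Agent.U66.UP.Th
import Pool.Agent.U66.UP.Ap

set_option autoImplicit false
set_option linter.unusedSectionVars false

/-! Chains of structures on subsets of a fixed set. -/

namespace Pool.Agent.U66.UP

open Cardinal FirstOrder FirstOrder.Language
open Pool.Agent.H288R4.LS (AEC)

universe u

variable {L : FirstOrder.Language.{u, u}} {W : Type u}

/-- structures on subsets of `W` -/
structure Ps (L : FirstOrder.Language.{u, u}) (W : Type u) where
  S : Set W
  str : L.Structure S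

instance (p : Ps L W) : L.Structure p.S := p.str

/-- strong extension -/
def Le (K : AEC L) (p q : Ps L W) : Prop :=
  ∃ e : p.S ↪[L] q.S, (∀ x, (e x).1 = x.1) ∧ K.emb e

theorem Le.sub {K : AEC L} {p q : Ps L W} (h : Le K p q) : p.S ⊆ q.S := by
  obtain ⟨e, h1, -⟩ := h
  intro x hx
  rw [show x = (e ⟨x, hx⟩).1 from (h1 ⟨x, hx⟩).symm]
  exact (e ⟨x, hx⟩).2

theorem Le.trans {K : AEC L} {p q r : Ps L W} (h : Le K p q) (h' : Le K q r) : Le K p r := by
  obtain ⟨e, h1, h2⟩ := h
  obtain ⟨e', h3, h4⟩ := h'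
  exact ⟨e'.comp e, fun x => (h3 (e x)).trans (h1 x), K.emb_comp _ _ h4 h2⟩

theorem Le.refl {K : AEC L} {p : Ps L W} (h : K.mem p.S) : Le K p p :=
  ⟨(Language.Equiv.refl L p.S).toEmbedding, fun _ => rfl, K.emb_equiv _ h⟩

theorem Le.mem {K : AEC L} {p q : Ps L W} (h : Le K p q) : K.mem p.S ∧ K.mem q.S := by
  obtain ⟨e, h1, h2⟩ := h
  exact K.emb_mem _ h2

/-- the union of a family -/
noncomputable def Un {ι : Type u} [Nonempty ι] (G : ι → Ps L W) : Ps L W where
  S := ⋃ i, (G i).S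
  str :=
    { funMap := fun {n} F v => by
        classical
        exact if h : ∃ i, ∀ k, (v k).1 ∈ (G i).S then
          ⟨(Structure.funMap F (fun k => (⟨(v k).1, h.choose_spec k⟩ : (G h.choose).S))).1,
            Set.mem_iUnion.2 ⟨h.choose, Subtype.property _⟩⟩
        else v ⟨0, Nat.pos_of_ne_zero (by
          rintro rfl
          exact h ⟨Classical.arbitrary ι, fun k => k.elim0⟩)⟩
      RelMap := fun {n} R v => ∃ i, ∃ h : ∀ k, (v k).1 ∈ (G i).S,
        Structure.RelMap R (fun k => (⟨(v k).1, h k⟩ : (G i).S)) }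

section un
variable {ι : Type u} [LinearOrder ι] [Nonempty ι] {G : ι → Ps L W} {K : AEC L}
  (hG : ∀ i j, i ≤ j → Le K (G i) (G j))
include hG

theorem ch_fun {n : ℕ} (F : L.Functions n) {i j : ι} (hij : i ≤ j) (v : Fin n → (G i).S)
    (w : Fin n → (G j).S) (h : ∀ k, (w k).1 = (v k).1) :
    (Structure.funMap F v).1 = (Structure.funMap F w).1 := by
  obtain ⟨e, h1, h2⟩ := hG i j hij
  have : w = e ∘ v := by
    funext k
    exact Subtype.ext ((h k).trans (h1 (v k)).symm)
  rw [this, ← e.map_fun, h1]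

theorem ch_rel {n : ℕ} (R : L.Relations n) {i j : ι} (hij : i ≤ j) (v : Fin n → (G i).S)
    (w : Fin n → (G j).S) (h : ∀ k, (w k).1 = (v k).1) :
    Structure.RelMap R v ↔ Structure.RelMap R w := by
  obtain ⟨e, h1, h2⟩ := hG i j hij
  have : w = e ∘ v := by
    funext k
    exact Subtype.ext ((h k).trans (h1 (v k)).symm)
  rw [this, e.map_rel]

theorem un_fun {n : ℕ} (F : L.Functions n) (i : ι) (v : Fin n → (G i).S)
    (w : Fin n → (Un G).S) (h : ∀ k, (w k).1 = (v k).1) :
    (Structure.funMap F w).1 = (Structure.funMap F v).1 := by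
  classical
  have hex : ∃ i, ∀ k, (w k).1 ∈ (G i).S := ⟨i, fun k => by rw [h k]; exact (v k).2⟩
  have h0 : Structure.funMap F w = (⟨(Structure.funMap F
      (fun k => (⟨(w k).1, hex.choose_spec k⟩ : (G hex.choose).S))).1,
      Set.mem_iUnion.2 ⟨hex.choose, Subtype.property _⟩⟩ : (Un G).S) := dif_pos hex
  rw [h0]
  change (Structure.funMap F
      (fun k => (⟨(w k).1, hex.choose_spec k⟩ : (G hex.choose).S))).1 = _
  rcases le_total i hex.choose with hle | hle
  · exact (ch_fun hG F hle v _ h).symm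
  · exact ch_fun hG F hle _ v fun k => (h k).symm

theorem un_rel {n : ℕ} (R : L.Relations n) (i : ι) (v : Fin n → (G i).S)
    (w : Fin n → (Un G).S) (h : ∀ k, (w k).1 = (v k).1) :
    Structure.RelMap R w ↔ Structure.RelMap R v := by
  constructor
  · rintro ⟨j, hj, hr⟩
    rcases le_total i j with hle | hle
    · exact (ch_rel hG R hle v _ h).2 hr
    · exact (ch_rel hG R hle _ v fun k => (h k).symm).1 hr
  · intro hr
    have hw : ∀ k, (w k).1 ∈ (G i).S := fun k => by rw [h k]; exact (v k).2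
    refine ⟨i, hw, ?_⟩
    have : (fun k => (⟨(w k).1, hw k⟩ : (G i).S)) = v := by
      funext k; exact Subtype.ext (h k)
    rw [this]; exact hr

/-- the embedding into the union -/
noncomputable def inU (i : ι) : (G i).S ↪[L] (Un G).S where
  toFun x := ⟨x.1, Set.mem_iUnion.2 ⟨i, x.2⟩⟩
  inj' x y h := by
    have h1 : x.1 = y.1 := congrArg (fun z : (Un G).S => z.1) h
    exact Subtype.ext h1
  map_fun' F v := Subtype.ext (un_fun hG F i v _ fun _ => rfl).symm
  map_rel' R v := un_rel hG R i v _ fun _ => rfl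

end un

theorem kle_range {K : AEC L} {X Y Z : Type u} [L.Structure X] [L.Structure Y] [L.Structure Z]
    (f : X ↪[L] Z) (g : Y ↪[L] Z) (e : X ↪[L] Y) (he : K.emb e) (h : ∀ x, g (e x) = f x) :
    KLe K f.toHom.range g.toHom.range := by
  have hle : f.toHom.range ≤ g.toHom.range := by
    rintro _ ⟨x, rfl⟩; exact ⟨e x, h x⟩
  obtain ⟨mX, mY⟩ := K.emb_mem e he
  have hR := (K.emb_mem _ (K.emb_equiv f.equivRange mX)).2
  have h1 := K.emb_comp g.equivRange.toEmbedding (e.comp f.equivRange.symm.toEmbedding)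
    (K.emb_equiv _ mY) (K.emb_comp _ _ he (K.emb_equiv f.equivRange.symm hR))
  refine ⟨hle, ?_⟩
  convert h1 using 1
  ext z
  obtain ⟨x, rfl⟩ := f.equivRange.surjective z
  change f x = (g.equivRange (e (f.equivRange.symm (f.equivRange x)))).1
  rw [FirstOrder.Language.Equiv.symm_apply_apply, Embedding.equivRange_apply, h]

theorem le_un {ι : Type u} [LinearOrder ι] [Nonempty ι] {G : ι → Ps L W} {K : AEC L}
    (hG : ∀ i j, i ≤ j → Le K (G i) (G j)) (i : ι) : Le K (G i) (Un G) := by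
  refine ⟨inU hG i, fun _ => rfl, ?_⟩
  have hk : ∀ i j, i ≤ j → KLe K (inU hG i).toHom.range (inU hG j).toHom.range := by
    intro i j hij
    obtain ⟨e, h1, h2⟩ := hG i j hij
    exact kle_range _ _ e h2 fun x => Subtype.ext (h1 x)
  have h1 := kle_union (A := fun i => (inU hG i).toHom.range) (fun i j hij => (hk i j hij).1) hk i
  have h2 : (⨆ i, (inU hG i).toHom.range) = ⊤ := by
    rw [eq_top_iff]
    rintro ⟨x, hx⟩ -
    obtain ⟨j, hj⟩ := Set.mem_iUnion.1 hx
    exact (le_iSup (fun i => (inU hG i).toHom.range) j) ⟨⟨x, hj⟩, rfl⟩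
  rw [h2] at h1
  exact emb_of_range K _ _ (ksub_of_top h1) rfl

/-- extend a structure on a subset of `W` -/
theorem exists_step {K : AEC L} (p : Ps L W) (T : Type u) [L.Structure T] (g : p.S ↪[L] T)
    (hg : K.emb g) (hT : #T ≤ #(p.Sᶜ : Set W)) :
    ∃ q : Ps L W, Le K p q ∧ ∃ b : T ≃[L] q.S, ∀ x, (b (g x)).1 = x.1 := by
  classical
  obtain ⟨j⟩ := hT
  let c : T → W := fun t => if h : ∃ x, g x = t then h.choose.1 else (j t).1
  have c1 : ∀ x : p.S, c (g x) = x.1 := by
    intro x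
    have h : ∃ y, g y = g x := ⟨x, rfl⟩
    have h2 : c (g x) = h.choose.1 := dif_pos h
    rw [h2, g.injective h.choose_spec]
  have c2 : ∀ t, (¬ ∃ x, g x = t) → c t = (j t).1 := fun t h => dif_neg h
  have hc : Function.Injective c := by
    intro s t hst
    by_cases hs : ∃ x, g x = s
    · obtain ⟨x, rfl⟩ := hs
      by_cases ht : ∃ x, g x = t
      · obtain ⟨y, rfl⟩ := ht
        rw [c1, c1] at hst
        rw [Subtype.ext hst]
      · rw [c1, c2 t ht] at hst
        exact absurd (hst ▸ x.2) (j t).2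
    · by_cases ht : ∃ x, g x = t
      · obtain ⟨y, rfl⟩ := ht
        rw [c1, c2 s hs] at hst
        exact absurd (hst.symm ▸ y.2) (j s).2
      · rw [c2 s hs, c2 t ht] at hst
        exact j.injective (Subtype.ext hst)
  let e' : T ≃ Set.range c := Equiv.ofInjective c hc
  letI i' : L.Structure (Set.range c) := e'.inducedStructure (L := L)
  let b : T ≃[L] (Set.range c) := e'.inducedStructureEquiv
  have hb : ∀ x, (b (g x)).1 = x.1 := fun x => c1 x
  refine ⟨⟨Set.range c, i'⟩, ⟨b.toEmbedding.comp g, hb, ?_⟩, b, hb⟩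
  exact K.emb_comp _ _ (K.emb_equiv b (K.emb_mem _ hg).2) hg

theorem nice_of_comp {K : AEC L} {X Y Z : Type u} [L.Structure X] [L.Structure Y] [L.Structure Z]
    (g : Y ↪[L] Z) (f : X ↪[L] Y) (hg : K.emb g) (h : Nice K (g.comp f)) : Nice K f := by
  intro N' _ f' hf'
  obtain ⟨Q, iQ, a, b, h1, h2, h3⟩ := h N' f' hf'
  exact ⟨Q, iQ, a.comp g, b, K.emb_comp _ _ h1 hg, h2, h3⟩

theorem nice_pre {K : AEC L} {X Y Z : Type u} [L.Structure X] [L.Structure Y] [L.Structure Z]
    (a : X ≃[L] Y) (g : Y ↪[L] Z) (hY : K.mem Y) (h : Nice K (g.comp a.toEmbedding)) :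
    Nice K g := by
  intro N' _ f' hf'
  have hX := (K.emb_mem _ (K.emb_equiv a.symm hY)).2
  obtain ⟨Q, iQ, s, t, h1, h2, h3⟩ := h N' (f'.comp a.toEmbedding)
    (K.emb_comp _ _ hf' (K.emb_equiv a hX))
  refine ⟨Q, iQ, s, t, h1, h2, fun y => ?_⟩
  obtain ⟨x, rfl⟩ := a.surjective y
  exact h3 x

theorem nice_pre' {K : AEC L} {X Y Z : Type u} [L.Structure X] [L.Structure Y] [L.Structure Z]
    (a : X ≃[L] Y) (g : Y ↪[L] Z) (hY : K.mem Y) (h : Nice K g) :
    Nice K (g.comp a.toEmbedding) := by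
  intro N' _ f' hf'
  obtain ⟨Q, iQ, s, t, h1, h2, h3⟩ := h N' (f'.comp a.symm.toEmbedding)
    (K.emb_comp _ _ hf' (K.emb_equiv a.symm hY))
  refine ⟨Q, iQ, s, t, h1, h2, fun x => ?_⟩
  have := h3 (a x)
  change s (g (a x)) = t (f' (a.symm (a x))) at this
  rw [FirstOrder.Language.Equiv.symm_apply_apply] at this
  exact this

theorem exists_iso {X Y Z : Type u} [L.Structure X] [L.Structure Y] [L.Structure Z]
    (p : X ↪[L] Z) (q : Y ↪[L] Z) (h : Set.range p = Set.range q) :
    ∃ a : X ≃[L] Y, ∀ x, q (a x) = p x := by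
  have h1 : ∀ x, ∃ y, q y = p x := fun x => by
    have : p x ∈ Set.range q := h ▸ ⟨x, rfl⟩
    exact this
  have h2 : ∀ y, ∃ x, p x = q y := fun y => by
    have : q y ∈ Set.range p := h ▸ ⟨y, rfl⟩
    exact this
  choose a ha using h1
  choose b hb using h2
  refine ⟨⟨⟨a, b, fun x => p.injective ?_, fun y => q.injective ?_⟩, fun {n} F v => ?_,
    fun {n} R v => ?_⟩, ha⟩
  · rw [hb, ha]
  · rw [ha, hb]
  · apply q.injective
    change q (a (Structure.funMap F v)) = q (Structure.funMap F (a ∘ v))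
    rw [ha, q.map_fun, p.map_fun]
    congr 1
    funext k
    exact (ha (v k)).symm
  · change Structure.RelMap R (a ∘ v) ↔ Structure.RelMap R v
    rw [← q.map_rel, ← p.map_rel]
    have : q ∘ (a ∘ v) = p ∘ v := by
      funext k
      exact ha (v k)
    rw [this]

end Pool.Agent.U66.UP
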