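import Mathlib

set_option autoImplicit false
set_option linter.unusedSectionVars false

/-! Iterated ultrafilter quantifiers along finite sets of coordinates. -/

namespace Pool.Agent.U66.UP

open Cardinal

universe u v

variable {Λ I : Type u} [LinearOrder Λ] (U : Ultrafilter I)

/-- `P` depends only on the coordinates in `s` -/
def Sp {β : Type*} (s : Finset Λ) (P : (Λ → I) → β) : Prop :=
  ∀ x y : Λ → I, (∀ a ∈ s, x a = y a) → P x = P y

theorem Sp.mono {β : Type*} {s t : Finset Λ} {P : (Λ → I) → β} (h : Sp s P) (hst : s ⊆ t) :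
    Sp t P := fun x y hxy => h x y fun a ha => hxy a (hst ha)

/-- iterated ultrafilter quantifier -/
def Ev : List Λ → ((Λ → I) → Prop) → (Λ → I) → Prop
  | [], P, x => P x
  | a :: l, P, x => ∀ᶠ i in (U : Filter I), Ev l P (Function.update x a i)

theorem Ev_mono (l : List Λ) {P Q : (Λ → I) → Prop} (h : ∀ x, P x → Q x) :
    ∀ x, Ev U l P x → Ev U l Q x := by
  induction l with
  | nil => exact h
  | cons a l ih => intro x hx; exact hx.mono fun i hi => ih _ hi

theorem Ev_true (l : List Λ) {P : (Λ → I) → Prop} (h : ∀ x, P x) : ∀ x, Ev U l P x := by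
  induction l with
  | nil => exact h
  | cons a l ih => intro x; exact Filter.Eventually.of_forall fun i => ih _

theorem Ev_not (l : List Λ) (P : (Λ → I) → Prop) :
    ∀ x, Ev U l (fun y => ¬ P y) x ↔ ¬ Ev U l P x := by
  induction l with
  | nil => intro x; exact Iff.rfl
  | cons a l ih =>
    intro x
    simp only [Ev]
    rw [← Ultrafilter.eventually_not]
    simp only [ih]

theorem Ev_and (l : List Λ) (P Q : (Λ → I) → Prop) :
    ∀ x, Ev U l (fun y => P y ∧ Q y) x ↔ Ev U l P x ∧ Ev U l Q x := by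
  induction l with
  | nil => intro x; exact Iff.rfl
  | cons a l ih =>
    intro x
    simp only [Ev]
    rw [← Filter.eventually_and]
    simp only [ih]

theorem Ev_fin {n : ℕ} (l : List Λ) (P : Fin n → (Λ → I) → Prop) :
    ∀ x, Ev U l (fun y => ∀ j, P j y) x ↔ ∀ j, Ev U l (P j) x := by
  induction l with
  | nil => intro x; exact Iff.rfl
  | cons a l ih =>
    intro x
    simp only [Ev, ih]
    exact Filter.eventually_all

/-- intersections of at most `κ` members of `U` are members of `U` -/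
def Cpl (κ : Cardinal.{u}) : Prop :=
  ∀ (J : Type u), #J ≤ κ → ∀ A : J → Set I, (∀ j, A j ∈ U) → (⋂ j, A j) ∈ U

variable {U}

theorem Ev_all {κ : Cardinal.{u}} (hU : Cpl U κ) (l : List Λ) {J : Type u} (hJ : #J ≤ κ)
    (P : J → (Λ → I) → Prop) :
    ∀ x, Ev U l (fun y => ∀ j, P j y) x ↔ ∀ j, Ev U l (P j) x := by
  induction l with
  | nil => intro x; exact Iff.rfl
  | cons a l ih =>
    intro x
    simp only [Ev, ih]
    constructor
    · intro h j
      exact h.mono fun i hi => hi j
    · intro h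
      have := hU J hJ (fun j => {i | Ev U l (P j) (Function.update x a i)}) h
      filter_upwards [this] with i hi j
      exact Set.mem_iInter.1 hi j

variable (U)

theorem Ev_sp (l : List Λ) {s : Finset Λ} {P : (Λ → I) → Prop} (hP : Sp s P) :
    ∀ x y : Λ → I, (∀ a ∈ s, a ∉ l → x a = y a) → (Ev U l P x ↔ Ev U l P y) := by
  induction l with
  | nil => intro x y h; exact (hP x y fun a ha => h a ha (by simp)).to_iff
  | cons b l ih =>
    intro x y h
    simp only [Ev]
    have : ∀ i, Ev U l P (Function.update x b i) ↔ Ev U l P (Function.update y b i) := by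
      intro i
      apply ih
      intro a ha hal
      by_cases hab : a = b
      · subst hab; simp
      · rw [Function.update_of_ne hab, Function.update_of_ne hab]
        exact h a ha (by simp [hab, hal])
    simp only [this]

theorem Ev_filter (l : List Λ) {s : Finset Λ} {P : (Λ → I) → Prop} (hP : Sp s P) :
    ∀ x, Ev U l P x ↔ Ev U (l.filter (fun a => decide (a ∈ s))) P x := by
  induction l with
  | nil => intro x; simp
  | cons b l ih =>
    intro x
    by_cases hb : b ∈ s
    · rw [List.filter_cons_of_pos (by simpa using hb)]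
      simp only [Ev, ih]
    · rw [List.filter_cons_of_neg (by simpa using hb)]
      simp only [Ev, ih]
      have : ∀ i, Ev U (l.filter (fun a => decide (a ∈ s))) P (Function.update x b i) ↔
          Ev U (l.filter (fun a => decide (a ∈ s))) P x := by
        intro i
        apply Ev_sp U _ hP
        intro a ha _
        rw [Function.update_of_ne]
        rintro rfl; exact hb ha
      simp only [this]
      exact Filter.eventually_const

theorem sort_filter {s t : Finset Λ} (h : s ⊆ t) :
    ((t.sort (· ≤ ·)).filter (fun a => decide (a ∈ s))) = s.sort (· ≤ ·) := by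
  apply List.Perm.eq_of_pairwise (le := (· ≤ ·))
  · intro a b _ _ hab hba; exact le_antisymm hab hba
  · exact (Finset.pairwise_sort t (· ≤ ·)).filter _
  · exact Finset.pairwise_sort s (· ≤ ·)
  · apply (List.perm_ext_iff_of_nodup ((Finset.sort_nodup t _).filter _) (Finset.sort_nodup s _)).2
    intro a
    simp only [List.mem_filter, Finset.mem_sort, decide_eq_true_eq]
    exact ⟨fun h => h.2, fun ha => ⟨h ha, ha⟩⟩

/-- `P` holds almost everywhere -/
def E (P : (Λ → I) → Prop) : Prop :=
  ∃ s : Finset Λ, Sp s P ∧ ∀ x, Ev U (s.sort (· ≤ ·)) P x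

theorem E_iff {P : (Λ → I) → Prop} {s t : Finset Λ} (hP : Sp s P) (hst : s ⊆ t) (x : Λ → I) :
    E U P ↔ Ev U (t.sort (· ≤ ·)) P x := by
  have key : ∀ (s' t' : Finset Λ), Sp s' P → s' ⊆ t' → ∀ y z,
      (Ev U (t'.sort (· ≤ ·)) P y ↔ Ev U (s'.sort (· ≤ ·)) P z) := by
    intro s' t' hs' hst' y z
    rw [Ev_filter U _ hs', sort_filter hst']
    apply Ev_sp U _ hs'
    intro a ha hna
    exact absurd ((Finset.mem_sort _).2 ha) hna
  constructor
  · rintro ⟨r, hr, h⟩
    have h1 := (key r (r ∪ t) hr Finset.subset_union_left x x).2 (h x)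
    have h2 := (key s (r ∪ t) hP (hst.trans Finset.subset_union_right) x x).1 h1
    exact (key s t hP hst x x).2 h2
  · intro h
    refine ⟨t, hP.mono hst, fun y => ?_⟩
    exact (key s t hP hst y x).2 ((key s t hP hst x x).1 h)

section
variable {P Q : (Λ → I) → Prop} {s t : Finset Λ}

theorem Sp.not (h : Sp s P) : Sp s (fun x => ¬ P x) := fun x y hxy => by
  simp only [h x y hxy]

theorem Sp.and (h : Sp s P) (h' : Sp s Q) : Sp s (fun x => P x ∧ Q x) := fun x y hxy => by
  simp only [h x y hxy, h' x y hxy]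

theorem Sp.or (h : Sp s P) (h' : Sp s Q) : Sp s (fun x => P x ∨ Q x) := fun x y hxy => by
  simp only [h x y hxy, h' x y hxy]

theorem Sp.iff (h : Sp s P) (h' : Sp s Q) : Sp s (fun x => P x ↔ Q x) := fun x y hxy => by
  simp only [h x y hxy, h' x y hxy]

theorem Sp.all {J : Sort*} {P : J → (Λ → I) → Prop} (h : ∀ j, Sp s (P j)) :
    Sp s (fun x => ∀ j, P j x) := fun x y hxy => by
  simp only [fun j => h j x y hxy]

theorem Sp.ex {J : Sort*} {P : J → (Λ → I) → Prop} (h : ∀ j, Sp s (P j)) :
    Sp s (fun x => ∃ j, P j x) := fun x y hxy => by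
  simp only [fun j => h j x y hxy]

theorem Sp.const {β : Type*} (b : β) : Sp s (fun _ : Λ → I => b) := fun _ _ _ => rfl

end

section
variable [Nonempty I] {P Q : (Λ → I) → Prop} {s t : Finset Λ}

theorem E_not (hP : Sp s P) : E U (fun x => ¬ P x) ↔ ¬ E U P := by
  obtain ⟨x⟩ : Nonempty (Λ → I) := inferInstance
  rw [E_iff U hP.not subset_rfl x, E_iff U hP subset_rfl x, Ev_not]

theorem E_and (hP : Sp s P) (hQ : Sp s Q) : E U (fun x => P x ∧ Q x) ↔ E U P ∧ E U Q := by
  obtain ⟨x⟩ : Nonempty (Λ → I) := inferInstance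
  rw [E_iff U (hP.and hQ) subset_rfl x, E_iff U hP subset_rfl x, E_iff U hQ subset_rfl x, Ev_and]

theorem E_mono (hP : Sp s P) (hQ : Sp s Q) (h : ∀ x, P x → Q x) : E U P → E U Q := by
  obtain ⟨x⟩ : Nonempty (Λ → I) := inferInstance
  rw [E_iff U hP subset_rfl x, E_iff U hQ subset_rfl x]
  exact Ev_mono U _ h x

theorem E_true (hP : Sp s P) (h : ∀ x, P x) : E U P :=
  ⟨s, hP, fun x => Ev_true U _ h x⟩

theorem E_const (p : Prop) : E U (fun _ : Λ → I => p) ↔ p := by
  obtain ⟨x⟩ : Nonempty (Λ → I) := inferInstance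
  rw [E_iff U (s := ∅) (t := ∅) (Sp.const p) subset_rfl x]
  simp [Ev]

theorem E_all {κ : Cardinal.{u}} (hU : Cpl U κ) {J : Type u} (hJ : #J ≤ κ)
    {P : J → (Λ → I) → Prop} (hP : ∀ j, Sp s (P j)) :
    E U (fun x => ∀ j, P j x) ↔ ∀ j, E U (P j) := by
  obtain ⟨x⟩ : Nonempty (Λ → I) := inferInstance
  rw [E_iff U (Sp.all hP) subset_rfl x, Ev_all hU _ hJ]
  exact forall_congr' fun j => (E_iff U (hP j) subset_rfl x).symm

theorem E_fin {n : ℕ} {P : Fin n → (Λ → I) → Prop} (hP : ∀ j, ∃ t, Sp t (P j)) :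
    E U (fun x => ∀ j, P j x) ↔ ∀ j, E U (P j) := by
  choose t ht using hP
  have hP : ∀ j, Sp (Finset.univ.biUnion t) (P j) := fun j =>
    (ht j).mono (Finset.subset_biUnion_of_mem t (Finset.mem_univ j))
  obtain ⟨x⟩ : Nonempty (Λ → I) := inferInstance
  rw [E_iff U (Sp.all hP) subset_rfl x, Ev_fin U]
  exact forall_congr' fun j => (E_iff U (hP j) subset_rfl x).symm

theorem E_ex {κ : Cardinal.{u}} (hU : Cpl U κ) {J : Type u} (hJ : #J ≤ κ)
    {P : J → (Λ → I) → Prop} (hP : ∀ j, Sp s (P j)) :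
    E U (fun x => ∃ j, P j x) ↔ ∃ j, E U (P j) := by
  have h1 : (fun x : Λ → I => ∃ j, P j x) = fun x => ¬ ∀ j, ¬ P j x := by
    funext x; simp
  rw [h1, E_not U (Sp.all fun j => (hP j).not), E_all U hU hJ fun j => (hP j).not]
  simp only [fun j => E_not U (hP j)]
  simp

/-- `P` has almost everywhere its generic truth value -/
theorem E_dec (hP : Sp s P) : E U (fun x => P x ↔ E U P) := by
  by_cases h : E U P
  · refine E_mono U hP (hP.iff (Sp.const _)) ?_ h
    intro x hx; exact ⟨fun _ => h, fun _ => hx⟩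
  · refine E_mono U hP.not (hP.iff (Sp.const _)) ?_ ((E_not U hP).2 h)
    intro x hx; exact ⟨fun h' => absurd h' hx, fun h' => absurd h' h⟩

theorem E_exists (h : E U P) : ∃ x, P x := by
  obtain ⟨s, hs, -⟩ := id h
  by_contra hn
  push Not at hn
  have h1 := E_true U hs.not hn
  exact (E_not U hs).1 h1 h

theorem E_and' (hP : ∃ s, Sp s P) (hQ : ∃ s, Sp s Q) :
    E U (fun x => P x ∧ Q x) ↔ E U P ∧ E U Q := by
  obtain ⟨s, hs⟩ := hP
  obtain ⟨t, ht⟩ := hQ
  exact E_and U (s := s ∪ t) (hs.mono Finset.subset_union_left) (ht.mono Finset.subset_union_right)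

theorem E_mono' (hP : ∃ s, Sp s P) (hQ : ∃ s, Sp s Q) (h : ∀ x, P x → Q x) : E U P → E U Q := by
  obtain ⟨s, hs⟩ := hP
  obtain ⟨t, ht⟩ := hQ
  exact E_mono U (s := s ∪ t) (hs.mono Finset.subset_union_left)
    (ht.mono Finset.subset_union_right) h

end

end Pool.Agent.U66.UP
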