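import Pool.Agent.H288R4.LS.Stmts

set_option autoImplicit false
set_option linter.unusedSectionVars false

/-! Generalities on abstract elementary classes: unions of systems indexed by finite sets. -/

namespace Pool.Agent.U66.UP

open Cardinal FirstOrder FirstOrder.Language
open Pool.Agent.H288R4.LS (AEC)

universe u

variable {L : FirstOrder.Language.{u, u}} (K : AEC L)

section gen
variable {X Y : Type u} [L.Structure X] [L.Structure Y]

theorem emb_range (f : X ↪[L] Y) (h : K.emb f) : K.emb f.toHom.range.subtype := by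
  have hX := (K.emb_mem f h).1
  have h1 : K.emb (f.equivRange.symm.toEmbedding) :=
    K.emb_equiv _ (K.emb_mem _ (K.emb_equiv f.equivRange hX)).2
  have h3 : f.toHom.range.subtype = f.comp (f.equivRange.symm.toEmbedding) := by
    ext x
    obtain ⟨y, hy⟩ := f.equivRange.surjective x
    rw [← hy]
    change (f.equivRange y).1 = f (f.equivRange.symm (f.equivRange y))
    rw [FirstOrder.Language.Equiv.symm_apply_apply, Embedding.equivRange_apply]
  rw [h3]
  exact K.emb_comp _ _ h h1

theorem emb_of_range (f : X ↪[L] Y) (S : L.Substructure Y) (hS : K.emb S.subtype)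
    (hr : f.toHom.range = S) : K.emb f := by
  subst hr
  have hR := (K.emb_mem _ hS).1
  have hX := (K.emb_mem _ (K.emb_equiv f.equivRange.symm hR)).2
  have h3 : f = f.toHom.range.subtype.comp f.equivRange.toEmbedding := by
    ext x
    change f x = (f.equivRange x).1
    rw [Embedding.equivRange_apply]
  rw [h3]
  exact K.emb_comp _ _ hS (K.emb_equiv _ hX)

end gen

section sub
variable {N : Type u} [L.Structure N]

/-- `A` is a strong submodel of `B` -/
def KLe (A B : L.Substructure N) : Prop := ∃ h : A ≤ B, K.emb (Substructure.inclusion h)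

/-- `A` is a strong submodel of the whole structure -/
def KSub (A : L.Substructure N) : Prop := K.emb A.subtype

variable {K}

theorem KLe.trans {A B C : L.Substructure N} (h : KLe K A B) (h' : KLe K B C) : KLe K A C := by
  obtain ⟨h1, h2⟩ := h
  obtain ⟨h3, h4⟩ := h'
  exact ⟨h1.trans h3, K.emb_comp _ _ h4 h2⟩

theorem KLe.sub {A B : L.Substructure N} (h : KLe K A B) (h' : KSub K B) : KSub K A := by
  obtain ⟨h1, h2⟩ := h
  exact K.emb_comp _ _ h' h2

theorem KSub.le {A B : L.Substructure N} (h : KSub K A) (h' : KSub K B) (hAB : A ≤ B) :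
    KLe K A B :=
  ⟨hAB, K.coherence B.subtype (Substructure.inclusion hAB) h' h⟩

theorem KLe.coh {A B C : L.Substructure N} (h : KLe K A C) (h' : KLe K B C) (hAB : A ≤ B) :
    KLe K A B := by
  obtain ⟨h1, h2⟩ := h
  obtain ⟨h3, h4⟩ := h'
  exact ⟨hAB, K.coherence (Substructure.inclusion h3) (Substructure.inclusion hAB) h4 h2⟩

theorem kle_iff {A B : L.Substructure N} (h : A ≤ B) :
    KLe K A B ↔ K.emb (A.comap B.subtype.toHom : L.Substructure B).subtype := by
  have hr : (Substructure.inclusion h).toHom.range = A.comap B.subtype.toHom := by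
    ext x
    constructor
    · rintro ⟨y, rfl⟩
      exact y.2
    · intro hx
      exact ⟨⟨x.1, hx⟩, rfl⟩
  constructor
  · rintro ⟨h1, h2⟩
    rw [← hr]
    exact emb_range K _ h2
  · intro h2
    exact ⟨h, emb_of_range K _ _ h2 hr⟩

variable {ι : Type u} [LinearOrder ι] [Nonempty ι]

theorem kle_iSup {A : ι → L.Substructure N} (hA : Monotone A) {B : L.Substructure N}
    (h : ∀ i, KLe K (A i) B) : KLe K (⨆ i, A i) B := by
  have hle : (⨆ i, A i) ≤ B := iSup_le fun i => (h i).1
  rw [kle_iff hle]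
  have hm : Monotone (fun i => (A i).comap B.subtype.toHom) := fun i j hij x hx => hA hij hx
  have he : (⨆ i, A i).comap B.subtype.toHom = ⨆ i, (A i).comap B.subtype.toHom := by
    ext x
    rw [Substructure.mem_iSup_of_directed hm.directed_le]
    change x.1 ∈ (⨆ i, A i) ↔ _
    rw [Substructure.mem_iSup_of_directed hA.directed_le]
    rfl
  rw [he]
  exact K.chain_bound _ hm fun i => (kle_iff (h i).1).1 (h i)

theorem ksub_iSup {A : ι → L.Substructure N} (hA : Monotone A) (h : ∀ i, KSub K (A i)) :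
    KSub K (⨆ i, A i) := K.chain_bound _ hA h

theorem kle_union {A : ι → L.Substructure N} (hA : Monotone A)
    (h : ∀ i j, i ≤ j → KLe K (A i) (A j)) (i : ι) : KLe K (A i) (⨆ i, A i) :=
  ⟨le_iSup A i, K.chain_union A hA (fun i j hij => (h i j hij).2) i⟩

end sub

section sys
variable {N X : Type u} [L.Structure N] (A : Finset X → L.Substructure N)

/-- union of the members with index contained in `Y` -/
def AY (Y : Set X) : L.Substructure N := ⨆ s : {s : Finset X // (s : Set X) ⊆ Y}, A s.1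

variable {A}

theorem mem_AY (hA : Monotone A) {Y : Set X} {x : N} :
    x ∈ AY A Y ↔ ∃ s : Finset X, (s : Set X) ⊆ Y ∧ x ∈ A s := by
  have hd : Directed (· ≤ ·) (fun s : {s : Finset X // (s : Set X) ⊆ Y} => A s.1) := by
    classical
    rintro ⟨s, hs⟩ ⟨t, ht⟩
    exact ⟨⟨s ∪ t, by simp [hs, ht]⟩, hA Finset.subset_union_left, hA Finset.subset_union_right⟩
  have : Nonempty {s : Finset X // (s : Set X) ⊆ Y} := ⟨⟨∅, by simp⟩⟩
  unfold AY
  rw [Substructure.mem_iSup_of_directed hd]
  constructor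
  · rintro ⟨s, hs⟩; exact ⟨s.1, s.2, hs⟩
  · rintro ⟨s, h1, h2⟩; exact ⟨⟨s, h1⟩, h2⟩

theorem AY_mono (hA : Monotone A) {Y Z : Set X} (h : Y ⊆ Z) : AY A Y ≤ AY A Z := by
  intro x hx
  obtain ⟨s, h1, h2⟩ := (mem_AY hA).1 hx
  exact (mem_AY hA).2 ⟨s, h1.trans h, h2⟩

theorem AY_fin (hA : Monotone A) (s : Finset X) : AY A (s : Set X) = A s := by
  ext x
  rw [mem_AY hA]
  exact ⟨fun ⟨t, h1, h2⟩ => hA (Finset.coe_subset.1 h1) h2, fun h => ⟨s, subset_rfl, h⟩⟩

/-- presentation of an infinite set by a chain of smaller sets -/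
theorem exists_chain (Z : Set X) (hZ : Z.Infinite) : ∃ (o : LinearOrder Z) (C : Z → Set X),
    (∀ z z' : Z, z ≤ z' → C z ⊆ C z') ∧ (∀ z, C z ⊆ Z) ∧ (∀ z, #(C z) < #Z) ∧
    ∀ s : Finset X, (s : Set X) ⊆ Z → ∃ z, (s : Set X) ⊆ C z := by
  classical
  have hinf : ℵ₀ ≤ #Z := Cardinal.infinite_iff.1 hZ.to_subtype
  obtain ⟨r, hwo, hr⟩ := Cardinal.ord_eq Z
  letI o : LinearOrder Z := linearOrderOfSTO r
  have : Nonempty Z := hZ.nonempty.to_subtype
  refine ⟨o, fun z => {x | ∃ h : x ∈ Z, (⟨x, h⟩ : Z) ≤ z}, ?_, ?_, ?_, ?_⟩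
  · rintro z z' h x ⟨hx, hx'⟩
    exact ⟨hx, hx'.trans h⟩
  · rintro z x ⟨hx, -⟩; exact hx
  · intro z
    have h1 : #{x | ∃ h : x ∈ Z, (⟨x, h⟩ : Z) ≤ z} ≤ #{y : Z | r y z} + 1 := by
      have h2 : {x | ∃ h : x ∈ Z, (⟨x, h⟩ : Z) ≤ z} ⊆
          (Subtype.val '' {y : Z | r y z}) ∪ {z.1} := by
        rintro x ⟨hx, hx'⟩
        rcases hx'.lt_or_eq with h | h
        · exact Or.inl ⟨⟨x, hx⟩, h, rfl⟩
        · right
          rw [Set.mem_singleton_iff, ← h]
      refine (Cardinal.mk_le_mk_of_subset h2).trans ((Cardinal.mk_union_le _ _).trans ?_)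
      exact add_le_add Cardinal.mk_image_le (by rw [Cardinal.mk_singleton])
    refine h1.trans_lt (Cardinal.add_lt_of_lt hinf ?_ (Cardinal.one_lt_aleph0.trans_le hinf))
    have h3 := Cardinal.card_typein_lt z hr
    rw [Ordinal.card_typein] at h3
    exact h3
  · intro s hs
    rcases s.eq_empty_or_nonempty with h | h
    · subst h; exact ⟨Classical.arbitrary _, by simp⟩
    · let t : Finset Z := s.subtype (· ∈ Z)
      have ht : t.Nonempty := by
        obtain ⟨x, hx⟩ := h
        exact ⟨⟨x, hs hx⟩, by simp [t, hx]⟩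
      refine ⟨t.max' ht, fun x hx => ⟨hs hx, t.le_max' _ ?_⟩⟩
      simp only [t, Finset.mem_subtype]
      exact hx

variable {K}

theorem ksub_AY (hA : Monotone A) (h : ∀ s, KSub K (A s)) (Y : Set X) : KSub K (AY A Y) := by
  classical
  induction hc : #Y using WellFoundedLT.induction generalizing Y with
  | ind c ih =>
    by_cases hY : Y.Finite
    · obtain ⟨s, rfl⟩ := hY.exists_finset_coe
      rw [AY_fin hA]; exact h s
    · obtain ⟨o, C, h1, h2, h3, h4⟩ := exists_chain Y hY
      have : Nonempty Y := (Set.not_finite.1 hY |>.nonempty).to_subtype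
      have he : AY A Y = ⨆ z, AY A (C z) := by
        apply le_antisymm
        · intro x hx
          obtain ⟨s, hs, hx'⟩ := (mem_AY hA).1 hx
          obtain ⟨z, hz⟩ := h4 s hs
          exact (le_iSup (fun z => AY A (C z)) z) ((mem_AY hA).2 ⟨s, hz, hx'⟩)
        · exact iSup_le fun z => AY_mono hA (h2 z)
      rw [he]
      refine ksub_iSup (fun z z' hz => AY_mono hA (h1 z z' hz)) fun z => ?_
      exact ih _ (hc ▸ h3 z) _ rfl

theorem kle_AY (hA : Monotone A) (h : ∀ s t, s ⊆ t → KLe K (A s) (A t)) (Z : Set X) :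
    ∀ Y, Y ⊆ Z → KLe K (AY A Y) (AY A Z) := by
  classical
  induction hc : #Z using WellFoundedLT.induction generalizing Z with
  | ind c ih =>
    intro Y hYZ
    by_cases hZ : Z.Finite
    · obtain ⟨s, rfl⟩ := (hZ.subset hYZ).exists_finset_coe
      obtain ⟨t, rfl⟩ := hZ.exists_finset_coe
      rw [AY_fin hA, AY_fin hA]; exact h s t (Finset.coe_subset.1 hYZ)
    · obtain ⟨o, C, h1, h2, h3, h4⟩ := exists_chain Z hZ
      have : Nonempty Z := (Set.not_finite.1 hZ |>.nonempty).to_subtype
      have he : AY A Z = ⨆ z, AY A (C z) := by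
        apply le_antisymm
        · intro x hx
          obtain ⟨s, hs, hx'⟩ := (mem_AY hA).1 hx
          obtain ⟨z, hz⟩ := h4 s hs
          exact (le_iSup (fun z => AY A (C z)) z) ((mem_AY hA).2 ⟨s, hz, hx'⟩)
        · exact iSup_le fun z => AY_mono hA (h2 z)
      have he' : AY A Y = ⨆ z, AY A (Y ∩ C z) := by
        apply le_antisymm
        · intro x hx
          obtain ⟨s, hs, hx'⟩ := (mem_AY hA).1 hx
          obtain ⟨z, hz⟩ := h4 s (hs.trans hYZ)
          exact (le_iSup (fun z => AY A (Y ∩ C z)) z)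
            ((mem_AY hA).2 ⟨s, Set.subset_inter hs hz, hx'⟩)
        · exact iSup_le fun z => AY_mono hA Set.inter_subset_left
      have hB : ∀ z, KLe K (AY A (C z)) (AY A Z) := by
        intro z
        rw [he]
        exact kle_union (A := fun z => AY A (C z)) (fun z z' hz => AY_mono hA (h1 z z' hz))
          (fun i j hij => ih _ (hc ▸ h3 j) (C j) rfl (C i) (h1 i j hij)) z
      rw [he']
      refine kle_iSup (fun z z' hz => AY_mono hA
        (Set.inter_subset_inter_right _ (h1 z z' hz))) fun z => ?_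
      exact (ih _ (hc ▸ h3 z) (C z) rfl (Y ∩ C z) Set.inter_subset_right).trans (hB z)

/-- union of a system of strong submodels indexed by finite sets -/
theorem ksub_sys (hA : Monotone A) (h : ∀ s, KSub K (A s)) : KSub K (⨆ s, A s) := by
  have h1 := ksub_AY hA h Set.univ
  have : AY A Set.univ = ⨆ s, A s := by
    apply le_antisymm
    · exact iSup_le fun s => le_iSup A s.1
    · exact iSup_le fun s x hx => (mem_AY hA).2 ⟨s, Set.subset_univ _, hx⟩
  rwa [this] at h1

theorem kle_sys (hA : Monotone A) (h : ∀ s t, s ⊆ t → KLe K (A s) (A t)) (s : Finset X) :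
    KLe K (A s) (⨆ s, A s) := by
  have h1 := kle_AY hA h Set.univ (s : Set X) (Set.subset_univ _)
  have : AY A Set.univ = ⨆ s, A s := by
    apply le_antisymm
    · exact iSup_le fun s => le_iSup A s.1
    · exact iSup_le fun s x hx => (mem_AY hA).2 ⟨s, Set.subset_univ _, hx⟩
  rwa [this, AY_fin hA] at h1

end sys

end Pool.Agent.U66.UP
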