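import Pool.Agent.U66.UP.Ap

set_option autoImplicit false
set_option linter.unusedSectionVars false

/-! Transport of an abstract elementary class along a bijection of vocabularies. -/

namespace Pool.Agent.U66.UP

open Cardinal FirstOrder FirstOrder.Language
open Pool.Agent.H288R4.LS (AEC)

universe u

/-- a bijective renaming of symbols from `L₀` to `L` -/
structure Ren (L L₀ : FirstOrder.Language.{u, u}) where
  F : ∀ n, L.Functions n ≃ L₀.Functions n
  R : ∀ n, L.Relations n ≃ L₀.Relations n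

variable {L L₀ : FirstOrder.Language.{u, u}} (φ : Ren L L₀)

/-- the `L`-structure of an `L₀`-structure -/
@[reducible] def pl (M : Type u) (s : L₀.Structure M) : L.Structure M where
  funMap {n} F v := s.funMap (φ.F n F) v
  RelMap {n} R v := s.RelMap (φ.R n R) v

theorem pl_surj {M : Type u} (i : L.Structure M) : ∃ s : L₀.Structure M, pl φ M s = i := by
  refine ⟨{ funMap := fun {n} F v => i.funMap ((φ.F n).symm F) v
            RelMap := fun {n} R v => i.RelMap ((φ.R n).symm R) v }, ?_⟩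
  apply Structure.ext
  · funext n F v
    change i.funMap ((φ.F n).symm (φ.F n F)) v = i.funMap F v
    rw [Equiv.symm_apply_apply]
  · funext n R v
    change i.RelMap ((φ.R n).symm (φ.R n R)) v = i.RelMap R v
    rw [Equiv.symm_apply_apply]

/-- embeddings -/
def plE {M N : Type u} (s : L₀.Structure M) (t : L₀.Structure N) (f : M ↪[L₀] N) :
    @Embedding L M N (pl φ M s) (pl φ N t) :=
  letI := pl φ M s
  letI := pl φ N t
  { toFun := f
    inj' := f.injective
    map_fun' := fun {n} F v => f.map_fun (φ.F n F) v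
    map_rel' := fun {n} R v => f.map_rel (φ.R n R) v }

/-- embeddings, backwards -/
def upE {M N : Type u} (s : L₀.Structure M) (t : L₀.Structure N)
    (f : @Embedding L M N (pl φ M s) (pl φ N t)) : M ↪[L₀] N where
  toFun := f.toFun
  inj' := f.inj'
  map_fun' := fun {n} F v => by
    letI := pl φ M s
    letI := pl φ N t
    have := f.map_fun' ((φ.F n).symm F) v
    change f.toFun (s.funMap (φ.F n ((φ.F n).symm F)) v) =
      t.funMap (φ.F n ((φ.F n).symm F)) (f.toFun ∘ v) at this
    rwa [Equiv.apply_symm_apply] at this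
  map_rel' := fun {n} R v => by
    letI := pl φ M s
    letI := pl φ N t
    have := f.map_rel' ((φ.R n).symm R) v
    change t.RelMap (φ.R n ((φ.R n).symm R)) (f.toFun ∘ v) ↔
      s.RelMap (φ.R n ((φ.R n).symm R)) v at this
    rwa [Equiv.apply_symm_apply] at this

theorem plE_upE {M N : Type u} (s : L₀.Structure M) (t : L₀.Structure N)
    (f : @Embedding L M N (pl φ M s) (pl φ N t)) : plE φ s t (upE φ s t f) = f := rfl

/-- substructures -/
def plS {N : Type u} (s : L₀.Structure N) (A : L₀.Substructure N) :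
    @Substructure L N (pl φ N s) :=
  letI := pl φ N s
  { carrier := A.carrier
    fun_mem := fun {n} F => A.fun_mem (φ.F n F) }

/-- substructures, backwards -/
def upS {N : Type u} (s : L₀.Structure N) (A : @Substructure L N (pl φ N s)) :
    L₀.Substructure N where
  carrier := @Substructure.carrier L N (pl φ N s) A
  fun_mem := fun {n} F => by
    have := @Substructure.fun_mem L N (pl φ N s) A n ((φ.F n).symm F)
    intro x hx
    have h := this x hx
    change s.funMap (φ.F n ((φ.F n).symm F)) x ∈ @Substructure.carrier L N (pl φ N s) A at h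
    rwa [Equiv.apply_symm_apply] at h

theorem plS_iSup {N : Type u} (s : L₀.Structure N) {ι : Type u} [LinearOrder ι] [Nonempty ι]
    (A : ι → L₀.Substructure N) (hA : Monotone A) :
    plS φ s (⨆ i, A i) = letI := pl φ N s; ⨆ i, plS φ s (A i) := by
  letI := pl φ N s
  have hm : Monotone (fun i => plS φ s (A i)) := fun i j hij x hx => hA hij hx
  ext x
  change x ∈ (⨆ i, A i) ↔ x ∈ ⨆ i, plS φ s (A i)
  rw [Substructure.mem_iSup_of_directed hm.directed_le,
    Substructure.mem_iSup_of_directed hA.directed_le]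
  exact Iff.rfl

theorem Ren.card_eq (φ : Ren L L₀) : L.card = L₀.card := by
  have e : L.Symbols ≃ L₀.Symbols :=
    Equiv.sumCongr (Equiv.sigmaCongrRight φ.F) (Equiv.sigmaCongrRight φ.R)
  exact Cardinal.mk_congr e

theorem tr_ls {K : AEC L} {κ : Cardinal.{u}} (hκ : K.LSat κ) (N : Type u) [s : L₀.Structure N]
    (hN : @AEC.mem L K N (pl φ N s)) (X : Set N) : ∃ A : L₀.Substructure N, X ⊆ A ∧
      @AEC.emb L K A N (pl φ A inferInstance) (pl φ N s) (plE φ _ _ A.subtype) ∧
      #A ≤ #X + κ := by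
  letI i := pl φ N s
  obtain ⟨A, h1, h2, h3⟩ := hκ.2.2 N hN X
  exact ⟨upS φ s A, h1, h2, h3⟩

/-- the transported class -/
def tr (K : AEC L) : AEC L₀ where
  mem M s := @AEC.mem L K M (pl φ M s)
  emb {M N s t} f := @AEC.emb L K M N (pl φ M s) (pl φ N t) (plE φ s t f)
  emb_mem {M N s t} f h := @AEC.emb_mem L K M N (pl φ M s) (pl φ N t) (plE φ s t f) h
  emb_equiv {M N s t} e h := by
    letI := pl φ M s
    letI := pl φ N t
    let e' : M ≃[L] N :=
      { toEquiv := e.toEquiv
        map_fun' := fun {n} F v => e.map_fun (φ.F n F) v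
        map_rel' := fun {n} R v => e.map_rel (φ.R n R) v }
    exact K.emb_equiv e' h
  emb_comp {M N R s t r} g f hg hf := by
    letI := pl φ M s
    letI := pl φ N t
    letI := pl φ R r
    exact K.emb_comp (plE φ t r g) (plE φ s t f) hg hf
  coherence {M N R s t r} g f hg hgf := by
    letI := pl φ M s
    letI := pl φ N t
    letI := pl φ R r
    exact K.coherence (plE φ t r g) (plE φ s t f) hg hgf
  chain_union {N s ι _ _} A hA h i := by
    letI := pl φ N s
    have hm : Monotone (fun i => plS φ s (A i)) := fun i j hij x hx => hA hij hx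
    have h1 : KLe K (plS φ s (A i)) (⨆ i, plS φ s (A i)) :=
      kle_union (K := K) (A := fun i => plS φ s (A i)) hm
        (fun i j hij => ⟨hm hij, h i j hij⟩) i
    rw [← plS_iSup φ s A hA] at h1
    obtain ⟨h2, h3⟩ := h1
    exact h3
  chain_bound {N s ι _ _} A hA h := by
    letI := pl φ N s
    have hm : Monotone (fun i => plS φ s (A i)) := fun i j hij x hx => hA hij hx
    have h1 : KSub K (⨆ i, plS φ s (A i)) := ksub_iSup (K := K) hm h
    rw [← plS_iSup φ s A hA] at h1
    exact h1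
  ls := by
    obtain ⟨κ, hκ⟩ := K.ls
    exact ⟨κ, hκ.1, φ.card_eq ▸ hκ.2.1, fun N _ hN X => tr_ls φ hκ N hN X⟩

theorem tr_LSat {K : AEC L} {κ : Cardinal.{u}} (hκ : K.LSat κ) : (tr φ K).LSat κ :=
  ⟨hκ.1, φ.card_eq ▸ hκ.2.1, fun N _ hN X => tr_ls φ hκ N hN X⟩

theorem tr_wap {K : AEC L} {lam : Cardinal.{u}} : WAP (tr φ K) lam ↔ WAP K lam := by
  constructor
  · intro h M₀ M₁ M₂ i0 i1 i2 f₁ f₂ h1 h2 c0 c1 c2
    obtain ⟨s0, rfl⟩ := pl_surj φ i0
    obtain ⟨s1, rfl⟩ := pl_surj φ i1
    obtain ⟨s2, rfl⟩ := pl_surj φ i2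
    obtain ⟨N, iN, g₁, g₂, h3, h4, h5⟩ :=
      h M₀ M₁ M₂ (upE φ s0 s1 f₁) (upE φ s0 s2 f₂) h1 h2 c0 c1 c2
    exact ⟨N, pl φ N iN, plE φ s1 iN g₁, plE φ s2 iN g₂, h3, h4, h5⟩
  · intro h M₀ M₁ M₂ s0 s1 s2 f₁ f₂ h1 h2 c0 c1 c2
    obtain ⟨N, iN, g₁, g₂, h3, h4, h5⟩ := @h M₀ M₁ M₂ (pl φ M₀ s0) (pl φ M₁ s1) (pl φ M₂ s2)
      (plE φ s0 s1 f₁) (plE φ s0 s2 f₂) h1 h2 c0 c1 c2
    obtain ⟨t, rfl⟩ := pl_surj φ iN
    exact ⟨N, t, upE φ s1 t g₁, upE φ s2 t g₂, h3, h4, h5⟩

end Pool.Agent.U66.UP
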