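import Pool.Agent.U66.UP.Uq
import Pool.Agent.U66.UP.Tr

set_option autoImplicit false
set_option linter.unusedSectionVars false

/-! The Hanf number for amalgamation below a measurable cardinal. -/

namespace Pool.Agent.U66.UP

open Cardinal FirstOrder FirstOrder.Language
open Pool.Agent.H288R4.LS (AEC)

universe u

/-- languages with symbols from `J` -/
def LJ (J : Type u) (p : (ℕ → Set J) × (ℕ → Set J)) : FirstOrder.Language.{u, u} :=
  ⟨fun n => p.1 n, fun n => p.2 n⟩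

theorem exists_ren (J : Type u) (L : FirstOrder.Language.{u, u}) (hL : L.card ≤ #J) :
    ∃ p, Nonempty (Ren L (LJ J p)) := by
  have h1 : ∀ n, Nonempty (L.Functions n ↪ J) := fun n => (card_fun_le hL n)
  have h2 : ∀ n, Nonempty (L.Relations n ↪ J) := fun n => (card_rel_le hL n)
  refine ⟨(fun n => Set.range (h1 n).some, fun n => Set.range (h2 n).some),
    ⟨⟨fun n => Equiv.ofInjective _ (h1 n).some.injective,
      fun n => Equiv.ofInjective _ (h2 n).some.injective⟩⟩⟩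

/-- the Hanf number for amalgamation -/
theorem hanf_ap {κ χ : Cardinal.{u}} (hχ : Measurable χ) (h1 : κ < χ) :
    ∃ μ : Cardinal.{u}, χ ≤ μ ∧ ∀ (L : FirstOrder.Language.{u, u}) (K : AEC L), K.LSat κ →
      WAP K μ → ∀ ν, χ ≤ ν → WAP K ν := by
  obtain ⟨J, hJ⟩ : ∃ J : Type u, #J = κ := ⟨κ.out, Cardinal.mk_out κ⟩
  choose μ hμ1 hμ2 using fun p : (ℕ → Set J) × (ℕ → Set J) => bound_lang (LJ J p) hχ h1
  refine ⟨max χ (⨆ p, μ p), le_max_left _ _, fun L K hK hw ν hν => ?_⟩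
  obtain ⟨p, ⟨φ⟩⟩ := exists_ren J L (hJ ▸ hK.2.1)
  have hK' := tr_LSat φ hK
  have hle : μ p ≤ max χ (⨆ p, μ p) :=
    (le_ciSup (Cardinal.bddAbove_range μ) p).trans (le_max_right _ _)
  have h2 := transfer hK' hχ h1 (hμ1 p) hle ((tr_wap φ).2 hw)
  exact (tr_wap φ).1 (hμ2 p (tr φ K) hK' h2 ν hν)

end Pool.Agent.U66.UP
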