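import Pool.Agent.U66.UP.Pow
import Pool.Agent.U66.UP.Gen

set_option autoImplicit false
set_option linter.unusedSectionVars false

/-! Ultraproducts of small strong submodels. -/

namespace Pool.Agent.U66.UP

open Cardinal FirstOrder FirstOrder.Language
open Pool.Agent.H288R4.LS (AEC)

universe u

variable {L : FirstOrder.Language.{u, u}}

theorem equiv_of_diag {A B J : Type u} [L.Structure A] [L.Structure B] (a : J → A) (b : J → B)
    (ha : Function.Surjective a) (hb : Function.Surjective b)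
    (heq : ∀ i j, a i = a j ↔ b i = b j)
    (hfun : ∀ (n : ℕ) (F : L.Functions n) (v : Fin n → J) (j : J),
      Structure.funMap F (fun k => a (v k)) = a j ↔ Structure.funMap F (fun k => b (v k)) = b j)
    (hrel : ∀ (n : ℕ) (R : L.Relations n) (v : Fin n → J),
      Structure.RelMap R (fun k => a (v k)) ↔ Structure.RelMap R (fun k => b (v k))) :
    ∃ e : A ≃[L] B, ∀ j, e (a j) = b j := by
  let φ : A → B := fun y => b (Function.surjInv ha y)
  have hφ : ∀ j, φ (a j) = b j := fun j =>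
    (heq _ _).1 (Function.surjInv_eq ha (a j))
  have hbij : Function.Bijective φ := by
    constructor
    · intro y z h
      obtain ⟨i, rfl⟩ := ha y
      obtain ⟨j, rfl⟩ := ha z
      rw [hφ, hφ] at h
      exact (heq i j).2 h
    · intro y
      obtain ⟨j, rfl⟩ := hb y
      exact ⟨a j, hφ j⟩
  refine ⟨⟨Equiv.ofBijective φ hbij, ?_, ?_⟩, fun j => hφ j⟩
  · intro n F v
    choose w hw using fun k => ha (v k)
    have hv : v = fun k => a (w k) := by funext k; exact (hw k).symm
    subst hv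
    obtain ⟨j, hj⟩ := ha (Structure.funMap F fun k => a (w k))
    change φ (Structure.funMap F fun k => a (w k)) = Structure.funMap F fun k => φ (a (w k))
    simp only [hφ]
    rw [← hj, hφ]
    exact ((hfun n F w j).1 hj.symm).symm
  · intro n R v
    choose w hw using fun k => ha (v k)
    have hv : v = fun k => a (w k) := by funext k; exact (hw k).symm
    subst hv
    change (Structure.RelMap R fun k => φ (a (w k))) ↔ _
    simp only [hφ]
    exact (hrel n R w).symm

variable {Λ I : Type u} [LinearOrder Λ] [Nonempty I] (U : Ultrafilter I) {K : AEC L}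
  {M : Type u} [L.Structure M]

theorem card_fun_le {κ : Cardinal.{u}} (hL : L.card ≤ κ) (n : ℕ) : #(L.Functions n) ≤ κ := by
  refine le_trans ?_ hL
  exact Cardinal.mk_le_of_injective (f := fun F => (Sum.inl ⟨n, F⟩ : L.Symbols))
    (fun F G h => by simpa using h)

theorem card_rel_le {κ : Cardinal.{u}} (hL : L.card ≤ κ) (n : ℕ) : #(L.Relations n) ≤ κ := by
  refine le_trans ?_ hL
  exact Cardinal.mk_le_of_injective (f := fun F => (Sum.inr ⟨n, F⟩ : L.Symbols))
    (fun F G h => by simpa using h)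

theorem card_tup_le {κ : Cardinal.{u}} (h0 : ℵ₀ ≤ κ) {J : Type u} (hJ : #J ≤ κ) (n : ℕ) :
    #(Fin n → J) ≤ κ := by
  have : #(Fin n → J) = #J ^ n := by simp
  rw [this]
  exact (Cardinal.power_nat_le_max).trans (max_le hJ h0)

theorem key {κ : Cardinal.{u}} (h0 : ℵ₀ ≤ κ) (hL : L.card ≤ κ) (hU : Cpl U κ)
    {H H' : (Λ → I) → L.Substructure M} (hH : ∃ s : Finset Λ, Sp s H)
    (hH' : ∃ s : Finset Λ, Sp s H') (hne : ∀ x, (H' x : Set M).Nonempty)
    (hcard : ∀ x, #(H' x) ≤ κ) (hK : ∀ x, KLe K (H x) (H' x)) :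
    KLe K (pw U H hH) (pw U H' hH') := by
  classical
  obtain ⟨J, hJ⟩ : ∃ J : Type u, #J = κ := ⟨κ.out, Cardinal.mk_out κ⟩
  have hJne : Nonempty J := by
    rw [← Cardinal.mk_ne_zero_iff, hJ]
    exact (Cardinal.aleph0_pos.trans_le h0).ne'
  obtain ⟨x₀⟩ : Nonempty (Λ → I) := inferInstance
  obtain ⟨m₀, -⟩ := hne x₀
  have hen : ∀ B : L.Substructure M, ∃ e : J → M, (B : Set M).Nonempty → #B ≤ κ →
      Set.range e = (B : Set M) := by
    intro B
    by_cases hB : (B : Set M).Nonempty ∧ #B ≤ κ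
    · have h1 : #B ≤ #J := hJ ▸ hB.2
      obtain ⟨f⟩ := h1
      have : Nonempty B := hB.1.to_subtype
      refine ⟨fun j => (Function.invFun f j : B).1, fun _ _ => ?_⟩
      ext y
      constructor
      · rintro ⟨j, rfl⟩; exact (Function.invFun f j : B).2
      · intro hy
        exact ⟨f ⟨y, hy⟩, by simp [Function.leftInverse_invFun f.injective ⟨y, hy⟩]⟩
    · exact ⟨fun _ => m₀, fun h1 h2 => absurd ⟨h1, h2⟩ hB⟩
  choose en hen using hen
  have hr : ∀ x, Set.range (en (H' x)) = (H' x : Set M) := fun x => hen _ (hne x) (hcard x)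
  obtain ⟨s1, hs1⟩ := id hH
  obtain ⟨s2, hs2⟩ := id hH'
  let s := s1 ∪ s2
  have hsH : Sp s H := hs1.mono Finset.subset_union_left
  have hsH' : Sp s H' := hs2.mono Finset.subset_union_right
  have hsg : ∀ j, Sp s (fun x => en (H' x) j) := fun j x y hxy => by
    simp only [hsH' x y hxy]
  let g : J → FS Λ I M := fun j => ⟨fun x => en (H' x) j, s, hsg j⟩
  have hgs : ∀ j, Sp s (g j).1 := hsg
  -- atomic conditions
  have hP1 : ∀ i j, Sp s (fun x => (g i).1 x = (g j).1 x) := fun i j x y hxy => by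
    simp only [hgs i x y hxy, hgs j x y hxy]
  have hP2 : ∀ (n : ℕ) (F : L.Functions n) (v : Fin n → J) (j : J),
      Sp s (fun x => Structure.funMap F (fun k => (g (v k)).1 x) = (g j).1 x) :=
    fun n F v j x y hxy => by
      simp only [fun k => hgs k x y hxy]
  have hP3 : ∀ (n : ℕ) (R : L.Relations n) (v : Fin n → J),
      Sp s (fun x => Structure.RelMap R (fun k => (g (v k)).1 x)) :=
    fun n F v x y hxy => by
      simp only [fun k => hgs k x y hxy]
  have hP4 : ∀ j, Sp s (fun x => (g j).1 x ∈ H x) := fun j x y hxy => by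
    simp only
    rw [hgs j x y hxy, hsH x y hxy]
  have hN : #(ULift.{u} ℕ) ≤ κ := by simpa using h0
  have hJκ : #J ≤ κ := hJ.le
  have c1 : E U (fun x : Λ → I => ∀ i j, ((g i).1 x = (g j).1 x ↔
      E U (fun x => (g i).1 x = (g j).1 x))) := by
    refine (E_all U hU hJκ (s := s) fun i => Sp.all fun j => (hP1 i j).iff (Sp.const _)).2
      fun i => ?_
    exact (E_all U hU hJκ (s := s) fun j => (hP1 i j).iff (Sp.const _)).2
      fun j => E_dec U (hP1 i j)
  have c2 : E U (fun x : Λ → I => ∀ (n : ULift.{u} ℕ) (F : L.Functions n.down)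
      (v : Fin n.down → J) (j : J),
      (Structure.funMap F (fun k => (g (v k)).1 x) = (g j).1 x ↔
      E U (fun x => Structure.funMap F (fun k => (g (v k)).1 x) = (g j).1 x))) := by
    refine (E_all U hU hN (s := s) fun n => Sp.all fun F => Sp.all fun v => Sp.all fun j =>
      (hP2 n.down F v j).iff (Sp.const _)).2 fun n => ?_
    refine (E_all U hU (card_fun_le hL _) (s := s) fun F => Sp.all fun v => Sp.all fun j =>
      (hP2 n.down F v j).iff (Sp.const _)).2 fun F => ?_
    refine (E_all U hU (card_tup_le h0 hJκ _) (s := s) fun v => Sp.all fun j =>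
      (hP2 n.down F v j).iff (Sp.const _)).2 fun v => ?_
    exact (E_all U hU hJκ (s := s) fun j => (hP2 n.down F v j).iff (Sp.const _)).2
      fun j => E_dec U (hP2 n.down F v j)
  have c3 : E U (fun x : Λ → I => ∀ (n : ULift.{u} ℕ) (R : L.Relations n.down)
      (v : Fin n.down → J),
      (Structure.RelMap R (fun k => (g (v k)).1 x) ↔
      E U (fun x => Structure.RelMap R (fun k => (g (v k)).1 x)))) := by
    refine (E_all U hU hN (s := s) fun n => Sp.all fun F => Sp.all fun v =>
      (hP3 n.down F v).iff (Sp.const _)).2 fun n => ?_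
    refine (E_all U hU (card_rel_le hL _) (s := s) fun F => Sp.all fun v =>
      (hP3 n.down F v).iff (Sp.const _)).2 fun F => ?_
    exact (E_all U hU (card_tup_le h0 hJκ _) (s := s) fun v =>
      (hP3 n.down F v).iff (Sp.const _)).2 fun v => E_dec U (hP3 n.down F v)
  have c4 : E U (fun x : Λ → I => ∀ j, ((g j).1 x ∈ H x ↔
      E U (fun x => (g j).1 x ∈ H x))) :=
    (E_all U hU hJκ (s := s) fun j => (hP4 j).iff (Sp.const _)).2 fun j => E_dec U (hP4 j)
  have hc1 : Sp s (fun x : Λ → I => ∀ i j, ((g i).1 x = (g j).1 x ↔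
      E U (fun x => (g i).1 x = (g j).1 x))) :=
    Sp.all fun i => Sp.all fun j => (hP1 i j).iff (Sp.const _)
  have hc2 : Sp s (fun x : Λ → I => ∀ (n : ULift.{u} ℕ) (F : L.Functions n.down)
      (v : Fin n.down → J) (j : J),
      (Structure.funMap F (fun k => (g (v k)).1 x) = (g j).1 x ↔
      E U (fun x => Structure.funMap F (fun k => (g (v k)).1 x) = (g j).1 x))) :=
    Sp.all fun n => Sp.all fun F => Sp.all fun v => Sp.all fun j =>
      (hP2 n.down F v j).iff (Sp.const _)
  have hc3 : Sp s (fun x : Λ → I => ∀ (n : ULift.{u} ℕ) (R : L.Relations n.down)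
      (v : Fin n.down → J),
      (Structure.RelMap R (fun k => (g (v k)).1 x) ↔
      E U (fun x => Structure.RelMap R (fun k => (g (v k)).1 x)))) :=
    Sp.all fun n => Sp.all fun F => Sp.all fun v => (hP3 n.down F v).iff (Sp.const _)
  have hc4 : Sp s (fun x : Λ → I => ∀ j, ((g j).1 x ∈ H x ↔
      E U (fun x => (g j).1 x ∈ H x))) := Sp.all fun j => (hP4 j).iff (Sp.const _)
  obtain ⟨x₁, d1, d2, d3, d4⟩ := E_exists U ((E_and U hc1 (hc2.and (hc3.and hc4))).2
    ⟨c1, (E_and U hc2 (hc3.and hc4)).2 ⟨c2, (E_and U hc3 hc4).2 ⟨c3, c4⟩⟩⟩)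
  have hle : pw U H hH ≤ pw U H' hH' := pw_mono U fun x => (hK x).1
  have hgm : ∀ x j, (g j).1 x ∈ H' x := fun x j => by
    have : en (H' x) j ∈ Set.range (en (H' x)) := ⟨j, rfl⟩
    rw [hr x] at this
    exact this
  have hgE : ∀ j, mk U (g j) ∈ pw U H' hH' := fun j => by
    rw [mk_mem_pw]
    obtain ⟨t, ht⟩ := sp_mem H' hH' (g j)
    exact E_true U ht fun x => hgm x j
  let a : J → H' x₁ := fun j => ⟨(g j).1 x₁, hgm x₁ j⟩
  let b : J → pw U H' hH' := fun j => ⟨mk U (g j), hgE j⟩
  have hsa : Function.Surjective a := by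
    rintro ⟨y, hy⟩
    have : y ∈ Set.range (en (H' x₁)) := by rw [hr x₁]; exact hy
    obtain ⟨j, hj⟩ := this
    exact ⟨j, Subtype.ext hj⟩
  have hsb0 : ∀ f : FS Λ I M, (mk U f : Pw U Λ M) ∈ pw U H' hH' → ∃ j, mk U f = mk U (g j) := by
    intro f hf
    rw [mk_mem_pw] at hf
    obtain ⟨t, ht⟩ := f.2
    have hfs : ∀ j, Sp (t ∪ s) (fun x => f.1 x = (g j).1 x) := fun j x y hxy => by
      simp only
      rw [ht x y fun a ha => hxy a (Finset.mem_union_left _ ha),
        hgs j x y fun a ha => hxy a (Finset.mem_union_right _ ha)]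
    have h1 : E U (fun x => ∃ j, f.1 x = (g j).1 x) := by
      refine E_mono' U (sp_mem H' hH' f) ⟨_, Sp.ex hfs⟩ ?_ hf
      intro x hx
      have : f.1 x ∈ Set.range (en (H' x)) := by rw [hr x]; exact hx
      obtain ⟨j, hj⟩ := this
      exact ⟨j, hj.symm⟩
    obtain ⟨j, hj⟩ := (E_ex U hU hJκ hfs).1 h1
    exact ⟨j, (mk_eq U).2 hj⟩
  have hsb : Function.Surjective b := by
    rintro ⟨q, hq⟩
    obtain ⟨f, rfl⟩ := mk_surj U q
    obtain ⟨j, hj⟩ := hsb0 f hq
    exact ⟨j, Subtype.ext hj.symm⟩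
  obtain ⟨e, he⟩ := equiv_of_diag (L := L) a b hsa hsb
    (by
      intro i j
      rw [Subtype.ext_iff, Subtype.ext_iff]
      change (g i).1 x₁ = (g j).1 x₁ ↔ mk U (g i) = mk U (g j)
      rw [mk_eq]
      exact d1 i j)
    (by
      intro n F v j
      rw [Subtype.ext_iff, Subtype.ext_iff]
      change Structure.funMap F (fun k => (g (v k)).1 x₁) = (g j).1 x₁ ↔
        (Structure.funMap F (fun k => (mk U (g (v k)) : Pw U Λ M)) : Pw U Λ M) = mk U (g j)
      rw [fun_mk, mk_eq]
      exact d2 ⟨n⟩ F v j)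
    (by
      intro n R v
      change Structure.RelMap R (fun k => (g (v k)).1 x₁) ↔
        Structure.RelMap R (fun k => (mk U (g (v k)) : Pw U Λ M))
      rw [rel_mk]
      exact d3 ⟨n⟩ R v)
  rw [kle_iff hle]
  obtain ⟨hle1, hemb⟩ := hK x₁
  have h3 := K.emb_comp _ _ (K.emb_equiv e (K.emb_mem _ hemb).2) hemb
  have h4 := emb_range K _ h3
  · have : (pw U H hH).comap (pw U H' hH').subtype.toHom =
        (e.toEmbedding.comp (Substructure.inclusion hle1)).toHom.range := by
      ext y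
      constructor
      · intro hy
        obtain ⟨j, rfl⟩ := hsb y
        have hy' : mk U (g j) ∈ pw U H hH := hy
        rw [mk_mem_pw] at hy'
        have hj := (d4 j).2 hy'
        exact ⟨⟨(g j).1 x₁, hj⟩, he j⟩
      · rintro ⟨z, rfl⟩
        obtain ⟨j, hj⟩ := hsa ⟨z.1, hle1 z.2⟩
        have h5 : e (⟨z.1, hle1 z.2⟩ : H' x₁) = b j := by rw [← hj, he]
        change (e (⟨z.1, hle1 z.2⟩ : H' x₁)).1 ∈ pw U H hH
        rw [h5]
        change mk U (g j) ∈ pw U H hH
        rw [mk_mem_pw]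
        refine (d4 j).1 ?_
        have h6 : (g j).1 x₁ = z.1 := congrArg Subtype.val hj
        rw [h6]; exact z.2
    rw [this]; exact h4

end Pool.Agent.U66.UP
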