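import Pool.Agent.U66.UP.Gen

set_option autoImplicit false
set_option linter.unusedSectionVars false

/-! Systems of small strong submodels indexed by finite sets. -/

namespace Pool.Agent.U66.UP

open Cardinal FirstOrder FirstOrder.Language
open Pool.Agent.H288R4.LS (AEC)

universe u

variable {L : FirstOrder.Language.{u, u}} {K : AEC L} {M : Type u} [L.Structure M]

/-- small submodels indexed by finite sets -/
noncomputable def sk (ch : Set M → L.Substructure M) (G : Finset M → Set M) (s : Finset M) :
    L.Substructure M :=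
  ch ((s : Set M) ∪ G s ∪ ⋃ t : {t : Finset M // t ⊂ s}, (sk ch G t.1 : Set M))
termination_by s.card
decreasing_by exact Finset.card_lt_card t.2

theorem exists_sk {κ : Cardinal.{u}} (hκ : K.LSat κ) (hM : K.mem M) (G : Finset M → Set M)
    (hG : ∀ s, #(G s) ≤ κ) :
    ∃ h : Finset M → L.Substructure M, Monotone h ∧ (∀ s : Finset M, (s : Set M) ⊆ h s) ∧
      (∀ s : Finset M, G s ⊆ h s) ∧ (∀ s, KSub K (h s)) ∧ ∀ s, #(h s) ≤ κ := by
  classical
  choose ch h1 h2 h3 using hκ.2.2 M hM
  have h0 := hκ.1
  have hsub : ∀ s : Finset M, ((s : Set M) ∪ G s ∪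
      ⋃ t : {t : Finset M // t ⊂ s}, (sk ch G t.1 : Set M)) ⊆ sk ch G s := by
    intro s
    conv_rhs => rw [sk]
    exact h1 _
  refine ⟨sk ch G, ?_, ?_, ?_, ?_, ?_⟩
  · intro s t hst
    rcases eq_or_ssubset_of_subset hst with h | h
    · rw [h]
    · intro x hx
      exact hsub t (Or.inr (Set.mem_iUnion.2 ⟨⟨s, h⟩, hx⟩))
  · intro s x hx
    exact hsub s (Or.inl (Or.inl hx))
  · intro s x hx
    exact hsub s (Or.inl (Or.inr hx))
  · intro s
    rw [sk]
    exact h2 _
  · intro s
    induction s using Finset.strongInduction with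
    | H s ih =>
      rw [sk]
      refine (h3 _).trans ?_
      refine Cardinal.add_le_of_le h0 ?_ le_rfl
      refine (Cardinal.mk_union_le _ _).trans (Cardinal.add_le_of_le h0 ?_ ?_)
      · refine (Cardinal.mk_union_le _ _).trans (Cardinal.add_le_of_le h0 ?_ (hG s))
        exact (Cardinal.lt_aleph0_of_finite _).le.trans h0
      · refine (Cardinal.mk_iUnion_le _).trans ?_
        refine Cardinal.mul_le_of_le h0 ?_ ?_
        · have : Finite {t : Finset M // t ⊂ s} :=
            Set.Finite.subset (s.powerset.finite_toSet) (fun t ht => by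
              simpa using (show t ⊂ s from ht).subset)
          exact (Cardinal.lt_aleph0_of_finite _).le.trans h0
        · exact ciSup_le' fun t => ih t.1 t.2

end Pool.Agent.U66.UP
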