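import Pool.Agent.U66.UP.Key
import Pool.Agent.U66.UP.Sk

set_option autoImplicit false
set_option linter.unusedSectionVars false

/-! Abstract elementary classes and limit ultrapowers. -/

namespace Pool.Agent.U66.UP

open Cardinal FirstOrder FirstOrder.Language
open Pool.Agent.H288R4.LS (AEC)

universe u

variable {L : FirstOrder.Language.{u, u}} {Λ I : Type u} [LinearOrder Λ] [Nonempty I]
  (U : Ultrafilter I) {K : AEC L}

section one
variable {N : Type u} [L.Structure N]

open Classical in
/-- the finite set of values -/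
noncomputable def ev (t : Finset (FS Λ I N)) (x : Λ → I) : Finset N := t.image fun g => g.1 x

theorem ev_sp (t : Finset (FS Λ I N)) : ∃ s : Finset Λ, Sp s (ev t) := by
  classical
  choose sg hsg using fun g : FS Λ I N => g.2
  refine ⟨t.biUnion sg, fun x y hxy => ?_⟩
  unfold ev
  apply Finset.image_congr
  intro g hg
  exact hsg g x y fun a ha => hxy a (Finset.mem_biUnion.2 ⟨g, hg, ha⟩)

theorem ev_mono {s t : Finset (FS Λ I N)} (h : s ⊆ t) (x : Λ → I) : ev s x ⊆ ev t x := by
  classical
  exact Finset.image_subset_image h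

theorem sp_comp {β γ : Type*} {F : (Λ → I) → β} (h : ∃ s : Finset Λ, Sp s F) (G : β → γ) :
    ∃ s : Finset Λ, Sp s (fun x => G (F x)) := by
  obtain ⟨s, hs⟩ := h
  exact ⟨s, fun x y hxy => by simp only [hs x y hxy]⟩

/-- the system of small submodels of the ultrapower -/
noncomputable def Asys (h : Finset N → L.Substructure N) (t : Finset (FS Λ I N)) :
    L.Substructure (Pw U Λ N) := pw U (fun x => h (ev t x)) (sp_comp (ev_sp t) h)

theorem Asys_mono {h : Finset N → L.Substructure N} (hm : Monotone h) :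
    Monotone (Asys (Λ := Λ) U h) := fun _ _ hst => pw_mono U fun x => hm (ev_mono hst x)

theorem Asys_top {h : Finset N → L.Substructure N} (hs : ∀ s : Finset N, (s : Set N) ⊆ h s) :
    (⨆ t, Asys (Λ := Λ) U h t) = ⊤ := by
  classical
  rw [eq_top_iff]
  intro q _
  obtain ⟨g, rfl⟩ := mk_surj U q
  refine (le_iSup (Asys (Λ := Λ) U h) {g}) ?_
  refine (mk_mem_pw U).2 ?_
  obtain ⟨s, hs'⟩ := sp_mem (fun x => h (ev {g} x)) (sp_comp (ev_sp {g}) h) g
  refine E_true U hs' fun x => hs _ ?_
  simp [ev]

theorem ksub_of_top {A : L.Substructure N} (h : KLe K A ⊤) : KSub K A := by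
  obtain ⟨h1, h2⟩ := h
  have h3 := K.emb_comp (Substructure.topEquiv (L := L) (M := N)).toEmbedding _
    (K.emb_equiv _ (K.emb_mem _ h2).2) h2
  exact h3

variable {κ : Cardinal.{u}} (hκ : K.LSat κ) (hU : Cpl U κ)
include hκ hU

theorem Asys_sub {h : Finset N → L.Substructure N} (hm : Monotone h)
    (hs : ∀ s : Finset N, (s : Set N) ⊆ h s) (hne : ∀ s, (h s : Set N).Nonempty)
    (hk : ∀ s, KSub K (h s)) (hc : ∀ s, #(h s) ≤ κ) (t : Finset (FS Λ I N)) :
    KSub K (Asys U h t) := by
  apply ksub_of_top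
  rw [← Asys_top U hs]
  refine kle_sys (Asys_mono U hm) (fun s t hst => ?_) t
  exact key U hκ.1 hκ.2.1 hU _ _ (fun x => hne _) (fun x => hc _)
    fun x => KSub.le (hk _) (hk _) (hm (ev_mono hst x))

theorem emb_dg (hN : K.mem N) (n₀ : N) : K.emb (dg (L := L) U Λ N) := by
  classical
  obtain ⟨h, hm, hs, hG, hk, hc⟩ := exists_sk hκ hN (fun _ => {n₀})
    (fun s => by
      rw [Cardinal.mk_singleton]
      exact Cardinal.one_le_aleph0.trans hκ.1)
  have hne : ∀ s, (h s : Set N).Nonempty := fun s => ⟨n₀, hG s rfl⟩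
  have h0 := Asys_sub (Λ := Λ) U hκ hU hm hs hne hk hc
  have h1 : ∀ u : Finset N, KSub K ((h u).map (dg (L := L) U Λ N).toHom) := by
    intro u
    have h2 : (h u).map (dg (L := L) U Λ N).toHom = Asys U h (u.image (cst Λ I)) := by
      have hev : ∀ x, ev (u.image (cst Λ I)) x = u := by
        intro x
        ext y
        simp only [ev, Finset.mem_image]
        constructor
        · rintro ⟨g, ⟨z, hz, rfl⟩, rfl⟩; exact hz
        · intro hy; exact ⟨_, ⟨y, hy, rfl⟩, rfl⟩
      ext q
      constructor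
      · rintro ⟨n, hn, rfl⟩
        refine (mk_mem_pw U (g := cst Λ I n)).2 ?_
        obtain ⟨s, hs'⟩ := sp_mem (fun x => h (ev (u.image (cst Λ I)) x))
          (sp_comp (ev_sp (u.image (cst Λ I))) h) (cst Λ I n)
        refine E_true U hs' fun x => ?_
        rw [hev x]
        exact hn
      · intro hq
        obtain ⟨g, rfl⟩ := mk_surj U q
        have hq' := (mk_mem_pw U).1 hq
        obtain ⟨s, hsg⟩ := id g.2
        have hP : ∀ n : h u, Sp s (fun x => g.1 x = n.1) := fun n x y hxy => by
          simp only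
          rw [hsg x y hxy]
        have h3 : E U (fun x => ∃ n : h u, g.1 x = n.1) := by
          refine E_mono' U (sp_mem _ (sp_comp (ev_sp (u.image (cst Λ I))) h) g) ⟨s, Sp.ex hP⟩
            ?_ hq'
          intro x hx
          rw [hev x] at hx
          exact ⟨⟨_, hx⟩, rfl⟩
        obtain ⟨n, hn⟩ := (E_ex U hU (hc u) hP).1 h3
        refine ⟨n.1, n.2, ?_⟩
        exact ((mk_eq U).2 hn).symm
    rw [h2]
    exact h0 _
  have h4 := ksub_sys (K := K) (A := fun u => (h u).map (dg (L := L) U Λ N).toHom)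
    (fun s t hst => Substructure.monotone_map (hm hst)) h1
  refine emb_of_range K _ _ h4 ?_
  ext q
  constructor
  · rintro ⟨n, rfl⟩
    refine (le_iSup (fun u => (h u).map (dg (L := L) U Λ N).toHom) {n}) ?_
    exact ⟨n, hs {n} (by simp), rfl⟩
  · intro hq
    have : (⨆ u, (h u).map (dg (L := L) U Λ N).toHom) ≤ (dg (L := L) U Λ N).toHom.range := by
      refine iSup_le fun u => ?_
      rintro _ ⟨n, -, rfl⟩
      exact ⟨n, rfl⟩
    exact this hq

end one

section two
variable {M N : Type u} [L.Structure M] [L.Structure N]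
variable {κ : Cardinal.{u}} (hκ : K.LSat κ) (hU : Cpl U κ)
include hκ hU

theorem emb_pmap (f : M ↪[L] N) (hf : K.emb f) (m₀ : M) : K.emb (pmap (Λ := Λ) U f) := by
  classical
  obtain ⟨hM, hN⟩ := K.emb_mem f hf
  have : Nonempty M := ⟨m₀⟩
  obtain ⟨h, hm, hs, hG, hk, hc⟩ := exists_sk hκ hM (fun _ => {m₀})
    (fun s => by
      rw [Cardinal.mk_singleton]
      exact Cardinal.one_le_aleph0.trans hκ.1)
  obtain ⟨h', hm', hs', hG', hk', hc'⟩ := exists_sk hκ hN
    (fun s => f '' (h (s.preimage f f.injective.injOn) : Set M))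
    (fun s => Cardinal.mk_image_le.trans (hc _))
  have hne : ∀ s, (h s : Set M).Nonempty := fun s => ⟨m₀, hG s rfl⟩
  have hne' : ∀ s, (h' s : Set N).Nonempty := fun s => by
    obtain ⟨m, hm⟩ := hne (s.preimage f f.injective.injOn)
    exact ⟨f m, hG' s ⟨m, hm, rfl⟩⟩
  have h0 := Asys_sub (Λ := Λ) U hκ hU hm' hs' hne' hk' hc'
  have hfk : ∀ u : Finset M, KSub K ((h u).map f.toHom) := by
    intro u
    have h1 := emb_range K _ (K.emb_comp f (h u).subtype hf (hk u))
    have h2 : (f.comp (h u).subtype).toHom.range = (h u).map f.toHom := by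
      ext q
      constructor
      · rintro ⟨n, rfl⟩; exact ⟨n.1, n.2, rfl⟩
      · rintro ⟨n, hn, rfl⟩; exact ⟨⟨n, hn⟩, rfl⟩
    rw [h2] at h1
    exact h1
  have hle : ∀ u : Finset M, (h u).map f.toHom ≤ h' (u.image f) := by
    rintro u _ ⟨m, hm1, rfl⟩
    refine hG' _ ⟨m, ?_, rfl⟩
    refine hm ?_ hm1
    intro y hy
    simp only [Finset.mem_preimage, Finset.mem_image]
    exact ⟨y, hy, rfl⟩
  have h1 : ∀ t : Finset (FS Λ I M), KSub K ((Asys U h t).map (pmap (Λ := Λ) U f).toHom) := by
    intro t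
    have hsp : ∃ s : Finset Λ, Sp s (fun x => (h (ev t x)).map f.toHom) :=
      sp_comp (ev_sp t) fun u => (h u).map f.toHom
    have h2 : (Asys U h t).map (pmap (Λ := Λ) U f).toHom =
        pw U (fun x => (h (ev t x)).map f.toHom) hsp := by
      ext q
      constructor
      · rintro ⟨r, hr, rfl⟩
        obtain ⟨g, rfl⟩ := mk_surj U r
        have hr' := (mk_mem_pw U).1 hr
        change pmap U f (mk U g) ∈ _
        rw [pmap_mk]
        refine (mk_mem_pw U).2 (E_mono' U (sp_mem _ (sp_comp (ev_sp t) h) g)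
          (sp_mem _ hsp _) ?_ hr')
        intro x hx
        exact ⟨_, hx, rfl⟩
      · intro hq
        obtain ⟨g, rfl⟩ := mk_surj U q
        have hq' := (mk_mem_pw U).1 hq
        let g' : FS Λ I M := ⟨fun x => Function.invFun f (g.1 x), sp_comp g.2 _⟩
        have h3 : E U (fun x => (cmp f g').1 x = g.1 x) := by
          refine E_mono' U (sp_mem _ hsp g) (sp_eq _ _) ?_ hq'
          rintro x ⟨m, hm1, hm2⟩
          change f (Function.invFun f (g.1 x)) = g.1 x
          rw [← hm2]
          change f (Function.invFun f (f m)) = f m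
          rw [Function.leftInverse_invFun f.injective m]
        have h4 : E U (fun x => g'.1 x ∈ h (ev t x)) := by
          refine E_mono' U (sp_mem _ hsp g) (sp_mem _ (sp_comp (ev_sp t) h) g') ?_ hq'
          rintro x ⟨m, hm1, hm2⟩
          change Function.invFun f (g.1 x) ∈ h (ev t x)
          rw [← hm2]
          change Function.invFun f (f m) ∈ h (ev t x)
          rw [Function.leftInverse_invFun f.injective m]
          exact hm1
        refine ⟨mk U g', (mk_mem_pw U).2 h4, ?_⟩
        change pmap U f (mk U g') = _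
        rw [pmap_mk]
        exact (mk_eq U).2 h3
    rw [h2]
    refine KLe.sub (B := Asys U h' (t.image (cmp f))) ?_ (h0 _)
    have hev : ∀ x, ev (t.image (cmp f)) x = (ev t x).image f := by
      intro x
      ext y
      simp only [ev, Finset.mem_image]
      constructor
      · rintro ⟨g, ⟨z, hz, rfl⟩, rfl⟩; exact ⟨_, ⟨z, hz, rfl⟩, rfl⟩
      · rintro ⟨_, ⟨z, hz, rfl⟩, rfl⟩; exact ⟨_, ⟨z, hz, rfl⟩, rfl⟩
    refine key U hκ.1 hκ.2.1 hU _ _ (fun x => hne' _) (fun x => hc' _) fun x => ?_
    refine KSub.le (hfk _) (hk' _) ?_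
    rw [hev x]
    exact hle _
  have h4 := ksub_sys (K := K) (A := fun t => (Asys U h t).map (pmap (Λ := Λ) U f).toHom)
    (fun s t hst => Substructure.monotone_map (Asys_mono U hm hst)) h1
  refine emb_of_range K _ _ h4 ?_
  ext q
  constructor
  · rintro ⟨r, rfl⟩
    have hr : r ∈ (⨆ t, Asys (Λ := Λ) U h t) := by rw [Asys_top U hs]; trivial
    have hd : Directed (· ≤ ·) (Asys (Λ := Λ) U h) := (Asys_mono U hm).directed_le
    obtain ⟨t, ht⟩ := (Substructure.mem_iSup_of_directed hd).1 hr
    exact (le_iSup (fun t => (Asys U h t).map (pmap (Λ := Λ) U f).toHom) t) ⟨r, ht, rfl⟩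
  · intro hq
    have : (⨆ t, (Asys U h t).map (pmap (Λ := Λ) U f).toHom) ≤
        (pmap (Λ := Λ) U f).toHom.range := by
      refine iSup_le fun u => ?_
      rintro _ ⟨n, -, rfl⟩
      exact ⟨n, rfl⟩
    exact this hq

end two

theorem card_pw (hU0 : ∀ i, {i} ∉ U) {M : Type u} (hI : #I ≤ #M) : #Λ ≤ #(Pw U Λ M) := by
  classical
  obtain ⟨e⟩ := hI
  have hsp : ∀ a : Λ, ∃ s : Finset Λ, Sp s (fun x : Λ → I => e (x a)) := fun a =>
    ⟨{a}, fun x y hxy => by simp only [hxy a (Finset.mem_singleton_self a)]⟩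
  let F : Λ → Pw U Λ M := fun a => mk U ⟨fun x => e (x a), hsp a⟩
  have hlt : ∀ a b : Λ, a < b → F a ≠ F b := by
    intro a b hab h
    have h1 := (mk_eq U).1 h
    have h2 : E U (fun x : Λ → I => x a = x b) := by
      refine E_mono' U (sp_eq _ _) ⟨{a, b}, fun x y hxy => ?_⟩ (fun x hx => e.injective hx) h1
      simp only
      rw [hxy a (by simp), hxy b (by simp)]
    obtain ⟨x⟩ : Nonempty (Λ → I) := inferInstance
    have hs : Sp (insert a {b} : Finset Λ) (fun x : Λ → I => x a = x b) := fun x y hxy => by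
      simp only
      rw [hxy a (by simp), hxy b (by simp)]
    rw [E_iff U hs subset_rfl x, Finset.sort_insert (· ≤ ·)
      (by intro c hc; rw [Finset.mem_singleton] at hc; subst hc; exact hab.le)
      (by simpa using hab.ne), Finset.sort_singleton] at h2
    simp only [Ev] at h2
    have h3 : ∀ i, ¬ ∀ᶠ j in (U : Filter I),
        Function.update (Function.update x a i) b j a =
          Function.update (Function.update x a i) b j b := by
      intro i hi
      apply hU0 i
      filter_upwards [hi] with j hj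
      rw [Function.update_of_ne hab.ne, Function.update_self, Function.update_self] at hj
      exact hj.symm
    have h4 : ∀ᶠ i in (U : Filter I), False := h2.mono fun i hi => h3 i hi
    simp at h4
    exact U.neBot.ne h4
  refine Cardinal.mk_le_of_injective (f := F) ?_
  intro a b h
  rcases lt_trichotomy a b with hab | hab | hab
  · exact absurd h (hlt a b hab)
  · exact hab
  · exact absurd h.symm (hlt b a hab)

end Pool.Agent.U66.UP
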