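import Pool.Agent.U66.UP.Rw

set_option autoImplicit false
set_option linter.unusedSectionVars false

/-! Categoricity in `lam` with `lam ^ μ₀ = lam` gives amalgamation in `μ₀`. -/

namespace Pool.Agent.U66.UP

open Cardinal FirstOrder FirstOrder.Language
open Pool.Agent.H288R4.LS (AEC)

universe u

variable {L : FirstOrder.Language.{u, u}}

/-- the map `c` is a nice embedding into `p` -/
def NAt (K : AEC L) {M W : Type u} [L.Structure M] (c : M → W) (p : Ps L W) : Prop :=
  ∃ g : M ↪[L] p.S, (∀ m, (g m).1 = c m) ∧ Nice K g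

/-- the map `c` is not a nice embedding into `q` -/
def Kill (K : AEC L) {M W : Type u} [L.Structure M] (c : M → W) (q : Ps L W) : Prop :=
  ∀ g : M ↪[L] q.S, (∀ m, (g m).1 = c m) → ¬ Nice K g

theorem kill_up {K : AEC L} {M W : Type u} [L.Structure M] {c : M → W} {p q r : Ps L W}
    (h1 : Le K p q) (h2 : Le K q r) (h3 : NAt K c p) (h4 : Kill K c q) : ¬ NAt K c r := by
  rintro ⟨g, hg, hn⟩
  obtain ⟨g₀, hg₀, -⟩ := h3
  obtain ⟨e, he, hke⟩ := h1
  obtain ⟨e', he', hke'⟩ := h2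
  apply h4 (e.comp g₀) fun m => (he _).trans (hg₀ m)
  apply nice_of_comp e' (e.comp g₀) hke'
  have : g = e'.comp (e.comp g₀) := by
    ext m
    exact (hg m).trans ((he' _).trans ((he _).trans (hg₀ m))).symm
  rw [← this]; exact hn

theorem nice_dg {K : AEC L} {κ : Cardinal.{u}} (hκ : K.LSat κ) {Λ I : Type u} [LinearOrder Λ]
    [Nonempty I] (U : Ultrafilter I) (hU : Cpl U κ) {M : Type u} [L.Structure M] (m₀ : M) :
    Nice K (dg (L := L) U Λ M) := by
  intro N' _ f' hf'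
  refine ⟨Pw U Λ N', inferInstance, pmap (Λ := Λ) U f', dg (L := L) U Λ N',
    emb_pmap U hκ hU f' hf' m₀, emb_dg U hκ hU (K.emb_mem _ hf').2 (f' m₀), fun x => ?_⟩
  exact pmap_dg U f' x

theorem nice_post {K : AEC L} {X Y Z : Type u} [L.Structure X] [L.Structure Y] [L.Structure Z]
    (b : Y ≃[L] Z) (f : X ↪[L] Y) (hZ : K.mem Z) (h : Nice K f) :
    Nice K (b.toEmbedding.comp f) := by
  intro N' _ f' hf'
  obtain ⟨Q, iQ, s, t, h1, h2, h3⟩ := h N' f' hf'
  refine ⟨Q, iQ, s.comp b.symm.toEmbedding, t, K.emb_comp _ _ h1 (K.emb_equiv b.symm hZ), h2,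
    fun x => ?_⟩
  change s (b.symm (b (f x))) = _
  rw [FirstOrder.Language.Equiv.symm_apply_apply]
  exact h3 x

theorem pig_wap {K : AEC L} {κ χ μ₀ lam : Cardinal.{u}} (hκ : K.LSat κ) (hχ : Measurable χ)
    (h1 : κ < χ) (h2 : χ ≤ μ₀) (h3 : μ₀ < lam) (hpow : lam ^ μ₀ = lam)
    (hcat : K.Categorical lam) : WAP K μ₀ := by
  classical
  obtain ⟨hχ0, I, U, hI, hU0, hU1⟩ := hχ
  have hU : Cpl U κ := fun J hJ A hA => hU1 J A (hJ.trans_lt h1) hA
  have hIne : Nonempty I := by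
    rw [← Cardinal.mk_ne_zero_iff, hI]
    exact (Cardinal.aleph0_pos.trans hχ0).ne'
  intro M N N' _ _ _ f f' hf hf' c0 c1 c2
  by_contra hn
  have hμ0 : ℵ₀ ≤ μ₀ := hχ0.le.trans h2
  have hl0 : ℵ₀ ≤ lam := hμ0.trans h3.le
  have hlne : lam ≠ 0 := (Cardinal.aleph0_pos.trans_le hl0).ne'
  have hreg : (Order.succ lam).IsRegular := Cardinal.isRegular_succ hl0
  have hregμ : (Order.succ μ₀).IsRegular := Cardinal.isRegular_succ hμ0
  have hls : lam < Order.succ lam := Order.lt_succ lam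
  obtain ⟨m₀⟩ : Nonempty M := by
    rw [← Cardinal.mk_ne_zero_iff, c0]
    exact (Cardinal.aleph0_pos.trans_le hμ0).ne'
  have hM := (K.emb_mem _ hf).1
  have hI0 : ℵ₀ ≤ #I := hI ▸ hχ0.le
  have hL : #(lam.ord.ToType) = lam := Cardinal.mk_ord_toType lam
  have hW : #((Order.succ lam).ord.ToType) = Order.succ lam := Cardinal.mk_ord_toType _
  have hpχ : μ₀ ^ χ ≤ lam := by
    calc μ₀ ^ χ ≤ lam ^ χ := Cardinal.power_le_power_right h3.le
      _ ≤ lam ^ μ₀ := Cardinal.power_le_power_left hlne h2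
      _ = lam := hpow
  have hPc : ∀ (T : Type u), #T = μ₀ → #(Pw U (lam.ord.ToType) T) = lam := by
    intro T hT
    apply le_antisymm
    · refine (card_pw_le U hI0 (hT ▸ hμ0)).trans ?_
      rw [hL, hI, hT]
      exact Cardinal.mul_le_of_le hl0 (max_le hl0 le_rfl) hpχ
    · calc lam = #(lam.ord.ToType) := hL.symm
        _ ≤ _ := card_pw U hU0 (by rw [hI, hT]; exact h2)
  have hAm : K.mem (Pw U (lam.ord.ToType) M) := (K.emb_mem _ (emb_dg U hκ hU hM m₀)).2
  have hkpm : K.emb (pmap (Λ := lam.ord.ToType) U f) := emb_pmap U hκ hU f hf m₀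
  have hdn : Nice K (dg (L := L) U (lam.ord.ToType) M) := nice_dg hκ U hU m₀
  have hbad : ¬ Nice K ((pmap (Λ := lam.ord.ToType) U f).comp
      (dg (L := L) U (lam.ord.ToType) M)) := by
    intro hni
    obtain ⟨Q, iQ, u, v, k1, k2, k3⟩ := hni N' f' hf'
    apply hn
    refine ⟨Q, iQ, u.comp (dg (L := L) U (lam.ord.ToType) N), v,
      K.emb_comp _ _ k1 (emb_dg U hκ hU (K.emb_mem _ hf).2 (f m₀)), k2, fun x => ?_⟩
    have k4 : u (pmap (Λ := lam.ord.ToType) U f (dg (L := L) U (lam.ord.ToType) M x)) =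
        v (f' x) := k3 x
    rw [pmap_dg] at k4
    exact k4
  -- the chain
  obtain ⟨aS, iaS, ⟨ae⟩⟩ := exists_copy (L := L) (J := (Order.succ lam).ord.ToType)
    (Pw U (lam.ord.ToType) M) (by rw [hW, hPc M c0]; exact hls.le)
  let a : Ps L ((Order.succ lam).ord.ToType) := ⟨aS, iaS⟩
  have hane : Nonempty (Ps L ((Order.succ lam).ord.ToType)) := ⟨a⟩
  have hac : #aS = lam := (Cardinal.mk_congr ae.toEquiv).symm.trans (hPc M c0)
  have ha : Gd K lam (Order.succ lam) a := ⟨(K.emb_mem _ (K.emb_equiv ae hAm)).2, by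
    change lam ≤ #aS
    rw [hac], by
    change #aS < Order.succ lam
    rw [hac]; exact hls⟩
  have hex : ∀ p : Ps L ((Order.succ lam).ord.ToType), Gd K lam (Order.succ lam) p →
      ∃ q : Ps L ((Order.succ lam).ord.ToType), ∃ c : M → (Order.succ lam).ord.ToType,
        Gd K lam (Order.succ lam) q ∧ Le K p q ∧ NAt K c p ∧ Kill K c q := by
    intro p hp
    have hpc : #p.S = lam := le_antisymm (Order.lt_succ_iff.1 hp.2.2) hp.2.1
    obtain ⟨e⟩ := hcat.2 p.S (Pw U (lam.ord.ToType) M) hp.1 hAm hpc (hPc M c0)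
    have hcomp : #(Pw U (lam.ord.ToType) N) ≤
        #(p.Sᶜ : Set ((Order.succ lam).ord.ToType)) := by
      have hinf : Infinite ((Order.succ lam).ord.ToType) := by
        rw [Cardinal.infinite_iff, hW]; exact hl0.trans hls.le
      rw [Cardinal.mk_compl_of_infinite p.S (by rw [hW, hpc]; exact hls), hW, hPc N c1]
      exact hls.le
    obtain ⟨q, q1, b, hb⟩ := exists_step p (Pw U (lam.ord.ToType) N)
      ((pmap (Λ := lam.ord.ToType) U f).comp e.toEmbedding)
      (K.emb_comp _ _ hkpm (K.emb_equiv e hp.1)) hcomp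
    have hqc : #q.S = lam := (Cardinal.mk_congr b.toEquiv).symm.trans (hPc N c1)
    refine ⟨q, fun m => (e.symm (dg (L := L) U (lam.ord.ToType) M m)).1,
      ⟨q1.mem.2, hqc.ge, by rw [hqc]; exact hls⟩, q1,
      ⟨e.symm.toEmbedding.comp (dg (L := L) U (lam.ord.ToType) M), fun m => rfl,
        nice_post e.symm _ hp.1 hdn⟩, ?_⟩
    intro g hg hgn
    apply hbad
    have hge : g = b.toEmbedding.comp ((pmap (Λ := lam.ord.ToType) U f).comp
        (dg (L := L) U (lam.ord.ToType) M)) := by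
      ext m
      have k1 := hb (e.symm (dg (L := L) U (lam.ord.ToType) M m))
      change (b (pmap (Λ := lam.ord.ToType) U f
        (e (e.symm (dg (L := L) U (lam.ord.ToType) M m))))).1 = _ at k1
      rw [FirstOrder.Language.Equiv.apply_symm_apply] at k1
      exact (hg m).trans k1.symm
    rw [hge] at hgn
    exact nice_of_comp _ _ (K.emb_equiv b (K.emb_mem _ hkpm).2) hgn
  have hOne : Nonempty ((Order.succ lam).ord.ToType) := by
    rw [← Cardinal.mk_ne_zero_iff, hW]
    exact (Cardinal.aleph0_pos.trans_le hreg.1).ne'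
  choose! F c hF using hex
  have hF' : ∀ p, Gd K lam (Order.succ lam) p → Gd K lam (Order.succ lam) (F p) ∧
      Le K p (F p) := fun p hp => ⟨(hF p hp).1, (hF p hp).2.1⟩
  have hO : ∀ i : (Order.succ lam).ord.ToType, #(Set.Iio i) < Order.succ lam := fun i =>
    Cardinal.mk_Iio_toType_ord_lt i
  have hD := Dn_main a F ha hF' hreg hO
  have hlim := Dn_limit a F ha hF' hreg hO
  have hDle : ∀ i j : (Order.succ lam).ord.ToType, i ≤ j → (Dn a F i).S ⊆ (Dn a F j).S := by
    intro i j hij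
    rcases hij.eq_or_lt with h | h
    · subst h; exact subset_rfl
    · exact ((hF' _ (hD i).1).2.trans ((hD j).2.2 i h)).sub
  let cc : (Order.succ lam).ord.ToType → M → (Order.succ lam).ord.ToType := fun i => c (Dn a F i)
  have hN : ∀ i, NAt K (cc i) (Dn a F i) := fun i => (hF _ (hD i).1).2.2.1
  have hcc : ∀ i j : (Order.succ lam).ord.ToType, i < j → cc i ≠ cc j := by
    intro i j hij he
    refine kill_up (hF' _ (hD i).1).2 ((hD j).2.2 i hij) (hN i) (hF _ (hD i).1).2.2.2 ?_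
    rw [he]
    exact hN j
  have hinj : Function.Injective cc := by
    intro i j h
    rcases lt_trichotomy i j with hij | hij | hij
    · exact absurd h (hcc i j hij)
    · exact hij
    · exact absurd h.symm (hcc j i hij)
  have hbnd : ∀ j : (Order.succ lam).ord.ToType, ∃ b, ∀ i,
      (∀ m, cc i m ∈ (Dn a F j).S) → i < b := by
    intro j
    let ι : Type u := {i : (Order.succ lam).ord.ToType // ∀ m, cc i m ∈ (Dn a F j).S}
    have hι : #ι ≤ lam := by
      have h4 : #ι ≤ #(M → (Dn a F j).S) := by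
        refine Cardinal.mk_le_of_injective (f := fun i : ι => fun m => ⟨cc i.1 m, i.2 m⟩) ?_
        intro i i' hii
        apply Subtype.ext
        apply hinj
        funext m
        exact congrArg Subtype.val (congrFun hii m)
      have h5 : #(Dn a F j).S = lam := le_antisymm (Order.lt_succ_iff.1 (hD j).1.2.2) (hD j).1.2.1
      rw [← Cardinal.power_def, h5, c0, hpow] at h4
      exact h4
    obtain ⟨b, hb⟩ := bd hreg (ι := ι) (fun i => i.1) (hι.trans_lt hls)
    exact ⟨b, fun i hi => hb ⟨i, hi⟩⟩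
  choose bb hbb using hbnd
  have hμs : Order.succ μ₀ < Order.succ lam := (Order.succ_le_of_lt h3).trans_lt hls
  have hVO : #((Order.succ μ₀).ord.ToType) = Order.succ μ₀ := Cardinal.mk_ord_toType _
  -- a closed point of the chain
  obtain ⟨s, hs⟩ : ∃ s : (Order.succ μ₀).ord.ToType → (Order.succ lam).ord.ToType,
      ∀ i j, j < i → s j < s i ∧ bb (s j) < s i := by
    have hst : ∀ (i : (Order.succ μ₀).ord.ToType)
        (t : ∀ j, j < i → (Order.succ lam).ord.ToType),
        ∃ x, ∀ j (hj : j < i), t j hj < x ∧ bb (t j hj) < x := by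
      intro i t
      obtain ⟨x, hx⟩ := bd hreg (ι := Set.Iio i) (fun j => max (t j.1 j.2) (bb (t j.1 j.2)))
        (((Cardinal.mk_Iio_toType_ord_lt i).trans hμs))
      exact ⟨x, fun j hj => ⟨(le_max_left _ _).trans_lt (hx ⟨j, hj⟩),
        (le_max_right _ _).trans_lt (hx ⟨j, hj⟩)⟩⟩
    choose st hst using hst
    refine ⟨WellFounded.fix (C := fun _ => (Order.succ lam).ord.ToType)
      (wellFounded_lt (α := (Order.succ μ₀).ord.ToType)) st, fun i j hj => ?_⟩
    rw [WellFounded.fix_eq _ st i]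
    exact hst i (fun y _ => WellFounded.fix (C := fun _ => (Order.succ lam).ord.ToType)
      (wellFounded_lt (α := (Order.succ μ₀).ord.ToType)) st y) j hj
  obtain ⟨x₀, hx₀⟩ := bd hreg s (by rw [hVO]; exact hμs)
  obtain ⟨δ, hδ1, hδ2⟩ : ∃ δ : (Order.succ lam).ord.ToType, (∀ n, s n < δ) ∧
      ∀ j < δ, ∃ n, j ≤ s n := by
    have hne : {b | ∀ n, s n < b}.Nonempty := ⟨x₀, hx₀⟩
    refine ⟨WellFounded.min (wellFounded_lt (α := (Order.succ lam).ord.ToType)) _ hne,
      WellFounded.min_mem _ _ hne, fun j hj => ?_⟩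
    by_contra hn'
    push Not at hn'
    exact WellFounded.not_lt_min (wellFounded_lt (α := (Order.succ lam).ord.ToType)) _
      (show j ∈ {b | ∀ n, s n < b} from hn') hj
  have hup : ∀ i : (Order.succ μ₀).ord.ToType, ∃ j, i < j := by
    intro i
    obtain ⟨b, hb⟩ := bd hregμ (ι := PUnit) (fun _ => i) (by
      rw [Cardinal.mk_punit]; exact Cardinal.one_lt_aleph0.trans_le hregμ.1)
    exact ⟨b, hb PUnit.unit⟩
  obtain ⟨i₀⟩ : Nonempty ((Order.succ μ₀).ord.ToType) := by
    rw [← Cardinal.mk_ne_zero_iff, hVO]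
    exact (Cardinal.aleph0_pos.trans_le hregμ.1).ne'
  have hδD : ∀ x ∈ (Dn a F δ).S, ∃ n, x ∈ (Dn a F (s n)).S := by
    intro x hx
    obtain ⟨j, hj, hxj⟩ := hlim δ ⟨s i₀, hδ1 i₀⟩ (fun j hj => by
      obtain ⟨n, hn⟩ := hδ2 j hj
      obtain ⟨n', hn'⟩ := hup n
      exact ⟨s n', hδ1 n', hn.trans_lt (hs n' n hn').1⟩) x hx
    obtain ⟨n, hn⟩ := hδ2 j hj
    exact ⟨n, hDle _ _ hn hxj⟩
  have hsm : ∀ i j, i ≤ j → s i ≤ s j := by
    intro i j hij
    rcases hij.eq_or_lt with h | h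
    · rw [h]
    · exact (hs j i h).1.le
  obtain ⟨g, hg, -⟩ := hN δ
  choose n hn using fun m => hδD (g m).1 (g m).2
  obtain ⟨n₁, hn₁⟩ := bd hregμ n (by rw [c0]; exact Order.lt_succ μ₀)
  obtain ⟨n₂, hn₂⟩ := hup n₁
  have hfin : δ < bb (s n₁) := by
    apply hbb (s n₁) δ
    intro m
    rw [← hg m]
    exact hDle _ _ (hsm _ _ (hn₁ m).le) (hn m)
  exact absurd (hfin.trans ((hs n₂ n₁ hn₂).2.trans (hδ1 n₂))) (lt_irrefl _)

end Pool.Agent.U66.UP
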