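import Pool.Agent.U66.UP.Ev

set_option autoImplicit false
set_option linter.unusedSectionVars false

/-! Limit ultrapowers of structures. -/

namespace Pool.Agent.U66.UP

open Cardinal FirstOrder FirstOrder.Language

universe u

variable {Λ I : Type u} [LinearOrder Λ] [Nonempty I] (U : Ultrafilter I)
  {L : FirstOrder.Language.{u, u}}

/-- functions of finite support -/
def FS (Λ I M : Type u) : Type u := {f : (Λ → I) → M // ∃ s : Finset Λ, Sp s f}

theorem sp_eq {M : Type u} (f g : FS Λ I M) : ∃ s : Finset Λ, Sp s (fun x => f.1 x = g.1 x) := by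
  obtain ⟨s, hs⟩ := f.2
  obtain ⟨t, ht⟩ := g.2
  refine ⟨s ∪ t, fun x y hxy => ?_⟩
  simp only
  rw [hs x y fun a ha => hxy a (Finset.mem_union_left _ ha),
    ht x y fun a ha => hxy a (Finset.mem_union_right _ ha)]

theorem sp_fin {n : ℕ} {β : Fin n → Type*} {γ : Type*} {f : ∀ k, (Λ → I) → β k}
    (h : ∀ k, ∃ s : Finset Λ, Sp s (f k)) (F : (∀ k, β k) → γ) :
    ∃ s : Finset Λ, Sp s (fun x => F fun k => f k x) := by
  choose s hs using h
  refine ⟨Finset.univ.biUnion s, fun x y hxy => ?_⟩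
  have : (fun k => f k x) = fun k => f k y := by
    funext k
    exact hs k x y fun a ha => hxy a
      (Finset.mem_biUnion.2 ⟨k, Finset.mem_univ k, ha⟩)
  simp only [this]

/-- equality almost everywhere -/
def fsSetoid (M : Type u) : Setoid (FS Λ I M) where
  r f g := E U (fun x => f.1 x = g.1 x)
  iseqv := by
    refine ⟨fun f => ?_, fun {f g} h => ?_, fun {f g k} h1 h2 => ?_⟩
    · obtain ⟨s, hs⟩ := sp_eq f f
      exact E_true U hs fun x => rfl
    · exact E_mono' U (sp_eq f g) (sp_eq g f) (fun x hx => hx.symm) h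
    · have h3 := (E_and' U (sp_eq f g) (sp_eq g k)).2 ⟨h1, h2⟩
      obtain ⟨s, hs⟩ := sp_eq f g
      obtain ⟨t, ht⟩ := sp_eq g k
      exact E_mono' U ⟨s ∪ t, (hs.mono Finset.subset_union_left).and
        (ht.mono Finset.subset_union_right)⟩ (sp_eq f k) (fun x hx => hx.1.trans hx.2) h3

/-- the limit ultrapower -/
def Pw (Λ : Type u) [LinearOrder Λ] (M : Type u) : Type u := Quotient (fsSetoid (Λ := Λ) U M)

/-- class of a function -/
def mk {M : Type u} (f : FS Λ I M) : Pw U Λ M := Quotient.mk (fsSetoid U M) f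

/-- a representative -/
noncomputable def rp {M : Type u} (q : Pw U Λ M) : FS Λ I M := Quotient.out q

theorem mk_rp {M : Type u} (q : Pw U Λ M) : mk U (rp U q) = q := Quotient.out_eq q

theorem mk_eq {M : Type u} {f g : FS Λ I M} : mk U f = mk U g ↔ E U (fun x => f.1 x = g.1 x) :=
  ⟨fun h => Quotient.exact h, fun h => Quotient.sound (s := fsSetoid U M) h⟩

theorem rp_mk {M : Type u} (f : FS Λ I M) : E U (fun x => (rp U (mk U f)).1 x = f.1 x) :=
  (mk_eq U).1 (mk_rp U _)

theorem mk_surj {M : Type u} (q : Pw U Λ M) : ∃ f : FS Λ I M, mk U f = q := ⟨_, mk_rp U q⟩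

section str
variable {M : Type u} [L.Structure M]

/-- pointwise application of a function symbol -/
def appF {n : ℕ} (F : L.Functions n) (g : Fin n → FS Λ I M) : FS Λ I M :=
  ⟨fun x => Structure.funMap F fun k => (g k).1 x, sp_fin (fun k => (g k).2) _⟩

theorem sp_rel {n : ℕ} (R : L.Relations n) (g : Fin n → FS Λ I M) :
    ∃ s : Finset Λ, Sp s (fun x => Structure.RelMap R fun k => (g k).1 x) :=
  sp_fin (fun k => (g k).2) _

noncomputable instance : L.Structure (Pw U Λ M) where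
  funMap F v := mk U (appF F fun k => rp U (v k))
  RelMap R v := E U (fun x => Structure.RelMap R fun k => (rp U (v k)).1 x)

theorem fun_mk {n : ℕ} (F : L.Functions n) (g : Fin n → FS Λ I M) :
    (Structure.funMap F (fun k => mk U (g k)) : Pw U Λ M) = mk U (appF F g) := by
  change mk U (appF F fun k => rp U (mk U (g k))) = _
  rw [mk_eq]
  have h := (E_fin U (fun k => sp_eq (rp U (mk U (g k))) (g k))).2 fun k => rp_mk U (g k)
  refine E_mono' U ?_ (sp_eq _ _) ?_ h
  · exact sp_fin (β := fun _ => Prop) (f := fun k x => (rp U (mk U (g k))).1 x = (g k).1 x)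
      (fun k => sp_eq _ _) (fun p => ∀ k, p k)
  · intro x hx
    simp only [appF]
    congr 1
    funext k
    exact hx k

theorem rel_mk {n : ℕ} (R : L.Relations n) (g : Fin n → FS Λ I M) :
    Structure.RelMap R (fun k => (mk U (g k) : Pw U Λ M)) ↔
      E U (fun x => Structure.RelMap R fun k => (g k).1 x) := by
  change E U (fun x => Structure.RelMap R fun k => (rp U (mk U (g k))).1 x) ↔ _
  have h := (E_fin U (fun k => sp_eq (rp U (mk U (g k))) (g k))).2 fun k => rp_mk U (g k)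
  have hs : ∃ s : Finset Λ, Sp s (fun x => ∀ k, (rp U (mk U (g k))).1 x = (g k).1 x) :=
    sp_fin (β := fun _ => Prop) (f := fun k x => (rp U (mk U (g k))).1 x = (g k).1 x)
      (fun k => sp_eq _ _) (fun p => ∀ k, p k)
  have h1 := sp_rel R (fun k => rp U (mk U (g k)))
  have h2 := sp_rel R g
  obtain ⟨s, hs'⟩ := hs
  obtain ⟨s1, h1'⟩ := h1
  obtain ⟨s2, h2'⟩ := h2
  constructor
  · intro h3
    refine E_mono' U ⟨s ∪ s1, (hs'.mono Finset.subset_union_left).and
      (h1'.mono Finset.subset_union_right)⟩ ⟨s2, h2'⟩ ?_ ((E_and' U ⟨s, hs'⟩ ⟨s1, h1'⟩).2 ⟨h, h3⟩)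
    rintro x ⟨hx, hx'⟩
    have : (fun k => (g k).1 x) = fun k => (rp U (mk U (g k))).1 x := by
      funext k; exact (hx k).symm
    rw [this]; exact hx'
  · intro h3
    refine E_mono' U ⟨s ∪ s2, (hs'.mono Finset.subset_union_left).and
      (h2'.mono Finset.subset_union_right)⟩ ⟨s1, h1'⟩ ?_ ((E_and' U ⟨s, hs'⟩ ⟨s2, h2'⟩).2 ⟨h, h3⟩)
    rintro x ⟨hx, hx'⟩
    have : (fun k => (rp U (mk U (g k))).1 x) = fun k => (g k).1 x := by
      funext k; exact hx k
    rw [this]; exact hx'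

end str

section map
variable {M N : Type u} [L.Structure M] [L.Structure N]

/-- composition -/
def cmp (f : M → N) (g : FS Λ I M) : FS Λ I N :=
  ⟨fun x => f (g.1 x), by
    obtain ⟨s, hs⟩ := g.2
    exact ⟨s, fun x y hxy => by simp only [hs x y hxy]⟩⟩

/-- the map of ultrapowers induced by an embedding -/
noncomputable def pmap (f : M ↪[L] N) : Pw U Λ M ↪[L] Pw U Λ N where
  toFun q := mk U (cmp f (rp U q))
  inj' q r h := by
    rw [← mk_rp U q, ← mk_rp U r, mk_eq]
    exact E_mono' U (sp_eq _ _) (sp_eq _ _) (fun x hx => f.injective hx) ((mk_eq U).1 h)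
  map_fun' {n} F v := by
    have hmk : ∀ g : FS Λ I M, mk U (cmp f (rp U (mk U g))) = mk U (cmp f g) := by
      intro g
      rw [mk_eq]
      exact E_mono' U (sp_eq _ _) (sp_eq _ _)
        (fun x hx => by simp only [cmp]; rw [hx]) (rp_mk U g)
    change mk U (cmp f (rp U (mk U (appF F fun k => rp U (v k))))) = _
    rw [hmk]
    have : (fun q => mk U (cmp f (rp U q))) ∘ v = fun k => mk U (cmp f (rp U (v k))) := rfl
    rw [this, fun_mk]
    congr 1
    apply Subtype.ext
    funext x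
    exact f.map_fun F _
  map_rel' {n} R v := by
    have : (fun q => mk U (cmp f (rp U q))) ∘ v = fun k => mk U (cmp f (rp U (v k))) := rfl
    rw [this, rel_mk]
    have h : (fun x : Λ → I => Structure.RelMap R fun k => (cmp f (rp U (v k))).1 x) =
        fun x => Structure.RelMap R fun k => (rp U (v k)).1 x := by
      funext x
      exact propext (f.map_rel R fun k => (rp U (v k)).1 x)
    rw [h]
    exact Iff.rfl

theorem pmap_mk (f : M ↪[L] N) (g : FS Λ I M) : pmap U f (mk U g) = mk U (cmp f g) := by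
  change mk U (cmp f (rp U (mk U g))) = mk U (cmp f g)
  rw [mk_eq]
  exact E_mono' U (sp_eq _ _) (sp_eq _ _)
    (fun x hx => by simp only [cmp]; rw [hx]) (rp_mk U g)

/-- constant function -/
def cst (Λ I : Type u) {M : Type u} (m : M) : FS Λ I M := ⟨fun _ => m, ∅, fun _ _ _ => rfl⟩

/-- the diagonal embedding -/
noncomputable def dg (Λ : Type u) [LinearOrder Λ] (M : Type u) [L.Structure M] :
    M ↪[L] Pw U Λ M where
  toFun m := mk U (cst Λ I m)
  inj' m m' h := (E_const (Λ := Λ) U _).1 ((mk_eq U).1 h)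
  map_fun' {n} F v := by
    have : (fun m => mk U (cst Λ I m)) ∘ v = fun k => mk U (cst Λ I (v k)) := rfl
    rw [this, fun_mk]
    rfl
  map_rel' {n} R v := by
    have : (fun m => mk U (cst Λ I m)) ∘ v = fun k => mk U (cst Λ I (v k)) := rfl
    rw [this, rel_mk]
    exact E_const (Λ := Λ) U (Structure.RelMap R v)

theorem pmap_dg (f : M ↪[L] N) (m : M) : pmap U f (dg (L := L) U Λ M m) = dg (L := L) U Λ N (f m) := by
  change pmap U f (mk U (cst Λ I m)) = _
  rw [pmap_mk]
  rfl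

end map

section piece
variable {M : Type u} [L.Structure M]

theorem sp_mem (H : (Λ → I) → L.Substructure M) (hH : ∃ s : Finset Λ, Sp s H) (g : FS Λ I M) :
    ∃ s : Finset Λ, Sp s (fun x => g.1 x ∈ H x) := by
  obtain ⟨s, hs⟩ := g.2
  obtain ⟨t, ht⟩ := hH
  refine ⟨s ∪ t, fun x y hxy => ?_⟩
  simp only
  rw [hs x y fun a ha => hxy a (Finset.mem_union_left _ ha),
    ht x y fun a ha => hxy a (Finset.mem_union_right _ ha)]

/-- the ultraproduct of a family of substructures -/
def pw (H : (Λ → I) → L.Substructure M) (hH : ∃ s : Finset Λ, Sp s H) :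
    L.Substructure (Pw U Λ M) where
  carrier := {q | E U (fun x => (rp U q).1 x ∈ H x)}
  fun_mem {n} F v hv := by
    change E U (fun x => (rp U (mk U (appF F fun k => rp U (v k)))).1 x ∈ H x)
    have h1 := (E_fin U (fun k => sp_mem H hH (rp U (v k)))).2 hv
    have h2 := rp_mk U (appF F fun k => rp U (v k))
    have hs1 : ∃ s : Finset Λ, Sp s (fun x => ∀ k, (rp U (v k)).1 x ∈ H x) :=
      sp_fin (β := fun _ => Prop) (f := fun k x => (rp U (v k)).1 x ∈ H x)
        (fun k => sp_mem H hH (rp U (v k))) (fun p => ∀ k, p k)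
    obtain ⟨s, hs⟩ := hs1
    obtain ⟨t, ht⟩ := sp_eq (rp U (mk U (appF F fun k => rp U (v k)))) (appF F fun k => rp U (v k))
    refine E_mono' U ⟨s ∪ t, (hs.mono Finset.subset_union_left).and
      (ht.mono Finset.subset_union_right)⟩ (sp_mem H hH _) ?_
      ((E_and' U ⟨s, hs⟩ ⟨t, ht⟩).2 ⟨h1, h2⟩)
    rintro x ⟨hx, hx'⟩
    rw [hx']
    exact (H x).fun_mem F _ hx

theorem mk_mem_pw {H : (Λ → I) → L.Substructure M} {hH : ∃ s : Finset Λ, Sp s H}
    {g : FS Λ I M} : mk U g ∈ pw U H hH ↔ E U (fun x => g.1 x ∈ H x) := by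
  change E U (fun x => (rp U (mk U g)).1 x ∈ H x) ↔ _
  have h := rp_mk U g
  obtain ⟨s, hs⟩ := sp_eq (rp U (mk U g)) g
  obtain ⟨t, ht⟩ := sp_mem H hH g
  obtain ⟨r, hr⟩ := sp_mem H hH (rp U (mk U g))
  constructor
  · intro h'
    refine E_mono' U ⟨s ∪ r, (hs.mono Finset.subset_union_left).and
      (hr.mono Finset.subset_union_right)⟩ ⟨t, ht⟩ ?_ ((E_and' U ⟨s, hs⟩ ⟨r, hr⟩).2 ⟨h, h'⟩)
    rintro x ⟨hx, hx'⟩
    rwa [← hx]
  · intro h'
    refine E_mono' U ⟨s ∪ t, (hs.mono Finset.subset_union_left).and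
      (ht.mono Finset.subset_union_right)⟩ ⟨r, hr⟩ ?_ ((E_and' U ⟨s, hs⟩ ⟨t, ht⟩).2 ⟨h, h'⟩)
    rintro x ⟨hx, hx'⟩
    rwa [hx]

theorem pw_mono {H H' : (Λ → I) → L.Substructure M} {hH : ∃ s : Finset Λ, Sp s H}
    {hH' : ∃ s : Finset Λ, Sp s H'} (h : ∀ x, H x ≤ H' x) : pw U H hH ≤ pw U H' hH' := by
  intro q hq
  obtain ⟨g, rfl⟩ := mk_surj U q
  rw [mk_mem_pw] at hq ⊢
  exact E_mono' U (sp_mem H hH g) (sp_mem H' hH' g) (fun x hx => h x hx) hq

end piece

end Pool.Agent.U66.UP
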