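import Pool.Agent.U66.UP.Ch
import Pool.Agent.U66.UP.Cd

set_option autoImplicit false
set_option linter.unusedSectionVars false

/-! Chains of bad extensions. -/

namespace Pool.Agent.U66.UP

open Cardinal FirstOrder FirstOrder.Language
open Pool.Agent.H288R4.LS (AEC)

universe u

variable {L : FirstOrder.Language.{u, u}}

/-- small members of the class above a measurable cardinal have proper extensions -/
theorem exists_proper {K : AEC L} {κ lam : Cardinal.{u}} (hκ : K.LSat κ) (hl : ℵ₀ ≤ lam)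
    (hκl : κ < lam) {I : Type u} [Nonempty I] (U : Ultrafilter I) (hU : Cpl U κ)
    (hU0 : ∀ i, {i} ∉ U) (T : Type u) [L.Structure T] (hT : K.mem T) (h1 : #I ≤ #T)
    (h2 : #T < lam) : ∃ (T₁ : Type u) (_ : L.Structure T₁) (t : T ↪[L] T₁), K.emb t ∧
      #T₁ < lam ∧ ∃ y, y ∉ Set.range t := by
  classical
  let Λ : Type u := Set T
  letI : LinearOrder Λ := linearOrderOfSTO WellOrderingRel
  obtain ⟨t₀⟩ : Nonempty T := by
    rw [← Cardinal.mk_ne_zero_iff]
    intro h0
    rw [h0, nonpos_iff_eq_zero] at h1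
    exact (Cardinal.mk_ne_zero I) h1
  have hd : K.emb (dg (L := L) U Λ T) := emb_dg U hκ hU hT t₀
  have hlt : #T < #(Pw U Λ T) := by
    refine (Cardinal.cantor #T).trans_le ?_
    rw [← Cardinal.mk_set]
    exact card_pw (Λ := Λ) U hU0 h1
  obtain ⟨y, hy⟩ : ∃ y, y ∉ Set.range (dg (L := L) U Λ T) := by
    by_contra hn
    push Not at hn
    exact absurd (Cardinal.mk_le_of_surjective (f := dg (L := L) U Λ T) hn) (not_le.2 hlt)
  obtain ⟨A, a1, a2, a3⟩ := hκ.2.2 _ (K.emb_mem _ hd).2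
    (Set.range (dg (L := L) U Λ T) ∪ {y})
  have hA : ∀ x, dg (L := L) U Λ T x ∈ A := fun x => a1 (Or.inl ⟨x, rfl⟩)
  refine ⟨A, inferInstance, (dg (L := L) U Λ T).codRestrict A hA, emb_cod a2 _ hd hA, ?_,
    ⟨y, a1 (Or.inr rfl)⟩, ?_⟩
  · refine a3.trans_lt (Cardinal.add_lt_of_lt hl ?_ hκl)
    refine (Cardinal.mk_union_le _ _).trans_lt (Cardinal.add_lt_of_lt hl ?_ ?_)
    · exact Cardinal.mk_range_le.trans_lt h2
    · rw [Cardinal.mk_singleton]; exact Cardinal.one_lt_aleph0.trans_le hl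
  · rintro ⟨x, hx⟩
    exact hy ⟨x, congrArg Subtype.val hx⟩

/-- good approximations -/
def Gd (K : AEC L) {W : Type u} (χ lam : Cardinal.{u}) (p : Ps L W) : Prop :=
  K.mem p.S ∧ χ ≤ #p.S ∧ #p.S < lam

/-- the extension is as bad as possible -/
def Bad (K : AEC L) {W : Type u} (lam : Cardinal.{u}) (p q : Ps L W) : Prop :=
  ∀ e : p.S ↪[L] q.S, (∀ x, (e x).1 = x.1) → Nice K e →
    ∀ (T : Type u) [L.Structure T] (g : p.S ↪[L] T), K.emb g → #T < lam → Nice K g

theorem exists_F {K : AEC L} {κ lam : Cardinal.{u}} (hκ : K.LSat κ) (hl : ℵ₀ ≤ lam)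
    (hκl : κ < lam) {I : Type u} [Nonempty I] (U : Ultrafilter I) (hU : Cpl U κ)
    (hU0 : ∀ i, {i} ∉ U) {W : Type u} (hW : #W = lam) (p : Ps L W) (hp : Gd K #I lam p) :
    ∃ q : Ps L W, Gd K #I lam q ∧ Le K p q ∧ (∃ y ∈ q.S, y ∉ p.S) ∧ Bad K lam p q := by
  classical
  obtain ⟨p1, p2, p3⟩ := hp
  obtain ⟨T₀, i₀, g₀, h1, h2, h3⟩ : ∃ (T₀ : Type u) (_ : L.Structure T₀) (g₀ : p.S ↪[L] T₀),
      K.emb g₀ ∧ #T₀ < lam ∧ (Nice K g₀ → ∀ (T : Type u) [L.Structure T] (g : p.S ↪[L] T),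
        K.emb g → #T < lam → Nice K g) := by
    by_cases hn : ∀ (T : Type u) [L.Structure T] (g : p.S ↪[L] T), K.emb g → #T < lam → Nice K g
    · exact ⟨p.S, inferInstance, (Language.Equiv.refl L p.S).toEmbedding, K.emb_equiv _ p1, p3,
        fun _ => hn⟩
    · push Not at hn
      obtain ⟨T, iT, g, k1, k2, k3⟩ := hn
      exact ⟨T, iT, g, k1, k2, fun h => absurd h k3⟩
  have hT0 : #I ≤ #T₀ := p2.trans (Cardinal.mk_le_of_injective g₀.injective)
  obtain ⟨T₁, i₁, t, k1, k2, y, k3⟩ := exists_proper hκ hl hκl U hU hU0 T₀ (K.emb_mem _ h1).2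
    hT0 h2
  have hcomp : #T₁ ≤ #(p.Sᶜ : Set W) := by
    have : #(p.Sᶜ : Set W) = lam := by
      rw [← hW]
      have : Infinite W := by rw [Cardinal.infinite_iff, hW]; exact hl
      exact Cardinal.mk_compl_of_infinite p.S (by rw [hW]; exact p3)
    rw [this]; exact k2.le
  have hg : K.emb (t.comp g₀) := K.emb_comp _ _ k1 h1
  obtain ⟨q, q1, b, hb⟩ := exists_step p T₁ (t.comp g₀) hg hcomp
  refine ⟨q, ⟨q1.mem.2, ?_, ?_⟩, q1, ?_, ?_⟩
  · exact p2.trans (Cardinal.mk_le_mk_of_subset q1.sub)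
  · exact (Cardinal.mk_congr b.toEquiv).symm.le.trans_lt k2
  · refine ⟨(b y).1, (b y).2, fun hy => k3 ?_⟩
    have h4 : b ((t.comp g₀) ⟨(b y).1, hy⟩) = b y := Subtype.ext (hb _)
    exact ⟨g₀ ⟨(b y).1, hy⟩, b.injective h4⟩
  · intro e he hn
    apply h3
    have h5 : Nice K (t.comp g₀) := by
      have h6 : e = b.toEmbedding.comp (t.comp g₀) := by
        ext x
        exact (he x).trans (hb x).symm
      rw [h6] at hn
      exact nice_of_comp _ _ (K.emb_equiv b (K.emb_mem _ k1).2) hn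
    exact nice_of_comp _ _ k1 h5

section rec
variable {W O : Type u} [LinearOrder O] [WellFoundedLT O] (a : Ps L W) (F : Ps L W → Ps L W)

/-- the members of the chain below `i` -/
def Gn {i : O} (D : ∀ j, j < i → Ps L W) : WithBot (Set.Iio i) → Ps L W
  | none => a
  | some j => F (D j.1 j.2)

/-- the chain -/
noncomputable def Dn : O → Ps L W :=
  WellFounded.fix (C := fun _ => Ps L W) (wellFounded_lt (α := O)) fun _ D => Un (Gn a F D)

theorem Dn_eq (i : O) : Dn a F i = Un (Gn (i := i) a F fun j _ => Dn a F j) :=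
  WellFounded.fix_eq _ _ _

variable {K : AEC L} {χ lam : Cardinal.{u}} (ha : Gd K χ lam a)
  (hF : ∀ p, Gd K χ lam p → Gd K χ lam (F p) ∧ Le K p (F p))
  (hlam : lam.IsRegular) (hO : ∀ i : O, #(Set.Iio i) < lam)
include ha hF hlam hO

theorem Dn_main (i : O) : Gd K χ lam (Dn a F i) ∧ Le K a (Dn a F i) ∧
    ∀ j < i, Le K (F (Dn a F j)) (Dn a F i) := by
  induction i using WellFoundedLT.induction with
  | ind i ih =>
    have hch : ∀ z z' : WithBot (Set.Iio i), z ≤ z' →
        Le K (Gn (i := i) a F (fun j _ => Dn a F j) z) (Gn (i := i) a F (fun j _ => Dn a F j) z') := by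
      intro z z' hz
      induction z using WithBot.recBotCoe with
      | bot =>
        induction z' using WithBot.recBotCoe with
        | bot => exact Le.refl ha.1
        | coe j' => exact (ih j'.1 j'.2).2.1.trans (hF _ (ih j'.1 j'.2).1).2
      | coe j =>
        induction z' using WithBot.recBotCoe with
        | bot => simp at hz
        | coe j' =>
          rw [WithBot.coe_le_coe] at hz
          rcases hz.eq_or_lt with h | h
          · subst h; exact Le.refl (hF _ (ih j.1 j.2).1).1.1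
          · exact ((ih j'.1 j'.2).2.2 j.1 h).trans (hF _ (ih j'.1 j'.2).1).2
    have hun := fun z => le_un hch z
    rw [Dn_eq]
    have hun' : ∀ j (hj : j < i), Le K (F (Dn a F j)) (Un (Gn (i := i) a F fun j _ => Dn a F j)) :=
      fun j hj => hun (WithBot.some (⟨j, hj⟩ : Set.Iio i))
    refine ⟨⟨(hun ⊥).mem.2, ?_, ?_⟩, hun ⊥, hun'⟩
    · exact ha.2.1.trans (Cardinal.mk_le_mk_of_subset (hun ⊥).sub)
    · change #(⋃ z, (Gn (i := i) a F (fun j _ => Dn a F j) z).S : Set W) < lam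
      rw [Cardinal.card_iUnion_lt_iff_forall_of_isRegular hlam]
      · intro z
        induction z using WithBot.recBotCoe with
        | bot => exact ha.2.2
        | coe j => exact (hF _ (ih j.1 j.2).1).1.2.2
      · change #(Option (Set.Iio i)) < lam
        rw [Cardinal.mk_option]
        exact Cardinal.add_lt_of_lt hlam.1 (hO i) (Cardinal.one_lt_aleph0.trans_le hlam.1)

theorem Dn_chain (i j : O) (hij : i ≤ j) : Le K (F (Dn a F i)) (F (Dn a F j)) := by
  rcases hij.eq_or_lt with h | h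
  · subst h; exact Le.refl (hF _ (Dn_main a F ha hF hlam hO i).1).1.1
  · exact ((Dn_main a F ha hF hlam hO j).2.2 i h).trans
      (hF _ (Dn_main a F ha hF hlam hO j).1).2

theorem Dn_limit (i : O) (hi : ∃ j, j < i) (hl : ∀ j < i, ∃ k < i, j < k) (x : W)
    (hx : x ∈ (Dn a F i).S) : ∃ j < i, x ∈ (Dn a F j).S := by
  rw [Dn_eq] at hx
  obtain ⟨z, hz⟩ := Set.mem_iUnion.1 hx
  induction z using WithBot.recBotCoe with
  | bot =>
    obtain ⟨j, hj⟩ := hi
    exact ⟨j, hj, (Dn_main a F ha hF hlam hO j).2.1.sub hz⟩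
  | coe j =>
    obtain ⟨k, hk, hjk⟩ := hl j.1 j.2
    exact ⟨k, hk, ((Dn_main a F ha hF hlam hO k).2.2 j.1 hjk).sub hz⟩

end rec

end Pool.Agent.U66.UP
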