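import Pool.Agent.U66.UP.Rg
import Pool.Agent.U66.UP.Hf

set_option autoImplicit false
set_option linter.unusedSectionVars false

/-! Categoricity in a regular cardinal gives amalgamation below it. -/

namespace Pool.Agent.U66.UP

open Cardinal FirstOrder FirstOrder.Language
open Pool.Agent.H288R4.LS (AEC)

universe u

variable {L : FirstOrder.Language.{u, u}}

theorem bd {lam : Cardinal.{u}} (hreg : lam.IsRegular) {ι : Type u} (s : ι → lam.ord.ToType)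
    (hι : #ι < lam) : ∃ b, ∀ i, s i < b := by
  by_contra hn
  push Not at hn
  have h1 : (⋃ i, Set.Iic (s i)) = Set.univ := by
    ext b
    simp only [Set.mem_iUnion, Set.mem_Iic, Set.mem_univ, iff_true]
    exact hn b
  have h2 : ∀ x : lam.ord.ToType, #(Set.Iic x) < lam := by
    intro x
    have h3 : Set.Iic x ⊆ Set.Iio x ∪ {x} := by
      intro y hy
      rcases (Set.mem_Iic.1 hy).lt_or_eq with h | h
      · exact Or.inl h
      · exact Or.inr h
    refine (Cardinal.mk_le_mk_of_subset h3).trans_lt ((Cardinal.mk_union_le _ _).trans_lt ?_)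
    refine Cardinal.add_lt_of_lt hreg.1 (Cardinal.mk_Iio_toType_ord_lt x) ?_
    rw [Cardinal.mk_singleton]
    exact Cardinal.one_lt_aleph0.trans_le hreg.1
  have h3 := (Cardinal.card_iUnion_lt_iff_forall_of_isRegular (t := fun i => Set.Iic (s i))
    hreg hι).2 fun i => h2 _
  rw [h1, Cardinal.mk_univ, Cardinal.mk_ord_toType] at h3
  exact lt_irrefl _ h3

/-- the final segments of the reversed order -/
def Gm {lam : Cardinal.{u}} (i : lam.ord.ToType) : Set (lam.ord.ToType)ᵒᵈ :=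
  {a | OrderDual.ofDual a < i}

theorem up_Gm {lam : Cardinal.{u}} (i : lam.ord.ToType) : IsUpperSet (Gm i) := by
  intro a b hab ha
  exact lt_of_le_of_lt (OrderDual.ofDual_le_ofDual.2 hab) ha

theorem reg_wap {K : AEC L} {κ χ μ₀ lam : Cardinal.{u}} (hκ : K.LSat κ) (hχ : Measurable χ)
    (h1 : κ < χ) (h2 : χ ≤ μ₀) (h3 : μ₀ ^ χ < lam) (hreg : lam.IsRegular)
    (hcat : K.Categorical lam) : WAP K μ₀ := by
  classical
  obtain ⟨hχ0, I, U, hI, hU0, hU1⟩ := hχ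
  have hU : Cpl U κ := fun J hJ A hA => hU1 J A (hJ.trans_lt h1) hA
  have hIne : Nonempty I := by
    rw [← Cardinal.mk_ne_zero_iff, hI]
    exact (Cardinal.aleph0_pos.trans hχ0).ne'
  intro M N N' _ _ _ f f' hf hf' c0 c1 c2
  by_contra hn
  have hl0 : ℵ₀ ≤ lam := hreg.1
  have hμ0 : ℵ₀ ≤ μ₀ := hχ0.le.trans h2
  have hμl : μ₀ < lam := by
    refine lt_of_le_of_lt ?_ h3
    exact Cardinal.self_le_power _ (Cardinal.one_le_aleph0.trans hχ0.le)
  have hκl : κ < lam := h1.trans (h2.trans_lt hμl)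
  have hℵ : ℵ₀ < lam := (hχ0.trans_le h2).trans hμl
  obtain ⟨m₀⟩ : Nonempty M := by
    rw [← Cardinal.mk_ne_zero_iff, c0]
    exact (Cardinal.aleph0_pos.trans_le hμ0).ne'
  have hM := (K.emb_mem _ hf).1
  have hI0 : ℵ₀ ≤ #I := hI ▸ hχ0.le
  have hW : #(lam.ord.ToType) = lam := Cardinal.mk_ord_toType lam
  -- the model
  have hAm : K.mem (Pw U (lam.ord.ToType)ᵒᵈ M) := (K.emb_mem _ (emb_dg U hκ hU hM m₀)).2
  have hAc : #(Pw U (lam.ord.ToType)ᵒᵈ M) = lam := by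
    have hd : #((lam.ord.ToType)ᵒᵈ) = lam := hW
    apply le_antisymm
    · refine (card_pw_le U hI0 (c0 ▸ hμ0)).trans ?_
      rw [hd, hI, c0]
      exact Cardinal.mul_le_of_le hl0 (max_le hl0 le_rfl) h3.le
    · calc lam = #((lam.ord.ToType)ᵒᵈ) := hd.symm
        _ ≤ _ := card_pw U hU0 (by rw [hI, c0]; exact h2)
  have hsm : ∀ (T : Type u) (i : lam.ord.ToType), #T = μ₀ → #(Pw U ↥(Gm i) T) < lam := by
    intro T i hT
    refine (card_pw_le U hI0 (hT ▸ hμ0)).trans_lt ?_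
    rw [hI, hT]
    refine Cardinal.mul_lt_of_lt hl0 (max_lt hℵ ?_) h3
    exact Cardinal.mk_Iio_toType_ord_lt i
  -- the chain
  obtain ⟨aS, iaS, ⟨ae⟩⟩ := exists_copy (L := L) (J := lam.ord.ToType) M
    (by rw [hW, c0]; exact hμl.le)
  let a : Ps L (lam.ord.ToType) := ⟨aS, iaS⟩
  have hane : Nonempty (Ps L (lam.ord.ToType)) := ⟨a⟩
  have hac : #aS = μ₀ := (Cardinal.mk_congr ae.toEquiv).symm.trans c0
  have ha : Gd K #I lam a := ⟨(K.emb_mem _ (K.emb_equiv ae hM)).2, by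
    change #I ≤ #aS
    rw [hI, hac]; exact h2, by
    change #aS < lam
    rw [hac]; exact hμl⟩
  have hex := fun (p : Ps L (lam.ord.ToType)) (hp : Gd K #I lam p) =>
    exists_F hκ hl0 hκl U hU hU0 hW p hp
  choose! F hF using hex
  have hF' : ∀ p, Gd K #I lam p → Gd K #I lam (F p) ∧ Le K p (F p) := fun p hp =>
    ⟨(hF p hp).1, (hF p hp).2.1⟩
  have hO : ∀ i : lam.ord.ToType, #(Set.Iio i) < lam := fun i => Cardinal.mk_Iio_toType_ord_lt i
  have hD := Dn_main a F ha hF' hreg hO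
  have hch := Dn_chain a F ha hF' hreg hO
  have hlim := Dn_limit a F ha hF' hreg hO
  have hOne : Nonempty lam.ord.ToType := by
    rw [← Cardinal.mk_ne_zero_iff, hW]
    exact (Cardinal.aleph0_pos.trans_le hl0).ne'
  have hDle : ∀ i j : lam.ord.ToType, i ≤ j → (Dn a F i).S ⊆ (Dn a F j).S := by
    intro i j hij
    rcases hij.eq_or_lt with h | h
    · subst h; exact subset_rfl
    · exact ((hF' _ (hD i).1).2.trans ((hD j).2.2 i h)).sub
  let D : Ps L (lam.ord.ToType) := Un fun i : lam.ord.ToType => F (Dn a F i)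
  have hleD : ∀ i : lam.ord.ToType, Le K (F (Dn a F i)) D := le_un hch
  have hDc : #D.S = lam := by
    apply le_antisymm
    · exact (Cardinal.mk_set_le _).trans hW.le
    · choose y hy1 hy2 using fun i : lam.ord.ToType => (hF _ (hD i).1).2.2.1
      have hlt : ∀ i j : lam.ord.ToType, i < j → y i ≠ y j := fun i j hij h =>
        hy2 j (h ▸ ((hD j).2.2 i hij).sub (hy1 i))
      refine hW.symm.le.trans (Cardinal.mk_le_of_injective
        (f := fun i : lam.ord.ToType => (⟨y i, (hleD i).sub (hy1 i)⟩ : D.S)) ?_)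
      intro i j h
      have h' : y i = y j := congrArg Subtype.val h
      rcases lt_trichotomy i j with hij | hij | hij
      · exact absurd h' (hlt i j hij)
      · exact hij
      · exact absurd h'.symm (hlt j i hij)
  have hDm : K.mem D.S := (hleD (Classical.arbitrary _)).mem.2
  obtain ⟨e⟩ := hcat.2 D.S (Pw U (lam.ord.ToType)ᵒᵈ M) hDm hAm hDc hAc
  -- filtration of the second model
  let R : lam.ord.ToType → Set (Pw U (lam.ord.ToType)ᵒᵈ M) := fun i =>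
    Set.range (jj (L := L) U (up_Gm i) M)
  have hR : ∀ i q, q ∈ R i ↔ ∃ f : FS (lam.ord.ToType)ᵒᵈ I M, mk U f = q ∧
      ∃ s : Finset (lam.ord.ToType)ᵒᵈ, (∀ a ∈ s, a ∈ Gm i) ∧ Sp s f.1 := fun i q =>
    range_jj U (up_Gm i) q
  have hRle : ∀ i j : lam.ord.ToType, i ≤ j → R i ⊆ R j := by
    intro i j hij q hq
    obtain ⟨f, h4, s, h5, h6⟩ := (hR i q).1 hq
    exact (hR j q).2 ⟨f, h4, s, fun a ha => lt_of_lt_of_le (h5 a ha) hij, h6⟩
  have hfin : ∀ (s : Finset (lam.ord.ToType)ᵒᵈ), ∃ b : lam.ord.ToType, ∀ a ∈ s,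
      OrderDual.ofDual a < b := by
    intro s
    obtain ⟨b, hb⟩ := bd hreg (ι := {a // a ∈ s}) (fun a => OrderDual.ofDual a.1)
      ((Cardinal.lt_aleph0_of_finite _).trans_le hl0)
    exact ⟨b, fun a ha => hb ⟨a, ha⟩⟩
  have hRall : ∀ q, ∃ i, q ∈ R i := by
    intro q
    obtain ⟨f, rfl⟩ := mk_surj U q
    obtain ⟨s, hs⟩ := f.2
    obtain ⟨b, hb⟩ := hfin s
    exact ⟨b, (hR b _).2 ⟨f, rfl, s, hb, hs⟩⟩
  have hDall : ∀ x : D.S, ∃ i : lam.ord.ToType, x.1 ∈ (Dn a F i).S := by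
    intro x
    obtain ⟨i, hi⟩ := Set.mem_iUnion.1 x.2
    obtain ⟨j, hj⟩ := bd hreg (ι := PUnit) (fun _ => i) (by
      rw [Cardinal.mk_punit]; exact Cardinal.one_lt_aleph0.trans_le hl0)
    exact ⟨j, ((hD j).2.2 i (hj PUnit.unit)).sub hi⟩
  have hRc : ∀ i : lam.ord.ToType, #(R i) < lam := fun i => Cardinal.mk_range_le.trans_lt (hsm M i c0)
  have hsubD : ∀ i : lam.ord.ToType, (Dn a F i).S ⊆ D.S := fun i => ((hF' _ (hD i).1).2.trans (hleD i)).sub
  choose ra hra using fun x : D.S => hRall (e x)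
  choose rb hrb using fun q => hDall (e.symm q)
  have hstep : ∀ i : lam.ord.ToType, ∃ j, i < j ∧ (∀ x : D.S, x.1 ∈ (Dn a F i).S → e x ∈ R j) ∧
      ∀ q ∈ R i, (e.symm q).1 ∈ (Dn a F j).S := by
    intro i
    let s : ((Dn a F i).S ⊕ R i) ⊕ PUnit.{u+1} → lam.ord.ToType :=
      Sum.elim (Sum.elim (fun x => ra ⟨x.1, hsubD i x.2⟩) fun q => rb q.1) fun _ => i
    obtain ⟨j, hj⟩ := bd hreg s (by
      rw [Cardinal.mk_sum, Cardinal.mk_sum, Cardinal.lift_id, Cardinal.lift_id, Cardinal.lift_id,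
        Cardinal.lift_id, Cardinal.mk_punit]
      exact Cardinal.add_lt_of_lt hl0 (Cardinal.add_lt_of_lt hl0 (hD i).1.2.2 (hRc i))
        (Cardinal.one_lt_aleph0.trans_le hl0))
    refine ⟨j, hj (Sum.inr PUnit.unit), fun x hx => ?_, fun q hq => ?_⟩
    · exact hRle _ _ (hj (Sum.inl (Sum.inl ⟨x.1, hx⟩))).le (hra x)
    · exact hDle _ _ (hj (Sum.inl (Sum.inr ⟨q, hq⟩))).le (hrb q)
  choose st st1 st2 st3 using hstep
  let sq : ℕ → lam.ord.ToType := fun n => n.rec (Classical.arbitrary _) fun _ i => st i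
  have hsq : ∀ n, sq (n + 1) = st (sq n) := fun n => rfl
  have hsl : ∀ n, sq n < sq (n + 1) := fun n => st1 (sq n)
  have hmono : StrictMono sq := strictMono_nat_of_lt_succ hsl
  obtain ⟨b, hb⟩ := bd hreg (fun n : ULift.{u} ℕ => sq n.down) (by
    rw [Cardinal.mk_uLift, Cardinal.mk_nat, Cardinal.lift_aleph0]; exact hℵ)
  obtain ⟨δ, hδ1, hδ2⟩ : ∃ δ : lam.ord.ToType, (∀ n, sq n < δ) ∧ ∀ j < δ, ∃ n, j ≤ sq n := by
    have hne : {b | ∀ n, sq n < b}.Nonempty := ⟨b, fun n => hb ⟨n⟩⟩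
    refine ⟨WellFounded.min (wellFounded_lt (α := lam.ord.ToType)) _ hne,
      WellFounded.min_mem _ _ hne, fun j hj => ?_⟩
    by_contra hn'
    push Not at hn'
    exact WellFounded.not_lt_min (wellFounded_lt (α := lam.ord.ToType)) _
      (show j ∈ {b | ∀ n, sq n < b} from hn') hj
  have hδD : ∀ x ∈ (Dn a F δ).S, ∃ n, x ∈ (Dn a F (sq n)).S := by
    intro x hx
    obtain ⟨j, hj, hxj⟩ := hlim δ ⟨sq 0, hδ1 0⟩ (fun j hj => by
      obtain ⟨n, hn⟩ := hδ2 j hj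
      exact ⟨sq (n + 1), hδ1 (n + 1), hn.trans_lt (hsl n)⟩) x hx
    obtain ⟨n, hn⟩ := hδ2 j hj
    exact ⟨n, hDle _ _ hn hxj⟩
  have hδR : ∀ q ∈ R δ, ∃ n, q ∈ R (sq n) := by
    intro q hq
    obtain ⟨f, h4, s, h5, h6⟩ := (hR δ q).1 hq
    choose! n hn using fun (a : (lam.ord.ToType)ᵒᵈ) (ha : a ∈ s) => hδ2 _ (h5 a ha)
    refine ⟨s.sup n + 1, (hR _ q).2 ⟨f, h4, s, fun a ha => ?_, h6⟩⟩
    exact (hn a ha).trans_lt (hmono (Nat.lt_succ_of_le (Finset.le_sup ha)))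
  obtain ⟨e₀, he₀, hke₀⟩ := (hF' _ (hD δ).1).2
  obtain ⟨g, hg, hkg⟩ := hleD δ
  have hmA : K.emb e.toEmbedding := K.emb_equiv e hDm
  let p := (e.toEmbedding.comp g).comp e₀
  have hpv : ∀ x : (Dn a F δ).S, p x = e ⟨x.1, hsubD δ x.2⟩ := by
    intro x
    change e (g (e₀ x)) = _
    congr 1
    exact Subtype.ext ((hg _).trans (he₀ _))
  have hrange : Set.range p = Set.range (jj (L := L) U (up_Gm δ) M) := by
    apply Set.Subset.antisymm
    · rintro _ ⟨x, rfl⟩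
      rw [hpv]
      obtain ⟨n, hn⟩ := hδD x.1 x.2
      exact hRle _ _ (hδ1 (n + 1)).le (st2 (sq n) ⟨x.1, hsubD δ x.2⟩ hn)
    · intro q hq
      obtain ⟨n, hn⟩ := hδR q hq
      have h4 : (e.symm q).1 ∈ (Dn a F δ).S := hDle _ _ (hδ1 (n + 1)).le (st3 (sq n) q hn)
      refine ⟨⟨(e.symm q).1, h4⟩, ?_⟩
      rw [hpv]
      change e (e.symm q) = q
      simp
  obtain ⟨a', ha'⟩ := exists_iso p (jj (L := L) U (up_Gm δ) M) hrange
  have hmP : K.mem (Pw U ↥(Gm δ) M) := (K.emb_mem _ (emb_dg U hκ hU hM m₀)).2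
  have hnice : Nice K (jj (L := L) U (up_Gm δ) M) := nice_jj U hκ hU (up_Gm δ) hM m₀
  have hp : p = (jj (L := L) U (up_Gm δ) M).comp a'.toEmbedding := by
    ext x
    exact (ha' x).symm
  have hnp : Nice K p := by
    rw [hp]
    exact nice_pre' a' _ hmP hnice
  have hn0 : Nice K e₀ := nice_of_comp _ _ (K.emb_comp _ _ hmA hkg) hnp
  have hkpm : K.emb (pmap (Λ := ↥(Gm δ)) U f) := emb_pmap U hκ hU f hf m₀
  have hDδ : K.mem (Dn a F δ).S := (hD δ).1.1
  have hn1 := (hF _ (hD δ).1).2.2.2 e₀ he₀ hn0 (Pw U ↥(Gm δ) N)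
    ((pmap (Λ := ↥(Gm δ)) U f).comp a'.toEmbedding)
    (K.emb_comp _ _ hkpm (K.emb_equiv a' hDδ)) (hsm N δ c1)
  have hn2 := nice_pre a' _ hmP hn1
  obtain ⟨Q, iQ, u, v, h4, h5, h6⟩ := hn2 _ (pmap (Λ := ↥(Gm δ)) U f')
    (emb_pmap U hκ hU f' hf' m₀)
  apply hn
  refine ⟨Q, iQ, u.comp (dg (L := L) U ↥(Gm δ) N), v.comp (dg (L := L) U ↥(Gm δ) N'),
    K.emb_comp _ _ h4 (emb_dg U hκ hU (K.emb_mem _ hf).2 (f m₀)),
    K.emb_comp _ _ h5 (emb_dg U hκ hU (K.emb_mem _ hf').2 (f' m₀)), fun x => ?_⟩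
  have h7 := h6 (dg (L := L) U ↥(Gm δ) M x)
  rw [pmap_dg, pmap_dg] at h7
  exact h7

end Pool.Agent.U66.UP
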