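import Pool.Agent.U66.UP.Pow

set_option autoImplicit false
set_option linter.unusedSectionVars false

/-! Limit ultrapowers and upper sets of the index order. -/

namespace Pool.Agent.U66.UP

open Cardinal FirstOrder FirstOrder.Language

universe u

variable {Λ I : Type u} [LinearOrder Λ] (U : Ultrafilter I) {Γ : Set Λ}

open Classical in
/-- glue assignments -/
noncomputable def glue (x₁ : ↥Γᶜ → I) (x₂ : ↥Γ → I) : Λ → I :=
  fun a => if h : a ∈ Γ then x₂ ⟨a, h⟩ else x₁ ⟨a, h⟩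

theorem glue_mem (x₁ : ↥Γᶜ → I) (x₂ : ↥Γ → I) (a : ↥Γ) : glue x₁ x₂ a.1 = x₂ a :=
  dif_pos a.2

theorem glue_not (x₁ : ↥Γᶜ → I) (x₂ : ↥Γ → I) (a : ↥Γᶜ) : glue x₁ x₂ a.1 = x₁ a :=
  dif_neg a.2

theorem glue_up2 (x₁ : ↥Γᶜ → I) (x₂ : ↥Γ → I) (b : ↥Γ) (i : I) :
    Function.update (glue x₁ x₂) b.1 i = glue x₁ (Function.update x₂ b i) := by
  funext a
  by_cases ha : a ∈ Γ
  · have h1 := glue_mem x₁ (Function.update x₂ b i) ⟨a, ha⟩
    simp only at h1
    rw [h1]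
    by_cases hab : a = b.1
    · subst hab; simp
    · rw [Function.update_of_ne hab, Function.update_of_ne (by
        intro h; exact hab (congrArg Subtype.val h))]
      exact glue_mem x₁ x₂ ⟨a, ha⟩
  · have hab : a ≠ b.1 := by rintro rfl; exact ha b.2
    rw [Function.update_of_ne hab]
    exact (glue_not x₁ x₂ ⟨a, ha⟩).trans
      (glue_not x₁ (Function.update x₂ b i) ⟨a, ha⟩).symm

theorem glue_up1 (x₁ : ↥Γᶜ → I) (x₂ : ↥Γ → I) (b : ↥Γᶜ) (i : I) :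
    Function.update (glue x₁ x₂) b.1 i = glue (Function.update x₁ b i) x₂ := by
  funext a
  by_cases ha : a ∈ Γ
  · have hab : a ≠ b.1 := by rintro rfl; exact b.2 ha
    rw [Function.update_of_ne hab]
    exact (glue_mem x₁ x₂ ⟨a, ha⟩).trans
      (glue_mem (Function.update x₁ b i) x₂ ⟨a, ha⟩).symm
  · have h1 := glue_not (Function.update x₁ b i) x₂ ⟨a, ha⟩
    simp only at h1
    rw [h1]
    by_cases hab : a = b.1
    · subst hab; simp
    · rw [Function.update_of_ne hab, Function.update_of_ne (by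
        intro h; exact hab (congrArg Subtype.val h))]
      exact glue_not x₁ x₂ ⟨a, ha⟩

theorem glue_eta (x : Λ → I) : glue (Γ := Γ) (fun a => x a.1) (fun a => x a.1) = x := by
  funext a
  by_cases ha : a ∈ Γ
  · exact glue_mem (fun a : ↥Γᶜ => x a.1) (fun a : ↥Γ => x a.1) ⟨a, ha⟩
  · exact glue_not (fun a : ↥Γᶜ => x a.1) (fun a : ↥Γ => x a.1) ⟨a, ha⟩

theorem upd_eq {α β : Type*} (i1 i2 : DecidableEq α) (f : α → β) (a : α) (b : β) :
    @Function.update α (fun _ => β) i1 f a b = @Function.update α (fun _ => β) i2 f a b := by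
  have h : i1 = i2 := Subsingleton.elim i1 i2
  subst h
  rfl

theorem Ev_split (l₁ : List ↥Γᶜ) (l₂ : List ↥Γ) (P : (Λ → I) → Prop) :
    ∀ (x₁ : ↥Γᶜ → I) (x₂ : ↥Γ → I),
      (Ev U (l₁.map Subtype.val ++ l₂.map Subtype.val) P (glue x₁ x₂) ↔
        Ev U l₁ (fun y₁ => Ev U l₂ (fun y₂ => P (glue y₁ y₂)) x₂) x₁) := by
  induction l₁ with
  | nil =>
    intro x₁
    simp only [List.map_nil, List.nil_append, Ev]
    induction l₂ with
    | nil => intro x₂; exact Iff.rfl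
    | cons b l₂ ih =>
      intro x₂
      simp only [List.map_cons, Ev, glue_up2, ih]
      refine Filter.eventually_congr (Filter.Eventually.of_forall fun i => ?_)
      exact iff_of_eq (congrArg (Ev U l₂ (fun y₂ => P (glue x₁ y₂))) (upd_eq _ _ x₂ b i))
  | cons b l₁ ih =>
    intro x₁ x₂
    simp only [List.map_cons, List.cons_append, Ev, glue_up1, ih]
    refine Filter.eventually_congr (Filter.Eventually.of_forall fun i => ?_)
    exact iff_of_eq (congrArg (Ev U l₁ (fun y₁ => Ev U l₂ (fun y₂ => P (glue y₁ y₂)) x₂))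
      (upd_eq _ _ x₁ b i))

theorem sort_split (hΓ : IsUpperSet Γ) (s : Finset Λ) :
    ∃ (s₁ : Finset ↥Γᶜ) (s₂ : Finset ↥Γ), (∀ a, a ∈ s₁ ↔ a.1 ∈ s) ∧ (∀ a, a ∈ s₂ ↔ a.1 ∈ s) ∧
      s.sort (· ≤ ·) = (s₁.sort (· ≤ ·)).map Subtype.val ++ (s₂.sort (· ≤ ·)).map Subtype.val := by
  classical
  refine ⟨s.subtype (· ∈ Γᶜ), s.subtype (· ∈ Γ), fun a => by simp, fun a => by simp, ?_⟩
  apply List.Perm.eq_of_pairwise (le := (· ≤ ·))
  · intro a b _ _ hab hba; exact le_antisymm hab hba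
  · exact Finset.pairwise_sort s (· ≤ ·)
  · rw [List.pairwise_append]
    refine ⟨?_, ?_, ?_⟩
    · rw [List.pairwise_map]
      exact (Finset.pairwise_sort _ (· ≤ ·)).imp fun h => h
    · rw [List.pairwise_map]
      exact (Finset.pairwise_sort _ (· ≤ ·)).imp fun h => h
    · intro a ha b hb
      simp only [List.mem_map, Finset.mem_sort] at ha hb
      obtain ⟨a', -, rfl⟩ := ha
      obtain ⟨b', -, rfl⟩ := hb
      by_contra hn
      exact a'.2 (hΓ (not_le.1 hn).le b'.2)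
  · apply (List.perm_ext_iff_of_nodup (Finset.sort_nodup s _) ?_).2
    · intro a
      simp only [Finset.mem_sort, List.mem_append, List.mem_map, Finset.mem_subtype]
      constructor
      · intro ha
        by_cases h : a ∈ Γ
        · exact Or.inr ⟨⟨a, h⟩, ha, rfl⟩
        · exact Or.inl ⟨⟨a, h⟩, ha, rfl⟩
      · rintro (⟨b, hb, rfl⟩ | ⟨b, hb, rfl⟩) <;> exact hb
    · rw [List.nodup_append]
      refine ⟨(Finset.sort_nodup _ _).map Subtype.val_injective,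
        (Finset.sort_nodup _ _).map Subtype.val_injective, ?_⟩
      intro a ha b hb hab
      simp only [List.mem_map, Finset.mem_sort] at ha hb
      obtain ⟨a', -, rfl⟩ := ha
      obtain ⟨b', -, rfl⟩ := hb
      exact a'.2 (hab ▸ b'.2)

theorem glue_congr {β : Type*} {s : Finset Λ} {P : (Λ → I) → β} (hP : Sp s P)
    {s₁ : Finset ↥Γᶜ} {s₂ : Finset ↥Γ} (h1 : ∀ a, a ∈ s₁ ↔ a.1 ∈ s) (h2 : ∀ a, a ∈ s₂ ↔ a.1 ∈ s)
    {x₁ y₁ : ↥Γᶜ → I} {x₂ y₂ : ↥Γ → I} (e1 : ∀ a ∈ s₁, x₁ a = y₁ a) (e2 : ∀ a ∈ s₂, x₂ a = y₂ a) :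
    P (glue x₁ x₂) = P (glue y₁ y₂) := by
  apply hP
  intro a ha
  by_cases h : a ∈ Γ
  · rw [show a = (⟨a, h⟩ : ↥Γ).1 from rfl, glue_mem, glue_mem]
    exact e2 _ ((h2 _).2 ha)
  · rw [show a = (⟨a, h⟩ : ↥Γᶜ).1 from rfl, glue_not, glue_not]
    exact e1 _ ((h1 _).2 ha)

theorem exists_split (s : Finset Λ) : ∃ (s₁ : Finset ↥Γᶜ) (s₂ : Finset ↥Γ),
    (∀ a, a ∈ s₁ ↔ a.1 ∈ s) ∧ (∀ a, a ∈ s₂ ↔ a.1 ∈ s) := by
  classical
  exact ⟨s.subtype (· ∈ Γᶜ), s.subtype (· ∈ Γ), fun a => by simp, fun a => by simp⟩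

variable [Nonempty I]

theorem E_split (hΓ : IsUpperSet Γ) {P : (Λ → I) → Prop} (hP : ∃ s : Finset Λ, Sp s P) :
    E U P ↔ E U (fun x₁ : ↥Γᶜ → I => E U (fun x₂ : ↥Γ → I => P (glue x₁ x₂))) := by
  obtain ⟨s, hs⟩ := hP
  obtain ⟨s₁, s₂, h1, h2, h3⟩ := sort_split hΓ s
  obtain ⟨x₁⟩ : Nonempty (↥Γᶜ → I) := inferInstance
  obtain ⟨x₂⟩ : Nonempty (↥Γ → I) := inferInstance
  have k1 : ∀ y₁ : ↥Γᶜ → I, Sp s₂ (fun y₂ : ↥Γ → I => P (glue y₁ y₂)) := fun y₁ y z hyz =>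
    glue_congr hs h1 h2 (fun a _ => rfl) hyz
  have k2 : Sp s₁ (fun y₁ : ↥Γᶜ → I => E U (fun y₂ : ↥Γ → I => P (glue y₁ y₂))) := by
    intro y z hyz
    have : (fun y₂ : ↥Γ → I => P (glue y y₂)) = fun y₂ => P (glue z y₂) := by
      funext y₂
      exact glue_congr hs h1 h2 hyz (fun a _ => rfl)
    simp only [this]
  rw [E_iff U hs subset_rfl (glue x₁ x₂), h3, Ev_split, E_iff U k2 subset_rfl x₁]
  have : (fun y₁ : ↥Γᶜ → I => Ev U (s₂.sort (· ≤ ·)) (fun y₂ => P (glue y₁ y₂)) x₂) =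
      fun y₁ => E U (fun y₂ : ↥Γ → I => P (glue y₁ y₂)) := by
    funext y₁
    exact propext (E_iff U (k1 y₁) subset_rfl x₂).symm
  rw [this]

section maps
variable {M : Type u}

/-- section of a function -/
noncomputable def sec (f : FS Λ I M) (x₁ : ↥Γᶜ → I) : FS ↥Γ I M :=
  ⟨fun x₂ => f.1 (glue x₁ x₂), by
    obtain ⟨s, hs⟩ := f.2
    obtain ⟨s₁, s₂, h1, h2⟩ := exists_split (Γ := Γ) s
    exact ⟨s₂, fun y z hyz => glue_congr hs h1 h2 (fun a _ => rfl) hyz⟩⟩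

theorem sec_sp (f : FS Λ I M) : ∃ s : Finset ↥Γᶜ, Sp s (fun x₁ : ↥Γᶜ → I => sec f x₁) := by
  obtain ⟨s, hs⟩ := f.2
  obtain ⟨s₁, s₂, h1, h2⟩ := exists_split (Γ := Γ) s
  refine ⟨s₁, fun y z hyz => Subtype.ext ?_⟩
  funext x₂
  exact glue_congr hs h1 h2 hyz (fun a _ => rfl)

theorem sp_comp' {Λ' I' : Type u} {β γ : Type*} {F : (Λ' → I') → β} (h : ∃ s : Finset Λ', Sp s F)
    (G : β → γ) : ∃ s : Finset Λ', Sp s (fun x => G (F x)) := by
  obtain ⟨s, hs⟩ := h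
  exact ⟨s, fun x y hxy => by simp only [hs x y hxy]⟩

/-- the double function -/
noncomputable def dbl (f : FS Λ I M) : FS ↥Γᶜ I (Pw U ↥Γ M) :=
  ⟨fun x₁ => mk U (sec f x₁), sp_comp' (sec_sp f) _⟩

variable {L : FirstOrder.Language.{u, u}} [L.Structure M] (hΓ : IsUpperSet Γ)

theorem dbl_eq (f g : FS Λ I M) : mk U (dbl (Γ := Γ) U f) = mk U (dbl U g) ↔
    E U (fun x₁ : ↥Γᶜ → I => E U (fun x₂ : ↥Γ → I => f.1 (glue x₁ x₂) = g.1 (glue x₁ x₂))) := by
  rw [mk_eq]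
  have : (fun x₁ : ↥Γᶜ → I => (dbl (Γ := Γ) U f).1 x₁ = (dbl U g).1 x₁) = fun x₁ =>
      E U (fun x₂ : ↥Γ → I => f.1 (glue x₁ x₂) = g.1 (glue x₁ x₂)) := by
    funext x₁
    exact propext (mk_eq U)
  rw [this]

include hΓ in
theorem dbl_eq' (f g : FS Λ I M) : mk U (dbl (Γ := Γ) U f) = mk U (dbl U g) ↔
    mk U f = mk U g := by
  rw [dbl_eq, mk_eq]
  exact (E_split U hΓ (sp_eq f g)).symm

/-- the embedding into the iterated ultrapower -/
noncomputable def th (hΓ : IsUpperSet Γ) (M : Type u) [L.Structure M] :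
    Pw U Λ M ↪[L] Pw U ↥Γᶜ (Pw U ↥Γ M) where
  toFun q := mk U (dbl U (rp U q))
  inj' q r h := by
    have := (dbl_eq' U hΓ (rp U q) (rp U r)).1 h
    rwa [mk_rp, mk_rp] at this
  map_fun' {n} F v := by
    have h1 : mk U (dbl (Γ := Γ) U (rp U (mk U (appF F fun k => rp U (v k))))) =
        mk U (dbl U (appF F fun k => rp U (v k))) := by
      rw [dbl_eq' U hΓ, mk_rp]
    change mk U (dbl (Γ := Γ) U (rp U (mk U (appF F fun k => rp U (v k))))) = _
    rw [h1]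
    have h2 : ((fun q => mk U (dbl (Γ := Γ) U (rp U q))) ∘ v) =
        fun k => mk U (dbl (Γ := Γ) U (rp U (v k))) := rfl
    rw [h2, fun_mk]
    congr 1
    apply Subtype.ext
    funext x₁
    change mk U (sec (appF F fun k => rp U (v k)) x₁) =
      Structure.funMap F fun k => mk U (sec (rp U (v k)) x₁)
    rw [fun_mk]
    rfl
  map_rel' {n} R v := by
    have h2 : ((fun q => mk U (dbl (Γ := Γ) U (rp U q))) ∘ v) =
        fun k => mk U (dbl (Γ := Γ) U (rp U (v k))) := rfl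
    rw [h2, rel_mk]
    have h3 : (fun x₁ : ↥Γᶜ → I => Structure.RelMap R fun k =>
        (dbl (Γ := Γ) U (rp U (v k))).1 x₁) = fun x₁ =>
        E U (fun x₂ : ↥Γ → I => Structure.RelMap R fun k => (rp U (v k)).1 (glue x₁ x₂)) := by
      funext x₁
      exact propext (rel_mk U R fun k => sec (rp U (v k)) x₁)
    rw [h3]
    exact (E_split U hΓ (sp_rel R fun k => rp U (v k))).symm

theorem th_mk (f : FS Λ I M) : th (L := L) U hΓ M (mk U f) = mk U (dbl U f) := by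
  change mk U (dbl (Γ := Γ) U (rp U (mk U f))) = _
  rw [dbl_eq' U hΓ, mk_rp]

/-- a function of fewer coordinates -/
def up (g : FS ↥Γ I M) : FS Λ I M :=
  ⟨fun x => g.1 fun a => x a.1, by
    classical
    obtain ⟨s, hs⟩ := g.2
    exact ⟨s.image Subtype.val, fun x y hxy => hs _ _ fun a ha =>
      hxy a.1 (Finset.mem_image_of_mem _ ha)⟩⟩

theorem sec_up (g : FS ↥Γ I M) (x₁ : ↥Γᶜ → I) : sec (up g) x₁ = g := by
  apply Subtype.ext
  funext x₂
  have h : (fun a : ↥Γ => glue x₁ x₂ a.1) = x₂ := by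
    funext a
    exact glue_mem x₁ x₂ a
  change g.1 (fun a => glue x₁ x₂ a.1) = g.1 x₂
  rw [h]

theorem dbl_up (g : FS ↥Γ I M) : dbl (Γ := Γ) U (up g) = cst ↥Γᶜ I (mk U g) := by
  apply Subtype.ext
  funext x₁
  change mk U (sec (up g) x₁) = mk U g
  rw [sec_up]

/-- the ultrapower along an upper set -/
noncomputable def jj (hΓ : IsUpperSet Γ) (M : Type u) [L.Structure M] :
    Pw U ↥Γ M ↪[L] Pw U Λ M where
  toFun q := mk U (up (rp U q))
  inj' q r h := by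
    have h1 := (dbl_eq' U hΓ _ _).2 h
    rw [dbl_up, dbl_up, mk_rp, mk_rp] at h1
    exact (dg (L := L) U ↥Γᶜ (Pw U ↥Γ M)).injective h1
  map_fun' {n} F v := by
    apply (th (L := L) U hΓ M).injective
    rw [(th (L := L) U hΓ M).map_fun]
    have h2 : (th (L := L) U hΓ M) ∘ ((fun q => mk U (up (rp U q))) ∘ v) =
        fun k => dg (L := L) U ↥Γᶜ (Pw U ↥Γ M) (v k) := by
      funext k
      change th (L := L) U hΓ M (mk U (up (rp U (v k)))) = _
      rw [th_mk, dbl_up, mk_rp]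
      rfl
    rw [h2, th_mk, dbl_up, mk_rp]
    exact (dg (L := L) U ↥Γᶜ (Pw U ↥Γ M)).map_fun F v
  map_rel' {n} R v := by
    rw [← (th (L := L) U hΓ M).map_rel]
    have h2 : (th (L := L) U hΓ M) ∘ ((fun q => mk U (up (rp U q))) ∘ v) =
        fun k => dg (L := L) U ↥Γᶜ (Pw U ↥Γ M) (v k) := by
      funext k
      change th (L := L) U hΓ M (mk U (up (rp U (v k)))) = _
      rw [th_mk, dbl_up, mk_rp]
      rfl
    rw [h2]
    exact (dg (L := L) U ↥Γᶜ (Pw U ↥Γ M)).map_rel R v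

theorem th_jj (q : Pw U ↥Γ M) : th (L := L) U hΓ M (jj (L := L) U hΓ M q) =
    dg (L := L) U ↥Γᶜ (Pw U ↥Γ M) q := by
  change th (L := L) U hΓ M (mk U (up (rp U q))) = _
  rw [th_mk, dbl_up, mk_rp]
  rfl

theorem jj_mk (g : FS ↥Γ I M) : jj (L := L) U hΓ M (mk U g) = mk U (up g) := by
  apply (th (L := L) U hΓ M).injective
  rw [th_jj, th_mk, dbl_up]
  rfl

end maps

end Pool.Agent.U66.UP
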