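import Pool.Agent.U66.UP.Hf

set_option autoImplicit false
set_option linter.unusedSectionVars false

/-! A Hanf number for Galois stability. -/

namespace Pool.Agent.U66.UP

open Cardinal FirstOrder FirstOrder.Language
open Pool.Agent.H288R4.LS (AEC)

universe u

variable {L : FirstOrder.Language.{u, u}}

/-- `a` in `N` and `a'` in `N'` have the same Galois type over `M` -/
def SameType (K : AEC L) {M N N' : Type u} [L.Structure M] [L.Structure N] [L.Structure N']
    (f : M ↪[L] N) (a : N) (f' : M ↪[L] N') (a' : N') : Prop :=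
  ∃ (Q : Type u) (_ : L.Structure Q) (g : N ↪[L] Q) (g' : N' ↪[L] Q),
    K.emb g ∧ K.emb g' ∧ (∀ x, g (f x) = g' (f' x)) ∧ g a = g' a'

/-- Galois stability in `μ`: every family of elements of strong extensions of a member `M` of size
`μ` with pairwise different Galois types over `M` has at most `μ` members -/
def Stable (K : AEC L) (μ : Cardinal.{u}) : Prop :=
  ∀ (M : Type u) [L.Structure M], #M = μ →
    ∀ (J : Type u) (N : J → Type u) [∀ j, L.Structure (N j)] (f : ∀ j, M ↪[L] N j)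
      (a : ∀ j, N j), (∀ j, K.emb (f j)) →
      (∀ i j, i ≠ j → ¬ SameType K (f i) (a i) (f j) (a j)) → #J ≤ μ

theorem mem_iff_emb (K : AEC L) (M : Type u) [L.Structure M] :
    K.mem M ↔ K.emb (Language.Equiv.refl L M).toEmbedding :=
  ⟨fun h => K.emb_equiv _ h, fun h => (K.emb_mem _ h).1⟩

theorem stable_of_agree {K K' : AEC L} {μ : Cardinal.{u}}
    (t : ∀ {M N : Type u} [L.Structure M] [L.Structure N] (f : M ↪[L] N), K'.emb f → K.emb f)
    (t' : ∀ {M N : Type u} [L.Structure M] [L.Structure N] (f : M ↪[L] N), K.emb f → K'.emb f)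
    (h : Stable K μ) : Stable K' μ := by
  intro M _ hM J N _ f a hf hne
  refine h M hM J N f a (fun j => t _ (hf j)) fun i j hij hs => hne i j hij ?_
  obtain ⟨Q, iQ, g, g', h1, h2, h3, h4⟩ := hs
  exact ⟨Q, iQ, g, g', t' _ h1, t' _ h2, h3, h4⟩

theorem stable_of_code {κ : Cardinal.{u}} {J : Type u} (hJ : #J = κ) {K K' : AEC L}
    (hκ : K.LSat κ) (hκ' : K'.LSat κ) (hc : code J K = code J K') {μ : Cardinal.{u}}
    (h : Stable K μ) : Stable K' μ := by
  subst hJ
  exact stable_of_agree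
    (fun f hf => emb_agree hκ' (fun M N _ _ f hM hN hf => emb_of_code hc.symm M N f hM hN hf) f hf)
    (fun f hf => emb_agree hκ (fun M N _ _ f hM hN hf => emb_of_code hc M N f hM hN hf) f hf) h

theorem tr_stable {L₀ : FirstOrder.Language.{u, u}} (φ : Ren L L₀) {K : AEC L}
    {μ : Cardinal.{u}} : Stable (tr φ K) μ ↔ Stable K μ := by
  constructor
  · intro h M i0 hM J N iN f a hf hne
    obtain ⟨s0, rfl⟩ := pl_surj φ i0
    choose s hs using fun j => pl_surj φ (iN j)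
    obtain rfl : (fun j => pl φ (N j) (s j)) = iN := funext hs
    refine @h M s0 hM J N s (fun j => upE φ s0 (s j) (f j)) a hf fun i j hij hst => hne i j hij ?_
    obtain ⟨Q, iQ, g, g', h1, h2, h3, h4⟩ := hst
    exact ⟨Q, pl φ Q iQ, plE φ (s i) iQ g, plE φ (s j) iQ g', h1, h2, h3, h4⟩
  · intro h M s0 hM J N s f a hf hne
    refine @h M (pl φ M s0) hM J N (fun j => pl φ (N j) (s j))
      (fun j => plE φ s0 (s j) (f j)) a hf fun i j hij hst => hne i j hij ?_
    obtain ⟨Q, iQ, g, g', h1, h2, h3, h4⟩ := hst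
    obtain ⟨t, rfl⟩ := pl_surj φ iQ
    exact ⟨Q, t, upE φ (s i) t g, upE φ (s j) t g', h1, h2, h3, h4⟩

/-- the bound for a fixed language -/
theorem stable_lang (L : FirstOrder.Language.{u, u}) (κ : Cardinal.{u}) :
    ∃ H : Cardinal.{u}, κ ≤ H ∧ ∀ K : AEC L, K.LSat κ → (∀ μ, κ ≤ μ → μ ≤ H → Stable K μ) →
      ∀ μ, κ ≤ μ → Stable K μ := by
  classical
  obtain ⟨J, hJ⟩ : ∃ J : Type u, #J = κ := ⟨κ.out, Cardinal.mk_out κ⟩
  let C : Type u := (A B : Set J) → L.Structure A → L.Structure B → (A → B) → Prop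
  let P : C → Cardinal.{u} → Prop := fun c ν =>
    κ ≤ ν ∧ ∃ K : AEC L, K.LSat κ ∧ code J K = c ∧ ¬ Stable K ν
  let F : C → Cardinal.{u} := fun c => if h : ∃ ν, P c ν then h.choose else κ
  refine ⟨max κ (⨆ c, F c), le_max_left _ _, fun K hK hμ ν hν => ?_⟩
  by_contra hn
  have hex : ∃ ν, P (code J K) ν := ⟨ν, hν, K, hK, rfl, hn⟩
  have hF : F (code J K) = hex.choose := dif_pos hex
  obtain ⟨h2, K', hK', hc, hn'⟩ := hex.choose_spec
  have hle : hex.choose ≤ max κ (⨆ c, F c) := by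
    rw [← hF]
    exact (le_ciSup (Cardinal.bddAbove_range F) (code J K)).trans (le_max_right _ _)
  exact hn' (stable_of_code hJ hK hK' hc.symm (hμ _ h2 hle))

/-- a Hanf number for Galois stability -/
theorem hanf_stable (κ : Cardinal.{u}) :
    ∃ H : Cardinal.{u}, κ ≤ H ∧ ∀ (L : FirstOrder.Language.{u, u}) (K : AEC L), K.LSat κ →
      (∀ μ, κ ≤ μ → μ ≤ H → Stable K μ) → ∀ μ, κ ≤ μ → Stable K μ := by
  obtain ⟨J, hJ⟩ : ∃ J : Type u, #J = κ := ⟨κ.out, Cardinal.mk_out κ⟩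
  choose H hH1 hH2 using fun p : (ℕ → Set J) × (ℕ → Set J) => stable_lang (LJ J p) κ
  refine ⟨max κ (⨆ p, H p), le_max_left _ _, fun L K hK hw ν hν => ?_⟩
  obtain ⟨p, ⟨φ⟩⟩ := exists_ren J L (hJ ▸ hK.2.1)
  have hle : H p ≤ max κ (⨆ p, H p) :=
    (le_ciSup (Cardinal.bddAbove_range H) p).trans (le_max_right _ _)
  exact (tr_stable φ).1 (hH2 p (tr φ K) (tr_LSat φ hK)
    (fun μ h1 h2 => (tr_stable φ).2 (hw μ h1 (h2.trans hle))) ν hν)

end Pool.Agent.U66.UP
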