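import Pool.Agent.U66.UP.Main
import Pool.Agent.U66.UP.Split

set_option autoImplicit false
set_option linter.unusedSectionVars false

/-! The embedding of a limit ultrapower into an iterated one is a strong embedding. -/

namespace Pool.Agent.U66.UP

open Cardinal FirstOrder FirstOrder.Language
open Pool.Agent.H288R4.LS (AEC)

universe u

variable {L : FirstOrder.Language.{u, u}} {Λ I : Type u} [LinearOrder Λ] [Nonempty I]
  (U : Ultrafilter I) {K : AEC L}

theorem exists_enum {N J : Type u} [L.Structure N] (B : L.Substructure N)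
    (hne : (B : Set N).Nonempty) (hc : #B ≤ #J) : ∃ e : J → N, Set.range e = (B : Set N) := by
  obtain ⟨f⟩ := hc
  have : Nonempty B := hne.to_subtype
  refine ⟨fun j => (Function.invFun f j : B).1, ?_⟩
  ext y
  constructor
  · rintro ⟨j, rfl⟩; exact (Function.invFun f j : B).2
  · intro hy
    exact ⟨f ⟨y, hy⟩, by simp [Function.leftInverse_invFun f.injective ⟨y, hy⟩]⟩

theorem pw_enum {κ : Cardinal.{u}} (hU : Cpl U κ) {M : Type u} [L.Structure M]
    {H' : (Λ → I) → L.Substructure M} (hH' : ∃ s : Finset Λ, Sp s H')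
    (hne : ∀ x, (H' x : Set M).Nonempty) (hcard : ∀ x, #(H' x) ≤ κ) :
    #(pw U H' hH') ≤ κ := by
  classical
  obtain ⟨J, hJ⟩ : ∃ J : Type u, #J = κ := ⟨κ.out, Cardinal.mk_out κ⟩
  obtain ⟨x₀⟩ : Nonempty (Λ → I) := inferInstance
  obtain ⟨m₀, -⟩ := hne x₀
  have hen : ∀ B : L.Substructure M, ∃ e : J → M, (B : Set M).Nonempty → #B ≤ κ →
      Set.range e = (B : Set M) := by
    intro B
    by_cases hB : (B : Set M).Nonempty ∧ #B ≤ κ
    · obtain ⟨e, he⟩ := exists_enum (J := J) B hB.1 (hJ ▸ hB.2)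
      exact ⟨e, fun _ _ => he⟩
    · exact ⟨fun _ => m₀, fun h1 h2 => absurd ⟨h1, h2⟩ hB⟩
  choose en hen using hen
  have hr : ∀ x, Set.range (en (H' x)) = (H' x : Set M) := fun x => hen _ (hne x) (hcard x)
  obtain ⟨s, hs⟩ := id hH'
  have hsg : ∀ j, Sp s (fun x => en (H' x) j) := fun j x y hxy => by
    simp only [hs x y hxy]
  let g : J → FS Λ I M := fun j => ⟨fun x => en (H' x) j, s, hsg j⟩
  rw [← hJ]
  have hsb0 : ∀ q : pw U H' hH', ∃ j, q.1 = mk U (g j) := by
    rintro ⟨q, hf⟩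
    obtain ⟨f, rfl⟩ := mk_surj U q
    have hf' := (mk_mem_pw U).1 hf
    obtain ⟨t, ht⟩ := f.2
    have hfs : ∀ j, Sp (t ∪ s) (fun x => f.1 x = (g j).1 x) := fun j x y hxy => by
      simp only
      rw [ht x y fun a ha => hxy a (Finset.mem_union_left _ ha)]
      have := hsg j x y fun a ha => hxy a (Finset.mem_union_right _ ha)
      change (f.1 y = en (H' x) j) = (f.1 y = en (H' y) j)
      simp only at this
      rw [this]
    have h1 : E U (fun x => ∃ j, f.1 x = (g j).1 x) := by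
      refine E_mono' U (sp_mem H' hH' f) ⟨_, Sp.ex hfs⟩ ?_ hf'
      intro x hx
      have : f.1 x ∈ Set.range (en (H' x)) := by rw [hr x]; exact hx
      obtain ⟨j, hj⟩ := this
      exact ⟨j, hj.symm⟩
    obtain ⟨j, hj⟩ := (E_ex U hU hJ.le hfs).1 h1
    exact ⟨j, (mk_eq U).2 hj⟩
  choose c hc using hsb0
  refine Cardinal.mk_le_of_injective (f := c) fun q r h => Subtype.ext ?_
  rw [hc q, hc r, h]

section fam
variable {N : Type u} [L.Structure N] {κ : Cardinal.{u}} (hκ : K.LSat κ) (hU : Cpl U κ)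
include hκ hU

theorem ksub_pw (hN : K.mem N) (H : (Λ → I) → L.Substructure N) (hH : ∃ s : Finset Λ, Sp s H)
    (hk : ∀ x, KSub K (H x)) (hc : ∀ x, #(H x) ≤ κ) (n₀ : N) : KSub K (pw U H hH) := by
  classical
  have h0 := hκ.1
  have hex : ∀ B : L.Substructure N, ∃ h : Finset N → L.Substructure N, #B ≤ κ →
      (Monotone h ∧ (∀ s : Finset N, (s : Set N) ⊆ h s) ∧
      (∀ s : Finset N, (B : Set N) ∪ {n₀} ⊆ h s) ∧ (∀ s, KSub K (h s)) ∧ ∀ s, #(h s) ≤ κ) := by
    intro B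
    by_cases hB : #B ≤ κ
    · obtain ⟨h, h1, h2, h3, h4, h5⟩ := exists_sk hκ hN (fun _ => (B : Set N) ∪ {n₀})
        (fun s => (Cardinal.mk_union_le _ _).trans (Cardinal.add_le_of_le h0 hB
          (by rw [Cardinal.mk_singleton]; exact Cardinal.one_le_aleph0.trans h0)))
      exact ⟨h, fun _ => ⟨h1, h2, h3, h4, h5⟩⟩
    · exact ⟨fun _ => ⊤, fun h => absurd h hB⟩
  choose hs hs' using hex
  have a1 : ∀ x, Monotone (hs (H x)) := fun x => (hs' _ (hc x)).1
  have a2 : ∀ x, ∀ s : Finset N, (s : Set N) ⊆ hs (H x) s := fun x => (hs' _ (hc x)).2.1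
  have a3 : ∀ x, ∀ s : Finset N, (H x : Set N) ∪ {n₀} ⊆ hs (H x) s := fun x =>
    (hs' _ (hc x)).2.2.1
  have a4 : ∀ x s, KSub K (hs (H x) s) := fun x => (hs' _ (hc x)).2.2.2.1
  have a5 : ∀ x s, #(hs (H x) s) ≤ κ := fun x => (hs' _ (hc x)).2.2.2.2
  have hsp : ∀ t : Finset (FS Λ I N), ∃ s : Finset Λ, Sp s (fun x => hs (H x) (ev t x)) := by
    intro t
    obtain ⟨s1, h1⟩ := hH
    obtain ⟨s2, h2⟩ := ev_sp t
    refine ⟨s1 ∪ s2, fun x y hxy => ?_⟩
    simp only
    rw [h1 x y fun a ha => hxy a (Finset.mem_union_left _ ha),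
      h2 x y fun a ha => hxy a (Finset.mem_union_right _ ha)]
  have hne : ∀ x s, (hs (H x) s : Set N).Nonempty := fun x s => ⟨n₀, a3 x s (Or.inr rfl)⟩
  let P : Finset (FS Λ I N) → L.Substructure (Pw U Λ N) := fun t =>
    pw U (fun x => hs (H x) (ev t x)) (hsp t)
  have hPm : Monotone P := fun s t hst => pw_mono U fun x => a1 x (ev_mono hst x)
  have hPt : (⨆ t, P t) = ⊤ := by
    rw [eq_top_iff]
    intro q _
    obtain ⟨g, rfl⟩ := mk_surj U q
    refine (le_iSup P {g}) ?_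
    refine (mk_mem_pw U).2 ?_
    obtain ⟨s, hs'⟩ := sp_mem _ (hsp {g}) g
    refine E_true U hs' fun x => a2 x _ ?_
    simp [ev]
  have hPk : ∀ t, KSub K (P t) := by
    intro t
    apply ksub_of_top
    rw [← hPt]
    refine kle_sys hPm (fun s t hst => ?_) t
    exact key U hκ.1 hκ.2.1 hU _ _ (fun x => hne x _) (fun x => a5 x _)
      fun x => KSub.le (a4 x _) (a4 x _) (a1 x (ev_mono hst x))
  refine KLe.sub (B := P ∅) ?_ (hPk _)
  exact key U hκ.1 hκ.2.1 hU _ _ (fun x => hne x _) (fun x => a5 x _)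
    fun x => KSub.le (hk x) (a4 x _) (fun y hy => a3 x _ (Or.inl hy))

end fam

section main
variable {M : Type u} [L.Structure M] {κ : Cardinal.{u}} (hκ : K.LSat κ) (hU : Cpl U κ)
  {Γ : Set Λ} (hΓ : IsUpperSet Γ)
include hκ hU

theorem emb_th (hM : K.mem M) (m₀ : M) : K.emb (th (L := L) U hΓ M) := by
  classical
  obtain ⟨h, hm, hs, hG, hk, hc⟩ := exists_sk hκ hM (fun _ => {m₀})
    (fun s => by
      rw [Cardinal.mk_singleton]
      exact Cardinal.one_le_aleph0.trans hκ.1)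
  have hne : ∀ s, (h s : Set M).Nonempty := fun s => ⟨m₀, hG s rfl⟩
  have hBk := Asys_sub (Λ := ↥Γ) U hκ hU hm hs hne hk hc
  have hN : K.mem (Pw U ↥Γ M) := (K.emb_mem _ (emb_dg (Λ := ↥Γ) U hκ hU hM m₀)).2
  obtain ⟨J, hJ⟩ : ∃ J : Type u, #J = κ := ⟨κ.out, Cardinal.mk_out κ⟩
  choose en hen using fun u => exists_enum (J := J) (h u) (hne u) (hJ ▸ hc u)
  let secs : Finset (FS Λ I M) → (↥Γᶜ → I) → Finset (FS ↥Γ I M) := fun t x₁ =>
    t.image fun f => sec f x₁
  have hsecs : ∀ t, ∃ s : Finset ↥Γᶜ, Sp s (secs t) := by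
    intro t
    choose sg hsg using fun f : FS Λ I M => sec_sp (Γ := Γ) f
    refine ⟨t.biUnion sg, fun x y hxy => ?_⟩
    apply Finset.image_congr
    intro g hg
    exact hsg g x y fun a ha => hxy a (Finset.mem_biUnion.2 ⟨g, hg, ha⟩)
  have hev : ∀ t x₁ x₂, ev (secs t x₁) x₂ = ev t (glue x₁ x₂) := by
    intro t x₁ x₂
    ext y
    simp only [ev, secs, Finset.mem_image]
    constructor
    · rintro ⟨g, ⟨z, hz, rfl⟩, rfl⟩; exact ⟨z, hz, rfl⟩
    · rintro ⟨z, hz, rfl⟩; exact ⟨_, ⟨z, hz, rfl⟩, rfl⟩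
  let H₁ : Finset (FS Λ I M) → (↥Γᶜ → I) → L.Substructure (Pw U ↥Γ M) := fun t x₁ =>
    Asys U h (secs t x₁)
  have hH₁ : ∀ t, ∃ s : Finset ↥Γᶜ, Sp s (H₁ t) := fun t => sp_comp' (hsecs t) _
  have hH₁c : ∀ t x₁, #(H₁ t x₁) ≤ κ := fun t x₁ =>
    pw_enum U hU _ (fun x => hne _) (fun x => hc _)
  have h1 : ∀ t : Finset (FS Λ I M), KSub K ((Asys U h t).map (th (L := L) U hΓ M).toHom) := by
    intro t
    have h2 : (Asys U h t).map (th (L := L) U hΓ M).toHom = pw U (H₁ t) (hH₁ t) := by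
      have hmem : ∀ f : FS Λ I M, (mk U f : Pw U Λ M) ∈ Asys U h t ↔
          (mk U (dbl (Γ := Γ) U f) : Pw U ↥Γᶜ (Pw U ↥Γ M)) ∈ pw U (H₁ t) (hH₁ t) := by
        intro f
        have e1 : (mk U f : Pw U Λ M) ∈ Asys U h t ↔ E U (fun x => f.1 x ∈ h (ev t x)) :=
          mk_mem_pw U
        have hsp := sp_mem (fun x => h (ev t x)) (sp_comp (ev_sp t) h) f
        rw [e1, mk_mem_pw, E_split U hΓ hsp]
        have : (fun x₁ : ↥Γᶜ → I => (dbl (Γ := Γ) U f).1 x₁ ∈ H₁ t x₁) = fun x₁ =>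
            E U (fun x₂ : ↥Γ → I => f.1 (glue x₁ x₂) ∈ h (ev t (glue x₁ x₂))) := by
          funext x₁
          apply propext
          have e2 : (mk U (sec f x₁) : Pw U ↥Γ M) ∈ Asys U h (secs t x₁) ↔
              E U (fun x₂ => (sec f x₁).1 x₂ ∈ h (ev (secs t x₁) x₂)) := mk_mem_pw U
          refine e2.trans ?_
          simp only [hev]
          exact Iff.rfl
        rw [this]
      ext q
      constructor
      · rintro ⟨r, hr, rfl⟩
        obtain ⟨f, rfl⟩ := mk_surj U r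
        change th (L := L) U hΓ M (mk U f) ∈ _
        rw [th_mk]
        exact (hmem f).1 hr
      · intro hq
        obtain ⟨G, rfl⟩ := mk_surj U q
        have hq' := (mk_mem_pw U).1 hq
        have hfs : ∀ α : J, ∃ s : Finset Λ, Sp s (fun x => en (ev t x) α) := fun α =>
          sp_comp (ev_sp t) fun u => en u α
        let fα : J → FS Λ I M := fun α => ⟨fun x => en (ev t x) α, hfs α⟩
        have hstep : ∀ x₁, G.1 x₁ ∈ H₁ t x₁ → ∃ α, G.1 x₁ = (dbl (Γ := Γ) U (fα α)).1 x₁ := by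
          intro x₁ hx₁
          obtain ⟨g, hg⟩ := mk_surj U (G.1 x₁)
          rw [← hg] at hx₁ ⊢
          have e2 := (mk_mem_pw U).1 hx₁
          simp only [hev] at e2
          obtain ⟨s, hsg⟩ := id g.2
          obtain ⟨s', hsc⟩ : ∃ s' : Finset ↥Γ, Sp s' (fun x₂ : ↥Γ → I => ev t (glue x₁ x₂)) := by
            obtain ⟨w, hw⟩ := ev_sp (secs t x₁)
            refine ⟨w, fun y z hyz => ?_⟩
            simp only
            rw [← hev, ← hev]
            exact hw y z hyz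
          have hP : ∀ α, Sp (s ∪ s') (fun x₂ : ↥Γ → I => g.1 x₂ = en (ev t (glue x₁ x₂)) α) :=
            fun α y z hyz => by
              have q1 := hsg y z fun a ha => hyz a (Finset.mem_union_left _ ha)
              have q2 := hsc y z fun a ha => hyz a (Finset.mem_union_right _ ha)
              simp only at q2
              simp only [q1, q2]
          have e3 : E U (fun x₂ : ↥Γ → I => ∃ α, g.1 x₂ = en (ev t (glue x₁ x₂)) α) := by
            refine E_mono' U ?_ ⟨_, Sp.ex hP⟩ ?_ e2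
            · refine ⟨s ∪ s', fun y z hyz => ?_⟩
              have q1 := hsg y z fun a ha => hyz a (Finset.mem_union_left _ ha)
              have q2 := hsc y z fun a ha => hyz a (Finset.mem_union_right _ ha)
              simp only at q2
              simp only [q1, q2]
            · intro x₂ hx₂
              have : g.1 x₂ ∈ Set.range (en (ev t (glue x₁ x₂))) := by rw [hen]; exact hx₂
              obtain ⟨α, hα⟩ := this
              exact ⟨α, hα.symm⟩
          obtain ⟨α, hα⟩ := (E_ex U hU hJ.le hP).1 e3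
          exact ⟨α, (mk_eq U).2 hα⟩
        obtain ⟨sG, hsG⟩ := id G.2
        obtain ⟨sS, hsS⟩ := hsecs t
        have hdb : ∀ α, ∃ s, Sp s (fun x₁ => G.1 x₁ = (dbl (Γ := Γ) U (fα α)).1 x₁) := fun α =>
          sp_eq G (dbl (Γ := Γ) U (fα α))
        -- a common support
        obtain ⟨sT, hsT⟩ := ev_sp t
        obtain ⟨s₁, s₂, hs1, hs2⟩ := exists_split (Γ := Γ) sT
        have hdb' : ∀ α, Sp (sG ∪ s₁) (fun x₁ : ↥Γᶜ → I =>
            G.1 x₁ = (dbl (Γ := Γ) U (fα α)).1 x₁) := by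
          intro α y z hyz
          have q1 := hsG y z fun a ha => hyz a (Finset.mem_union_left _ ha)
          have q2 : (dbl (Γ := Γ) U (fα α)).1 y = (dbl (Γ := Γ) U (fα α)).1 z := by
            change mk U (sec (fα α) y) = mk U (sec (fα α) z)
            congr 1
            apply Subtype.ext
            funext x₂
            change en (ev t (glue y x₂)) α = en (ev t (glue z x₂)) α
            rw [glue_congr hsT hs1 hs2 (x₁ := y) (y₁ := z) (x₂ := x₂) (y₂ := x₂)
              (fun a ha => hyz a (Finset.mem_union_right _ ha)) (fun a _ => rfl)]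
          simp only [q1, q2]
        have e4 : E U (fun x₁ : ↥Γᶜ → I => ∃ α, G.1 x₁ = (dbl (Γ := Γ) U (fα α)).1 x₁) :=
          E_mono' U (sp_mem _ (hH₁ t) G) ⟨_, Sp.ex hdb'⟩ hstep hq'
        obtain ⟨α, hα⟩ := (E_ex U hU hJ.le hdb').1 e4
        refine ⟨mk U (fα α), ?_, ?_⟩
        · refine (mk_mem_pw U).2 ?_
          obtain ⟨s, hs'⟩ := sp_mem (fun x => h (ev t x)) (sp_comp (ev_sp t) h) (fα α)
          refine E_true U hs' fun x => ?_
          have : en (ev t x) α ∈ Set.range (en (ev t x)) := ⟨α, rfl⟩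
          rw [hen] at this
          exact this
        · change th (L := L) U hΓ M (mk U (fα α)) = mk U G
          rw [th_mk]
          exact ((mk_eq U).2 hα).symm
    rw [h2]
    exact ksub_pw U hκ hU hN _ _ (fun x => hBk _) (fun x => hH₁c t x) (dg (L := L) U ↥Γ M m₀)
  have h4 := ksub_sys (K := K) (A := fun t => (Asys U h t).map (th (L := L) U hΓ M).toHom)
    (fun s t hst => Substructure.monotone_map (Asys_mono U hm hst)) h1
  refine emb_of_range K _ _ h4 ?_
  ext q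
  constructor
  · rintro ⟨r, rfl⟩
    have hr : r ∈ (⨆ t, Asys (Λ := Λ) U h t) := by rw [Asys_top U hs]; trivial
    have hd : Directed (· ≤ ·) (Asys (Λ := Λ) U h) := (Asys_mono U hm).directed_le
    obtain ⟨t, ht⟩ := (Substructure.mem_iSup_of_directed hd).1 hr
    exact (le_iSup (fun t => (Asys U h t).map (th (L := L) U hΓ M).toHom) t) ⟨r, ht, rfl⟩
  · intro hq
    have : (⨆ t, (Asys U h t).map (th (L := L) U hΓ M).toHom) ≤
        (th (L := L) U hΓ M).toHom.range := by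
      refine iSup_le fun u => ?_
      rintro _ ⟨n, -, rfl⟩
      exact ⟨n, rfl⟩
    exact this hq

theorem emb_jj (hM : K.mem M) (m₀ : M) : K.emb (jj (L := L) U hΓ M) := by
  have hN : K.mem (Pw U ↥Γ M) := (K.emb_mem _ (emb_dg (Λ := ↥Γ) U hκ hU hM m₀)).2
  refine K.coherence (th (L := L) U hΓ M) _ (emb_th U hκ hU hΓ hM m₀) ?_
  have : (th (L := L) U hΓ M).comp (jj (L := L) U hΓ M) = dg (L := L) U ↥Γᶜ (Pw U ↥Γ M) := by
    apply Embedding.ext
    intro q
    exact th_jj U hΓ q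
  rw [this]
  exact emb_dg (Λ := ↥Γᶜ) U hκ hU hN (dg (L := L) U ↥Γ M m₀)

end main

/-- `f` can be amalgamated with every strong embedding -/
def Nice (K : AEC L) {M N : Type u} [L.Structure M] [L.Structure N] (f : M ↪[L] N) : Prop :=
  ∀ (N' : Type u) [L.Structure N'] (f' : M ↪[L] N'), K.emb f' →
    ∃ (Q : Type u) (_ : L.Structure Q) (g : N ↪[L] Q) (g' : N' ↪[L] Q),
      K.emb g ∧ K.emb g' ∧ ∀ x, g (f x) = g' (f' x)

theorem nice_jj {M : Type u} [L.Structure M] {κ : Cardinal.{u}} (hκ : K.LSat κ) (hU : Cpl U κ)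
    {Γ : Set Λ} (hΓ : IsUpperSet Γ) (hM : K.mem M) (m₀ : M) :
    Nice K (jj (L := L) U hΓ M) := by
  intro N' _ f' hf'
  refine ⟨Pw U ↥Γᶜ N', inferInstance, (pmap (Λ := ↥Γᶜ) U f').comp (th (L := L) U hΓ M),
    dg (L := L) U ↥Γᶜ N', ?_, ?_, fun q => ?_⟩
  · exact K.emb_comp _ _ (emb_pmap (Λ := ↥Γᶜ) U hκ hU f' hf' (dg (L := L) U ↥Γ M m₀))
      (emb_th U hκ hU hΓ hM m₀)
  · exact emb_dg (Λ := ↥Γᶜ) U hκ hU (K.emb_mem _ hf').2 (f' (dg (L := L) U ↥Γ M m₀))
  · change pmap (Λ := ↥Γᶜ) U f' (th (L := L) U hΓ M (jj (L := L) U hΓ M q)) = _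
    rw [th_jj]
    exact pmap_dg U f' q

end Pool.Agent.U66.UP
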