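import Pool.Agent.U66.UP.St

set_option autoImplicit false
set_option linter.unusedSectionVars false

/-! A uniform bound for tameness. -/

namespace Pool.Agent.U66.UP

open Cardinal FirstOrder FirstOrder.Language
open Pool.Agent.H288R4.LS (AEC)

universe u

variable {L : FirstOrder.Language.{u, u}}

/-- tameness down to `χ`: two Galois types over a member `M` whose restrictions to all strong
submodels of size at most `χ` agree are equal -/
def Tame (K : AEC L) (χ : Cardinal.{u}) : Prop :=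
  ∀ (M N N' : Type u) [L.Structure M] [L.Structure N] [L.Structure N'] (f : M ↪[L] N)
    (f' : M ↪[L] N') (a : N) (a' : N'), K.emb f → K.emb f' →
    (∀ (M₀ : Type u) [L.Structure M₀] (e : M₀ ↪[L] M), K.emb e → #M₀ ≤ χ →
      SameType K (f.comp e) a (f'.comp e) a') → SameType K f a f' a'

theorem Tame.mono {K : AEC L} {χ χ' : Cardinal.{u}} (h : Tame K χ) (hle : χ ≤ χ') :
    Tame K χ' := by
  intro M N N' _ _ _ f f' a a' h1 h2 h3
  exact h M N N' f f' a a' h1 h2 fun M₀ _ e he hc => h3 M₀ e he (hc.trans hle)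

theorem tame_of_agree {K K' : AEC L} {χ : Cardinal.{u}}
    (t : ∀ {M N : Type u} [L.Structure M] [L.Structure N] (f : M ↪[L] N), K'.emb f → K.emb f)
    (t' : ∀ {M N : Type u} [L.Structure M] [L.Structure N] (f : M ↪[L] N), K.emb f → K'.emb f)
    (h : Tame K χ) : Tame K' χ := by
  intro M N N' _ _ _ f f' a a' h1 h2 h3
  obtain ⟨Q, iQ, g, g', k1, k2, k3, k4⟩ := h M N N' f f' a a' (t _ h1) (t _ h2)
    fun M₀ _ e he hc => by
      obtain ⟨Q, iQ, g, g', k1, k2, k3, k4⟩ := h3 M₀ e (t' _ he) hc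
      exact ⟨Q, iQ, g, g', t _ k1, t _ k2, k3, k4⟩
  exact ⟨Q, iQ, g, g', t' _ k1, t' _ k2, k3, k4⟩

theorem tame_of_code {κ : Cardinal.{u}} {J : Type u} (hJ : #J = κ) {K K' : AEC L}
    (hκ : K.LSat κ) (hκ' : K'.LSat κ) (hc : code J K = code J K') {χ : Cardinal.{u}}
    (h : Tame K χ) : Tame K' χ := by
  subst hJ
  exact tame_of_agree
    (fun f hf => emb_agree hκ' (fun M N _ _ f hM hN hf => emb_of_code hc.symm M N f hM hN hf) f hf)
    (fun f hf => emb_agree hκ (fun M N _ _ f hM hN hf => emb_of_code hc M N f hM hN hf) f hf) h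

theorem tr_tame {L₀ : FirstOrder.Language.{u, u}} (φ : Ren L L₀) {K : AEC L}
    {χ : Cardinal.{u}} : Tame (tr φ K) χ ↔ Tame K χ := by
  constructor
  · intro h M N N' i0 i1 i2 f f' a a' h1 h2 h3
    obtain ⟨s0, rfl⟩ := pl_surj φ i0
    obtain ⟨s1, rfl⟩ := pl_surj φ i1
    obtain ⟨s2, rfl⟩ := pl_surj φ i2
    obtain ⟨Q, iQ, g, g', k1, k2, k3, k4⟩ :=
      @h M N N' s0 s1 s2 (upE φ s0 s1 f) (upE φ s0 s2 f') a a' h1 h2 fun M₀ s e he hc => by
        obtain ⟨Q, iQ, g, g', k1, k2, k3, k4⟩ := @h3 M₀ (pl φ M₀ s) (plE φ s s0 e) he hc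
        obtain ⟨t, rfl⟩ := pl_surj φ iQ
        exact ⟨Q, t, upE φ s1 t g, upE φ s2 t g', k1, k2, k3, k4⟩
    exact ⟨Q, pl φ Q iQ, plE φ s1 iQ g, plE φ s2 iQ g', k1, k2, k3, k4⟩
  · intro h M N N' s0 s1 s2 f f' a a' h1 h2 h3
    obtain ⟨Q, iQ, g, g', k1, k2, k3, k4⟩ :=
      @h M N N' (pl φ M s0) (pl φ N s1) (pl φ N' s2) (plE φ s0 s1 f) (plE φ s0 s2 f') a a' h1 h2
        fun M₀ iM e he hc => by
          obtain ⟨s, rfl⟩ := pl_surj φ iM
          obtain ⟨Q, iQ, g, g', k1, k2, k3, k4⟩ := @h3 M₀ s (upE φ s s0 e) he hc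
          exact ⟨Q, pl φ Q iQ, plE φ s1 iQ g, plE φ s2 iQ g', k1, k2, k3, k4⟩
    obtain ⟨t, rfl⟩ := pl_surj φ iQ
    exact ⟨Q, t, upE φ s1 t g, upE φ s2 t g', k1, k2, k3, k4⟩

/-- the bound for a fixed language -/
theorem tame_lang (L : FirstOrder.Language.{u, u}) (κ : Cardinal.{u}) :
    ∃ H : Cardinal.{u}, κ ≤ H ∧ ∀ K : AEC L, K.LSat κ → (∃ χ, Tame K χ) → Tame K H := by
  classical
  obtain ⟨J, hJ⟩ : ∃ J : Type u, #J = κ := ⟨κ.out, Cardinal.mk_out κ⟩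
  let C : Type u := (A B : Set J) → L.Structure A → L.Structure B → (A → B) → Prop
  let P : C → Cardinal.{u} → Prop := fun c ν =>
    ∃ K : AEC L, K.LSat κ ∧ code J K = c ∧ Tame K ν
  let F : C → Cardinal.{u} := fun c => if h : ∃ ν, P c ν then h.choose else κ
  refine ⟨max κ (⨆ c, F c), le_max_left _ _, fun K hK ⟨χ, hχ⟩ => ?_⟩
  have hex : ∃ ν, P (code J K) ν := ⟨χ, K, hK, rfl, hχ⟩
  have hF : F (code J K) = hex.choose := dif_pos hex
  obtain ⟨K', hK', hc, hn'⟩ := hex.choose_spec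
  have hle : hex.choose ≤ max κ (⨆ c, F c) := by
    rw [← hF]
    exact (le_ciSup (Cardinal.bddAbove_range F) (code J K)).trans (le_max_right _ _)
  exact (tame_of_code hJ hK' hK hc hn').mono hle

/-- a uniform bound for tameness -/
theorem hanf_tame (κ : Cardinal.{u}) :
    ∃ H : Cardinal.{u}, κ ≤ H ∧ ∀ (L : FirstOrder.Language.{u, u}) (K : AEC L), K.LSat κ →
      (∃ χ, Tame K χ) → Tame K H := by
  obtain ⟨J, hJ⟩ : ∃ J : Type u, #J = κ := ⟨κ.out, Cardinal.mk_out κ⟩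
  choose H hH1 hH2 using fun p : (ℕ → Set J) × (ℕ → Set J) => tame_lang (LJ J p) κ
  refine ⟨max κ (⨆ p, H p), le_max_left _ _, fun L K hK ⟨χ, hw⟩ => ?_⟩
  obtain ⟨p, ⟨φ⟩⟩ := exists_ren J L (hJ ▸ hK.2.1)
  have hle : H p ≤ max κ (⨆ p, H p) :=
    (le_ciSup (Cardinal.bddAbove_range H) p).trans (le_max_right _ _)
  exact ((tr_tame φ).1 (hH2 p (tr φ K) (tr_LSat φ hK) ⟨χ, (tr_tame φ).2 hw⟩)).mono hle

end Pool.Agent.U66.UP
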