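import Pool.Agent.U66.UP.Ap

set_option autoImplicit false
set_option linter.unusedSectionVars false

/-! An abstract elementary class is determined by its small members. -/

namespace Pool.Agent.U66.UP

open Cardinal FirstOrder FirstOrder.Language
open Pool.Agent.H288R4.LS (AEC)

universe u

variable {L : FirstOrder.Language.{u, u}}

theorem kle_top {N : Type u} [L.Structure N] {K : AEC L} {A : L.Substructure N}
    (h : KLe K A ⊤) : KSub K A := ksub_of_top h

theorem sys_top {N X : Type u} [L.Structure N] {A : Finset X → L.Substructure N}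
    (h : ∀ y : N, ∃ s, y ∈ A s) : (⨆ s, A s) = ⊤ := by
  rw [eq_top_iff]
  intro y _
  obtain ⟨s, hs⟩ := h y
  exact (le_iSup A s) hs

theorem emb_agree {K K' : AEC L} {κ : Cardinal.{u}} (hκ : K.LSat κ)
    (hag : ∀ (M N : Type u) [L.Structure M] [L.Structure N] (f : M ↪[L] N), #M ≤ κ → #N ≤ κ →
      K.emb f → K'.emb f)
    {M N : Type u} [L.Structure M] [L.Structure N] (f : M ↪[L] N) (hf : K.emb f) :
    K'.emb f := by
  classical
  obtain ⟨hM, hN⟩ := K.emb_mem f hf
  obtain ⟨h, hm, hs, hG, hk, hc⟩ := exists_sk hκ hM (fun _ => ∅)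
    (fun s => by simp)
  obtain ⟨h', hm', hs', hG', hk', hc'⟩ := exists_sk hκ hN
    (fun s => f '' (h (s.preimage f f.injective.injOn) : Set M))
    (fun s => Cardinal.mk_image_le.trans (hc _))
  have hsm : ∀ {A B : L.Substructure N}, #A ≤ κ → #B ≤ κ → KLe K A B → KLe K' A B := by
    rintro A B hA hB ⟨h1, h2⟩
    exact ⟨h1, hag _ _ _ hA hB h2⟩
  have k1 : ∀ s, KSub K' (h' s) := by
    intro s
    apply ksub_of_top
    rw [← sys_top (A := h') fun y => ⟨{y}, hs' {y} (by simp)⟩]
    exact kle_sys hm' (fun s t hst => hsm (hc' s) (hc' t) (KSub.le (hk' s) (hk' t) (hm' hst))) s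
  have hfk : ∀ u : Finset M, KSub K ((h u).map f.toHom) := by
    intro u
    have h1 := emb_range K _ (K.emb_comp f (h u).subtype hf (hk u))
    have h2 : (f.comp (h u).subtype).toHom.range = (h u).map f.toHom := by
      ext q
      constructor
      · rintro ⟨n, rfl⟩; exact ⟨n.1, n.2, rfl⟩
      · rintro ⟨n, hn, rfl⟩; exact ⟨⟨n, hn⟩, rfl⟩
    rw [h2] at h1
    exact h1
  have hle : ∀ u : Finset M, (h u).map f.toHom ≤ h' (u.image f) := by
    rintro u _ ⟨m, hm1, rfl⟩
    refine hG' _ ⟨m, ?_, rfl⟩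
    refine hm ?_ hm1
    intro y hy
    simp only [Finset.mem_preimage, Finset.mem_image]
    exact ⟨y, hy, rfl⟩
  have k2 : ∀ u : Finset M, KSub K' ((h u).map f.toHom) := by
    intro u
    refine KLe.sub (B := h' (u.image f)) ?_ (k1 _)
    refine hsm ?_ (hc' _) (KSub.le (hfk u) (hk' _) (hle u))
    have : ((h u).map f.toHom : Set N) = f '' (h u : Set M) := rfl
    change #((h u).map f.toHom : Set N) ≤ κ
    rw [this]
    exact Cardinal.mk_image_le.trans (hc u)
  have h4 := ksub_sys (K := K') (A := fun u => (h u).map f.toHom)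
    (fun s t hst => Substructure.monotone_map (hm hst)) k2
  refine emb_of_range K' _ _ h4 ?_
  ext q
  constructor
  · rintro ⟨n, rfl⟩
    refine (le_iSup (fun u => (h u).map f.toHom) {n}) ?_
    exact ⟨n, hs {n} (by simp), rfl⟩
  · intro hq
    have : (⨆ u, (h u).map f.toHom) ≤ f.toHom.range := by
      refine iSup_le fun u => ?_
      rintro _ ⟨n, -, rfl⟩
      exact ⟨n, rfl⟩
    exact this hq

/-- the small part of a class, on subsets of `J` -/
def code (J : Type u) (K : AEC L) (A B : Set J) (sA : L.Structure A) (sB : L.Structure B)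
    (f : A → B) : Prop := ∃ f' : A ↪[L] B, (∀ x, f' x = f x) ∧ K.emb f'

theorem exists_copy {J : Type u} (M : Type u) [L.Structure M] (h : #M ≤ #J) :
    ∃ (A : Set J) (_ : L.Structure A), Nonempty (M ≃[L] A) := by
  obtain ⟨e⟩ := h
  let e' : M ≃ Set.range e := Equiv.ofInjective e e.injective
  letI := e'.inducedStructure (L := L)
  exact ⟨Set.range e, inferInstance, ⟨e'.inducedStructureEquiv⟩⟩

theorem emb_of_code {J : Type u} {K K' : AEC L} (hc : code J K = code J K')
    (M N : Type u) [L.Structure M] [L.Structure N] (f : M ↪[L] N) (hM : #M ≤ #J) (hN : #N ≤ #J)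
    (hf : K.emb f) : K'.emb f := by
  obtain ⟨A, iA, ⟨a⟩⟩ := exists_copy (L := L) (J := J) M hM
  obtain ⟨B, iB, ⟨b⟩⟩ := exists_copy (L := L) (J := J) N hN
  obtain ⟨mM, mN⟩ := K.emb_mem f hf
  have e1 : K.emb a.symm.toEmbedding :=
    K.emb_equiv _ (K.emb_mem _ (K.emb_equiv a mM)).2
  have e2 : K.emb ((b.toEmbedding.comp f).comp a.symm.toEmbedding) :=
    K.emb_comp _ _ (K.emb_comp _ _ (K.emb_equiv b mN) hf) e1
  have e3 : code J K A B iA iB ((b.toEmbedding.comp f).comp a.symm.toEmbedding) :=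
    ⟨_, fun x => rfl, e2⟩
  rw [hc] at e3
  obtain ⟨f', h1, h2⟩ := e3
  have e4 : f' = (b.toEmbedding.comp f).comp a.symm.toEmbedding := by
    ext x; exact congrArg Subtype.val (h1 x)
  subst e4
  obtain ⟨mA, mB⟩ := K'.emb_mem _ h2
  have mM' := (K'.emb_mem _ (K'.emb_equiv a.symm mA)).2
  have e5 := K'.emb_comp _ _ (K'.emb_comp _ _ (K'.emb_equiv b.symm mB) h2) (K'.emb_equiv a mM')
  convert e5 using 1
  ext x
  change f x = b.symm (b (f (a.symm (a x))))
  simp

theorem wap_of_code {κ : Cardinal.{u}} {J : Type u} (hJ : #J = κ) {K K' : AEC L}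
    (hκ : K.LSat κ) (hκ' : K'.LSat κ) (hc : code J K = code J K') {lam : Cardinal.{u}}
    (h : WAP K lam) : WAP K' lam := by
  subst hJ
  intro M₀ M₁ M₂ _ _ _ f₁ f₂ h1 h2 c0 c1 c2
  have t : ∀ {M N : Type u} [L.Structure M] [L.Structure N] (f : M ↪[L] N), K'.emb f → K.emb f :=
    fun f hf => emb_agree hκ' (fun M N _ _ f hM hN hf => emb_of_code hc.symm M N f hM hN hf) f hf
  have t' : ∀ {M N : Type u} [L.Structure M] [L.Structure N] (f : M ↪[L] N), K.emb f → K'.emb f :=
    fun f hf => emb_agree hκ (fun M N _ _ f hM hN hf => emb_of_code hc M N f hM hN hf) f hf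
  obtain ⟨N, iN, g₁, g₂, h3, h4, h5⟩ := h M₀ M₁ M₂ f₁ f₂ (t f₁ h1) (t f₂ h2) c0 c1 c2
  exact ⟨N, iN, g₁, g₂, t' g₁ h3, t' g₂ h4, h5⟩

/-- a uniform bound for the first failure of amalgamation above a measurable cardinal, for all
classes in a fixed language -/
theorem bound_lang (L : FirstOrder.Language.{u, u}) {κ χ : Cardinal.{u}} (hχ : Measurable χ)
    (h1 : κ < χ) : ∃ μ : Cardinal.{u}, χ ≤ μ ∧ ∀ K : AEC L, K.LSat κ → WAP K μ →
      ∀ ν, χ ≤ ν → WAP K ν := by
  classical
  obtain ⟨J, hJ⟩ : ∃ J : Type u, #J = κ := ⟨κ.out, Cardinal.mk_out κ⟩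
  let C : Type u := (A B : Set J) → L.Structure A → L.Structure B → (A → B) → Prop
  let P : C → Cardinal.{u} → Prop := fun c ν =>
    χ ≤ ν ∧ ∃ K : AEC L, K.LSat κ ∧ code J K = c ∧ ¬ WAP K ν
  let F : C → Cardinal.{u} := fun c => if h : ∃ ν, P c ν then h.choose else χ
  refine ⟨max χ (⨆ c, F c), le_max_left _ _, fun K hK hμ ν hν => ?_⟩
  by_contra hn
  have hex : ∃ ν, P (code J K) ν := ⟨ν, hν, K, hK, rfl, hn⟩
  have hF : F (code J K) = hex.choose := dif_pos hex
  obtain ⟨h2, K', hK', hc, hn'⟩ := hex.choose_spec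
  have hle : hex.choose ≤ max χ (⨆ c, F c) := by
    rw [← hF]
    exact (le_ciSup (Cardinal.bddAbove_range F) (code J K)).trans (le_max_right _ _)
  apply hn'
  have h3 : WAP K hex.choose := transfer hK hχ h1 h2 hle hμ
  exact wap_of_code hJ hK hK' hc.symm h3

end Pool.Agent.U66.UP
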